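import Pool.Agent.Work.MP_8c604c_gt.OG.HS
import Pool.Agent.Work.MP_8c604c_gt.OG.ZG
import Pool.Agent.Work.MP_8c604c_gt.T.Cx
import Pool.Agent.Work.MP_8c604c_gt.T.RCx
import Pool.Agent.Work.MP_8c604c_gt.OS.St2

-- merged part: Pool.Agent.Work.MP_8c604c_gt.OZ.Sg
section
/-!
Thom classes and Euler classes of real bundles up to sign (owner helper4).

Hints.  `thZ_gen0`: `thZ_gen_mul` with `a = 1`, `pull_oneH`, `cm_one`.  `sign_of_fib`: `Gen.span`, `Gen.eq_sign`,
`Gen.smul_inj`.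
`gen_prod`: both classes are `±` the pull-back of `orR` along linear equivalences with `Fin r → ℝ` (`gen_orR`, `zb_lin`,
`Gen.pul`, `Gen.eq_or`, `Gen.dim`); the product of `orR r` and `orR s` is the pull-back of `orR (r + s)` along
`Fin.append` (`pull_orR`, `ocR_append`, `ocR_map`, `List.finRange` of a sum, `cup_cls`); alternatively `thZ_gen_mul`-type
argument for the trivial bundle, or `TZ.Fib` and `gen_of_fib`.
`thR_map_sign`: `sign_of_fib` for `h'.thZ`, one point of `U'` (`g.ne`, `subsingleton_H`), `BMap.fib`, `gen_thR_fib`.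
`euR_map_sign`: pull back along the zero section (as `pull_euR` in T/AGys).
`euR_sum_sign`: let `W x = (V₁ x).prodMap (V₂ x)` on `A₁ × A₂` (an `RB` of rank `r₁ + r₂`), with the bundle map
`(B₁ x).coprod (B₂ x)` to `V` and the orientation `(o x).compContinuousLinearMap`; `pull_thR`; the product of the two
pulled back Thom classes has degree `r₁ + r₂` and is a generator on one fibre (`gen_prod`, `gen_thR_fib`, `pull_cup'`);
`sign_of_fib`; pull back along the zero section.  Compare the proof of `euR_sq` in T/RCx.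
`euR_sq_sign`: copy `euR_sq` with `c = ± 1` from `gen_prod`, `gen_orient`, `zb_lin (rcxJ r)`, `Gen.eq_sign`.
`cp_cx_neg`: `(cx V x).map star = cx V x`; on `U ×ˢ CP (Fin (r + 1))` use `cp_eval` with `L = snd` and with
`L = (snd ·).map star` (`CB.conj`, `eu_conj`, `cb_snd`, `Matrix.kroneckerMap` commutes with `map star`), then `poly_ext`
(`Polynomial.eval₂_comp`, `natDegree_comp`).  `cp_cx_odd`: compare coefficients (`Polynomial.comp_neg_X` lemmas or
`Polynomial.comp`, `finset_sum_coeff`), `2` is invertible in `ℂ`.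
-/

noncomputable section

set_option linter.unusedSectionVars false

namespace Pool.Agent.Work.MP_8c604c_gt.OT

open Set Topology Pool.Agent.Work.MP_849ab0_ag.G T

variable {X Y : Type} [TopologicalSpace X] [RegularSpace X] [SecondCountableTopology X]
  [TopologicalSpace Y] [RegularSpace Y] [SecondCountableTopology Y]

section Gen

variable {π : X → Y} {E Z : Set X} {U : Set Y} {d : ℤ} {τ : H E Z}

theorem thZ_gen0 (h : ThZ π E Z U d τ) (g : Gen 0 (1 : H U univ)) : Gen d τ := by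
  have := thZ_gen_mul h g
  rwa [zero_add, pull_oneH h.base.ok, cm_one] at this

theorem sign_of_fib (g : Gen d τ) {c : H E Z} (hc : IsDeg d c) {F : Type} [TopologicalSpace F]
    {σ : F → X} {A B : Set F} (g₁ : Gen d (pull σ A B τ)) (g₂ : Gen d (pull σ A B c)) :
    ∃ s : ℤ, (s = 1 ∨ s = -1) ∧ c = (s : ℂ) • τ := by
  obtain ⟨t, rfl⟩ := g.span c hc
  obtain ⟨s, hs, e⟩ := g₁.eq_sign g₂
  rw [map_smul] at e
  exact ⟨s, hs, by rw [g₁.smul_inj e]⟩

theorem Sg_sign (g : Gen d τ) {s : ℤ} (hs : s = 1 ∨ s = -1) : Gen d ((s : ℂ) • τ) := by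
  rcases hs with rfl | rfl
  · simpa using g
  · simpa using g.neg

theorem Sg_flip {c : H E Z} {s : ℤ} (hs : s = 1 ∨ s = -1) (e : c = (s : ℂ) • τ) :
    τ = (s : ℂ) • c := by
  rcases hs with rfl | rfl <;> simp [e]

end Gen

variable {A A₁ A₂ : Type} [NormedAddCommGroup A] [NormedSpace ℝ A] [FiniteDimensional ℝ A]
  [NormedAddCommGroup A₁] [NormedSpace ℝ A₁] [FiniteDimensional ℝ A₁]
  [NormedAddCommGroup A₂] [NormedSpace ℝ A₂] [FiniteDimensional ℝ A₂]

theorem Sg_fst : Ok Prod.fst univ {z : A₁ × A₂ | z.1 = 0} univ {0} :=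
  .of_mem (.of_continuous continuous_fst _) (fun _ _ => trivial) fun _ _ k => k

theorem Sg_snd : Ok Prod.snd univ {z : A₁ × A₂ | z.2 = 0} univ {0} :=
  .of_mem (.of_continuous continuous_snd _) (fun _ _ => trivial) fun _ _ k => k

/-- the product of local generators -/
theorem gen_prod {d₁ d₂ : ℤ} {ω₁ : H (univ : Set A₁) {0}} {ω₂ : H (univ : Set A₂) {0}}
    (h₁ : Gen d₁ ω₁) (h₂ : Gen d₂ ω₂) :
    Gen (d₁ + d₂) (cup (univ : Set (A₁ × A₂)) {0} (pull Prod.fst univ {z | z.1 = 0} ω₁)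
      (pull Prod.snd univ {z | z.2 = 0} ω₂)) := by
  obtain rfl := h₁.dim
  obtain rfl := h₂.dim
  set r := Module.finrank ℝ A₁
  set s := Module.finrank ℝ A₂
  let e₁ : A₁ ≃ₗ[ℝ] Fin r → ℝ := (Module.finBasis ℝ A₁).equivFun
  let e₂ : A₂ ≃ₗ[ℝ] Fin s → ℝ := (Module.finBasis ℝ A₂).equivFun
  obtain ⟨s₁, k₁, rfl⟩ := ((gen_orR r).pul (zb_lin e₁)).eq_sign h₁
  obtain ⟨s₂, k₂, rfl⟩ := ((gen_orR s).pul (zb_lin e₂)).eq_sign h₂
  simp only [map_smul, LinearMap.smul_apply]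
  refine Sg_sign (Sg_sign ?_ k₁) k₂
  let e : (A₁ × A₂) ≃ₗ[ℝ] Fin (r + s) → ℝ := (e₁.prodCongr e₂).trans
    ((LinearEquiv.sumArrowLequivProdArrow _ _ ℝ ℝ).symm.trans
      (LinearEquiv.funCongrLeft ℝ ℝ finSumFinEquiv.symm))
  have c₁ : Continuous fun z : A₁ × A₂ => e₁ z.1 :=
    e₁.toLinearMap.continuous_of_finiteDimensional.comp continuous_fst
  have c₂ : Continuous fun z : A₁ × A₂ => e₂ z.2 :=
    e₂.toLinearMap.continuous_of_finiteDimensional.comp continuous_snd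
  have g := (gen_orR (r + s)).pul (zb_lin e)
  have l : List.finRange (r + s) =
      (List.finRange r).map (Fin.castAdd s) ++ (List.finRange s).map (Fin.natAdd r) := by
    simp only [← List.ofFn_id, List.ofFn_add, List.map_ofFn]
    rfl
  have a₁ : (fun j z => e z j) ∘ Fin.castAdd s = fun j z => e₁ z.1 j := by
    funext j z
    simp [e]
  have a₂ : (fun j z => e z j) ∘ Fin.natAdd r = fun j z => e₂ z.2 j := by
    funext j z
    simp [e]
  rw [pull_orR (F := e) (Z := {0})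
    (fun _ _ => e.toLinearMap.continuous_of_finiteDimensional.continuousAt)
    (fun _ _ k => e.map_eq_zero_iff.1 k), l, ocR_append, ocR_map, ocR_map, a₁, a₂,
    Nat.cast_add] at g
  rwa [pull_pull' (F := fun z => e₁ z.1) Sg_fst (zb_lin e₁).ok fun _ _ => rfl,
    pull_pull' (F := fun z => e₂ z.2) Sg_snd (zb_lin e₂).ok fun _ _ => rfl,
    pull_orR (Z := {z | z.1 = 0}) (fun _ _ => c₁.continuousAt) fun _ _ k => e₁.map_eq_zero_iff.1 k,
    pull_orR (Z := {z | z.2 = 0}) (fun _ _ => c₂.continuousAt) fun _ _ k => e₂.map_eq_zero_iff.1 k,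
    cup_cls (Z₁ := {z : A₁ × A₂ | z.1 = 0}) (Z₂ := {z : A₁ × A₂ | z.2 = 0}) (Z := {0})
      (cupOK fun _ _ a b => Prod.ext a b)
      (ocR_zc (w := fun j (z : A₁ × A₂) => e₁ z.1 j)
        (fun j _ _ => ((continuous_apply j).comp c₁).continuousAt) _ fun _ _ k =>
        e₁.map_eq_zero_iff.1 (funext fun j => k j (List.mem_finRange j)))
      (ocR_zc (w := fun j (z : A₁ × A₂) => e₂ z.2 j)
        (fun j _ _ => ((continuous_apply j).comp c₂).continuousAt) _ fun _ _ k =>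
        e₂.map_eq_zero_iff.1 (funext fun j => k j (List.mem_finRange j)))]

variable {U : Set X} {U' : Set Y} {r r₁ r₂ : ℕ} {V : X → A →L[ℝ] A}

theorem Sg_ne (g : Gen 0 (1 : H U univ)) : U.Nonempty := by
  refine U.eq_empty_or_nonempty.resolve_left fun k => g.ne ?_
  subst k
  exact (subsingleton_H (empty_disjoint _)).elim _ _

theorem Sg_fr (h : RB V r U) {x : X} (hx : x ∈ U) : ∃ S : (Fin r → ℝ) →ₗ[ℝ] A,
    Function.Injective S ∧ (∀ v, V x (S v) = S v) ∧
      LinearMap.range (V x : A →ₗ[ℝ] A) = LinearMap.range S := by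
  obtain ⟨W, T, L, k1, k2⟩ := h.exists_frame hx
  have i := k2.inj ⟨hx, k1⟩
  have m := k2.mem x ⟨hx, k1⟩
  refine ⟨T x, i, m, le_antisymm ?_ ?_⟩
  · rintro _ ⟨a, rfl⟩
    exact h.surj_fib hx (T := (T x : (Fin r → ℝ) →ₗ[ℝ] A)) i m (h.idem x hx a)
  · rintro _ ⟨v, rfl⟩
    exact ⟨_, m v⟩

theorem Sg_zero (V : X → A →L[ℝ] A) (U : Set X) (Z : Set (X × A)) :
    Ok (fun x => (x, (0 : X → A) x)) U univ (totR V U) Z :=
  .of_mem (.of_continuous (by fun_prop) _) (fun _ k => ⟨k, map_zero _⟩) fun _ _ _ => trivial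

/-- the pull-back of an orientation -/
theorem Sg_ori {o : X → A [⋀^Fin r]→L[ℝ] ℝ} {V' : Y → A₁ →L[ℝ] A₁} {f : Y → X}
    {B : Y → A₁ →L[ℝ] A} (ho : Ori V r U o) (b : BMap V' U' V U f B) :
    Ori V' r U' fun y => (o (f y)).compContinuousLinearMap (B y) := by
  refine ⟨(ContinuousAlternatingMap.continuous_compContinuousLinearMapCLM.comp_continuousOn
    b.cB).clm_apply (ho.cont.comp b.cf b.mf), fun y hy c li m => ho.ne _ (b.mf hy) _
      (li.map (f := (B y : A₁ →ₗ[ℝ] A)) (Submodule.disjoint_def.2 fun a k k' => b.inj y hy a ?_ k'))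
      fun i => b.mem y hy _ (m i)⟩
  exact Submodule.span_le (p := LinearMap.eqLocus (V' y : A₁ →ₗ[ℝ] A₁) LinearMap.id) |>.2
    (range_subset_iff.2 m) k

theorem thR_map_sign {o : X → A [⋀^Fin r]→L[ℝ] ℝ} {V' : Y → A₁ →L[ℝ] A₁}
    {o' : Y → A₁ [⋀^Fin r]→L[ℝ] ℝ} {f : Y → X} {B : Y → A₁ →L[ℝ] A} (h : RB V r U) (ho : Ori V r U o)
    (h' : RB V' r U') (ho' : Ori V' r U' o') (b : BMap V' U' V U f B) (hr : 0 < r)
    (g : Gen 0 (1 : H U' univ)) : ∃ s : ℤ, (s = 1 ∨ s = -1) ∧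
      pull (fun z => (f z.1, B z.1 z.2)) (totR V' U') (zs Y A₁) (thR V r U o) =
        (s : ℂ) • thR V' r U' o' := by
  obtain ⟨y, hy⟩ := Sg_ne g
  obtain ⟨S, i, m, -⟩ := Sg_fr h' hy
  refine sign_of_fib (thZ_gen0 (h'.thZ ho' hr) g) ((thR_spec h ho).1.pull _ _ _)
    (gen_thR_fib h' ho' hy (Module.finrank_fin_fun ℝ) i m) ?_
  rw [(b.fib h'.lc hy i m _).2]
  exact gen_thR_fib h ho (b.mf hy) (Module.finrank_fin_fun ℝ) (b.fib h'.lc hy i m (thR V r U o)).1
    fun v => b.mem y hy _ (m v)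

theorem euR_map_sign {o : X → A [⋀^Fin r]→L[ℝ] ℝ} {V' : Y → A₁ →L[ℝ] A₁}
    {o' : Y → A₁ [⋀^Fin r]→L[ℝ] ℝ} {f : Y → X} {B : Y → A₁ →L[ℝ] A} (h : RB V r U) (ho : Ori V r U o)
    (h' : RB V' r U') (ho' : Ori V' r U' o') (b : BMap V' U' V U f B) (hr : 0 < r)
    (g : Gen 0 (1 : H U' univ)) : ∃ s : ℤ, (s = 1 ∨ s = -1) ∧
      pull f U' univ (euR V r o U) = (s : ℂ) • euR V' r o' U' := by
  refine (thR_map_sign h ho h' ho' b hr g).imp fun s k => ⟨k.1, ?_⟩
  rw [euR, euR, ecR, ecR, ← map_smul, ← k.2,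
    pull_pull' (F := fun y => (f y, (0 : A))) (ok_top h'.lc b.cf b.mf) (Sg_zero V U _) fun _ _ => rfl,
    pull_pull' (F := fun y => (f y, (0 : A))) (Sg_zero V' U' _) (b.ok h'.lc) fun _ _ => by simp]

theorem euR_sum_sign {o : X → A [⋀^Fin (r₁ + r₂)]→L[ℝ] ℝ} {V₁ : X → A₁ →L[ℝ] A₁}
    {o₁ : X → A₁ [⋀^Fin r₁]→L[ℝ] ℝ} {V₂ : X → A₂ →L[ℝ] A₂} {o₂ : X → A₂ [⋀^Fin r₂]→L[ℝ] ℝ}
    {B₁ : X → A₁ →L[ℝ] A} {B₂ : X → A₂ →L[ℝ] A} (h : RB V (r₁ + r₂) U) (ho : Ori V (r₁ + r₂) U o)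
    (h₁ : RB V₁ r₁ U) (ho₁ : Ori V₁ r₁ U o₁) (h₂ : RB V₂ r₂ U) (ho₂ : Ori V₂ r₂ U o₂)
    (b₁ : BMap V₁ U V U id B₁) (b₂ : BMap V₂ U V U id B₂)
    (dj : ∀ x ∈ U, ∀ a₁ a₂, V₁ x a₁ = a₁ → V₂ x a₂ = a₂ → B₁ x a₁ + B₂ x a₂ = 0 → a₁ = 0 ∧ a₂ = 0)
    (hr : 0 < r₁ + r₂) (g : Gen 0 (1 : H U univ)) : ∃ s : ℤ, (s = 1 ∨ s = -1) ∧
      euR V (r₁ + r₂) o U = (s : ℂ) • (euR V₁ r₁ o₁ U * euR V₂ r₂ o₂ U) := by
  set W : X → A₁ × A₂ →L[ℝ] A₁ × A₂ := fun x => (V₁ x).prodMap (V₂ x)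
  have hW : RB W (r₁ + r₂) U := ⟨h.lc, h₁.cont.prod_mapL ℝ h₂.cont,
    fun x hx a => Prod.ext (h₁.idem x hx _) (h₂.idem x hx _), fun x hx => by
      obtain ⟨S₁, i₁, -, e₁⟩ := Sg_fr h₁ hx
      obtain ⟨S₂, i₂, -, e₂⟩ := Sg_fr h₂ hx
      have : LinearMap.range (W x : A₁ × A₂ →ₗ[ℝ] A₁ × A₂) = LinearMap.range (S₁.prodMap S₂) := by
        rw [LinearMap.range_prodMap, ← e₁, ← e₂, ← LinearMap.range_prodMap]
        rfl
      rw [this, LinearMap.finrank_range_of_inj (i₁.prodMap i₂)]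
      simp⟩
  have b : BMap W U V U id fun x =>
      (B₁ x).comp (.fst ℝ A₁ A₂) + (B₂ x).comp (.snd ℝ A₁ A₂) :=
    ⟨continuousOn_id, mapsTo_id _,
      (b₁.cB.clm_comp continuousOn_const).add (b₂.cB.clm_comp continuousOn_const),
      fun x hx a k => (map_add _ _ _).trans (congrArg₂ (· + ·) (b₁.mem x hx _ (congrArg Prod.fst k))
        (b₂.mem x hx _ (congrArg Prod.snd k))),
      fun x hx a k e => (dj x hx _ _ (congrArg Prod.fst k) (congrArg Prod.snd k) e).elim Prod.ext⟩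
  have oW := Sg_ori ho b
  have e := pull_euR h ho hW oW b fun _ _ _ _ => rfl
  rw [pull_id] at e
  have o1 : Ok (fun z : X × A₁ × A₂ => (z.1, z.2.1)) (totR W U) {z | z.2.1 = 0} (totR V₁ U)
      (zs X A₁) := .of_mem (.of_continuous (by fun_prop) _)
    (fun z k => ⟨k.1, congrArg Prod.fst k.2⟩) fun _ _ k => k
  have o2 : Ok (fun z : X × A₁ × A₂ => (z.1, z.2.2)) (totR W U) {z | z.2.2 = 0} (totR V₂ U)
      (zs X A₂) := .of_mem (.of_continuous (by fun_prop) _)
    (fun z k => ⟨k.1, congrArg Prod.snd k.2⟩) fun _ _ k => k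
  have cu : CupOK (totR W U) {z | z.2.1 = 0} (totR W U) {z | z.2.2 = 0} (totR W U) (zs X _) :=
    cupOK fun _ _ a b => Prod.ext a b
  obtain ⟨y, hy⟩ := Sg_ne g
  obtain ⟨S₁, i₁, m₁, -⟩ := Sg_fr h₁ hy
  obtain ⟨S₂, i₂, m₂, -⟩ := Sg_fr h₂ hy
  have i : Function.Injective (S₁.prodMap S₂) := i₁.prodMap i₂
  have m : ∀ v, W y (S₁.prodMap S₂ v) = S₁.prodMap S₂ v := fun v => Prod.ext (m₁ _) (m₂ _)
  have o3 := ok_fibR hy i m
  have o4 : Ok (fun v => (y, S₁.prodMap S₂ v)) univ {v | v.1 = 0} (totR W U) {z | z.2.1 = 0} :=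
    .of_mem o3.ext o3.maps fun _ _ k => i₁ (k.trans S₁.map_zero.symm)
  have o5 : Ok (fun v => (y, S₁.prodMap S₂ v)) univ {v | v.2 = 0} (totR W U) {z | z.2.2 = 0} :=
    .of_mem o3.ext o3.maps fun _ _ k => i₂ (k.trans S₂.map_zero.symm)
  have g₂ := gen_prod (gen_thR_fib h₁ ho₁ hy (Module.finrank_fin_fun ℝ) i₁ m₁)
    (gen_thR_fib h₂ ho₂ hy (Module.finrank_fin_fun ℝ) i₂ m₂)
  rw [pull_pull' (F := fun v => (y, S₁ v.1)) Sg_fst (ok_fibR hy i₁ m₁) fun _ _ => rfl,
    pull_pull' (F := fun v => (y, S₂ v.2)) Sg_snd (ok_fibR hy i₂ m₂) fun _ _ => rfl,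
    ← pull_pull' (F := fun v => (y, S₁ v.1)) o4 o1 fun _ _ => rfl,
    ← pull_pull' (F := fun v => (y, S₂ v.2)) o5 o2 fun _ _ => rfl,
    ← pull_cup' o3 o4 o5 (fun _ _ a b => Prod.ext a b) cu, ← Nat.cast_add] at g₂
  obtain ⟨s, hs, k⟩ := sign_of_fib (thZ_gen0 (hW.thZ oW hr) g)
    (Nat.cast_add (R := ℤ) r₁ r₂ ▸
      ((thR_spec h₁ ho₁).1.pull _ _ _).cup ((thR_spec h₂ ho₂).1.pull _ _ _) _ _)
    (gen_thR_fib hW oW hy (by simp) i m) g₂
  refine ⟨s, hs, ?_⟩
  rw [e, euR, ecR, Sg_flip hs k, map_smul, pull_cup' (Sg_zero W U _) (Sg_zero W U _) (Sg_zero W U _)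
    (fun _ _ _ k => k) cu, pull_pull' (F := fun x => (x, (0 : X → A₁) x)) (Sg_zero W U _) o1
      fun _ _ => rfl, pull_pull' (F := fun x => (x, (0 : X → A₂) x)) (Sg_zero W U _) o2 fun _ _ => rfl]
  rfl

theorem euR_sq_sign {o : X → A [⋀^Fin r]→L[ℝ] ℝ} (h : RB V r U) (ho : Ori V r U o) :
    ∃ s : ℤ, (s = 1 ∨ s = -1) ∧ eu (cx V) r U = (s : ℂ) • euR V r o U ^ 2 := by
  have hc := h.cb_cx
  have f1 := (fib_orient (Fin r)).lin (rcxJ r)
  have g1 := (gen_orient (Fin r)).pul (zb_lin (rcxJ r))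
  rw [Fintype.card_fin, two_mul] at g1
  obtain ⟨c, c0, e⟩ := g1.eq_sign (gen_prod (gen_orR r) (gen_orR r))
  have sp := thR_spec h ho
  have cu : CupOK (tot (cx V) U) {z | rcxP A Complex.reLm z.2 = 0} (tot (cx V) U)
      {z | rcxP A Complex.imLm z.2 = 0} (tot (cx V) U) (zs X _) := cupOK fun z _ a b =>
    rcxP_ext (a.trans (map_zero _).symm) (b.trans (map_zero _).symm)
  have key : cup (tot (cx V) U) (zs X _)
      (pull (fun z => (z.1, rcxP A Complex.reLm z.2)) (tot (cx V) U)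
        {z | rcxP A Complex.reLm z.2 = 0} (thR V r U o))
      (pull (fun z => (z.1, rcxP A Complex.imLm z.2)) (tot (cx V) U)
        {z | rcxP A Complex.imLm z.2 = 0} (thR V r U o)) = (c : ℂ) • th (cx V) r U := by
    refine sub_eq_zero.1 (eq_zero_of_slice (F := (Fin r → ℝ) × (Fin r → ℝ))
      (hc.ok_fst fun _ _ _ => mem_univ _) hc.isThom_th.1 hc.thm_bij
      (IsDeg.sub (by rw [two_mul]; exact (sp.1.pull _ _ _).cup (sp.1.pull _ _ _) _ _)
        (hc.isThom_th.1.smul _)) fun y hy => ?_)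
    obtain ⟨W, T, L, k1, k2⟩ := h.exists_frame hy
    obtain ⟨S, i, m⟩ : ∃ S : (Fin r → ℝ) →ₗ[ℝ] A, Function.Injective S ∧ ∀ v, V y (S v) = S v :=
      ⟨T y, k2.inj ⟨hy, k1⟩, k2.mem y ⟨hy, k1⟩⟩
    have i' : Function.Injective (rcxT S) := fun w w' k => by
      have a : ∀ (l : ℂ →ₗ[ℝ] ℝ) j, l (w j) = l (w' j) := fun l =>
        congrFun (i (by rw [← rcxP_T, k, rcxP_T]) : (fun j => l (w j)) = fun j => l (w' j))
      exact funext fun j => Complex.ext (a Complex.reLm j) (a Complex.imLm j)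
    have m' : ∀ w, (cx V y).mulVec (rcxT S w) = rcxT S w := fun w =>
      rcxP_ext (by rw [rcxP_cx, rcxP_T, m]) (by rw [rcxP_cx, rcxP_T, m])
    have o1 : Ok (fun w => (y, rcxT S w)) univ {0} (tot (cx V) U) (zs X _) :=
      .of_mem (.of_continuous (continuous_const.prodMk (rcxT S).continuous_of_finiteDimensional) _)
        (fun w _ => ⟨hy, m' w⟩) fun _ _ k => i' (k.trans (map_zero _).symm)
    have o2 : Ok (rcxJ r) univ {0} univ {0} := ok_lin (T := (rcxJ r).toLinearMap) (rcxJ r).injective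
    have o3 := o1.comp o2
    have e1 : pull ((fun w => (y, rcxT S w)) ∘ rcxJ r) univ {0} (th (cx V) r U) =
        pull (rcxJ r) univ {0} (orient (Fin r)) := by
      rw [← pull_pull o2 o1, hc.isThom_th.2 y hy _ i' m']
    have o4 : ∀ (l : ℂ →ₗ[ℝ] ℝ) (q : (Fin r → ℝ) × (Fin r → ℝ) → Fin r → ℝ), Continuous q →
        (∀ z, (fun j => l (rcxJ r z j)) = q z) →
        Ok ((fun w => (y, rcxT S w)) ∘ rcxJ r) univ {z | q z = 0} (tot (cx V) U)
          {z | rcxP A l z.2 = 0} ∧ pull ((fun w => (y, rcxT S w)) ∘ rcxJ r) univ {z | q z = 0}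
            (pull (fun z => (z.1, rcxP A l z.2)) (tot (cx V) U) {z | rcxP A l z.2 = 0}
              (thR V r U o)) = (SignType.sign (o y fun i => S (Pi.single i 1)) : ℂ) •
                pull q univ {z | q z = 0} (orR r) := fun l q cq eq => by
      have a : Ok ((fun w => (y, rcxT S w)) ∘ rcxJ r) univ {z | q z = 0} (tot (cx V) U)
          {z | rcxP A l z.2 = 0} := .of_mem o3.ext o3.maps fun z _ k =>
        i (((congrArg S (eq z)).symm.trans ((rcxP_T l S _).symm.trans k)).trans (map_zero _).symm)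
      have b : Ok q univ {z | q z = 0} univ {0} :=
        .of_mem (.of_continuous cq _) (fun _ _ => mem_univ _) fun _ _ k => k
      refine ⟨a, ?_⟩
      rw [pull_pull' (F := fun z => (y, S (q z))) a (rcx_ok l) fun z _ =>
        Prod.ext rfl ((rcxP_T l S _).trans (congrArg S (eq z))), ← map_smul, ← sp.2 y hy S i m,
        pull_pull' (F := fun z => (y, S (q z))) b (ok_fibR hy i m) fun _ _ => rfl]
    obtain ⟨a1, b1⟩ := o4 Complex.reLm Prod.fst continuous_fst fun _ => rfl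
    obtain ⟨a2, b2⟩ := o4 Complex.imLm Prod.snd continuous_snd fun _ => rfl
    refine ⟨_, o3, fun _ => rfl, e1 ▸ f1.ne_zero, ?_⟩
    have s2 : (SignType.sign (o y fun i => S (Pi.single i 1)) : ℂ) *
        (SignType.sign (o y fun i => S (Pi.single i 1)) : ℂ) = 1 := by
      rcases lt_or_gt_of_ne (ho.ne y hy _ (indep_single i) fun _ => m _) with k | k
      · simp [sign_neg k]
      · simp [sign_pos k]
    rw [map_sub, map_smul, e1, ← e, pull_cup' o3 a1 a2 (fun _ _ a b => Prod.ext a b) cu, b1, b2,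
      map_smul, map_smul, LinearMap.smul_apply, smul_smul, s2, one_smul, sub_self]
  refine ⟨c, c0, Sg_flip c0 ?_⟩
  have z : ∀ Z, Ok (fun x => (x, (0 : X → _) x)) U univ (tot (cx V) U) Z := fun Z =>
    .of_mem (.of_continuous (by fun_prop) _) (fun _ k => ⟨k, Matrix.mulVec_zero _⟩) fun _ _ _ => trivial
  rw [eu, ec, ← map_smul, ← key, pull_cup' (z _) (z _) (z _) (fun _ _ _ k => k) cu,
    pull_pull' (F := fun x => (x, (0 : X → A) x)) (z _) (rcx_ok _) fun _ _ => by simp,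
    pull_pull' (F := fun x => (x, (0 : X → A) x)) (z _) (rcx_ok _) fun _ _ => by simp, sq]
  rfl

theorem isZ_euR {o : X → A [⋀^Fin r]→L[ℝ] ℝ} (h : RB V r U) (ho : Ori V r U o) (hr : 0 < r) :
    IsZ (euR V r o U) := (h.thZ ho hr).isZ.pul _ _ _

theorem Sg_conj {J : Type} [Fintype J] {P : X → Matrix J J ℂ} (h : CB P r U) :
    euE (fun x => (P x).map star) r U = (-1) ^ r * euE P r U := Subtype.ext (by
  rw [h.conj.euE_val, eu_conj h, ← h.euE_val]
  rcases Nat.even_or_odd r with k | k <;> simp [k.neg_one_pow])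

theorem cp_cx_neg (h : RB V r U) :
    (cp (cx V) r U).comp (-Polynomial.X) = (-1) ^ r * cp (cx V) r U := by
  have hc := h.cb_cx
  have hs := cb_snd (K := Fin (r + 1)) h.lc
  have hk := (cb_fst hc (lc_CP (J := Fin (r + 1)))).kron1 hs
  have e1 := cp_eval hc hs (ok_fst' U _)
  have e2 := cp_eval hc hs.conj (ok_fst' U _)
  have e3 : (fun y : X × Matrix (Fin (r + 1)) (Fin (r + 1)) ℂ =>
      (cx V y.1).kroneckerMap (· * ·) (y.2.map star)) =
      fun y => ((cx V y.1).kroneckerMap (· * ·) y.2).map star := by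
    ext y i j
    simp [T.cx]
  have d := hc.cp_natDegree
  rw [e3, Sg_conj hk, Sg_conj hs, e1, pow_one, neg_one_mul] at e2
  refine poly_ext (K := Fin (r + 1)) h.lc ?_ ?_ ?_
  · refine Polynomial.natDegree_comp_le.trans_lt ?_
    rw [Polynomial.natDegree_neg, Fintype.card_fin]
    exact Nat.lt_succ_of_le ((Nat.mul_le_mul d Polynomial.natDegree_X_le).trans_eq (mul_one r))
  · rw [Fintype.card_fin, Nat.lt_succ_iff]
    rcases neg_one_pow_eq_or (Polynomial (EvR U)) r with k | k <;> simpa [k] using d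
  · rw [Polynomial.eval₂_comp, Polynomial.eval₂_neg, Polynomial.eval₂_X, ← e2,
      Polynomial.eval₂_mul, Polynomial.eval₂_pow, Polynomial.eval₂_neg, Polynomial.eval₂_one]

theorem Sg_odd {S : Type} [CommRing S] [Algebra ℂ S] {p : Polynomial S} {i : ℕ}
    (h : p.comp (-Polynomial.X) = (-1) ^ r * p) (hi : Odd (r + i)) : p.coeff i = 0 := by
  have e := congrArg (Polynomial.coeff · i) h
  have e' : (-Polynomial.X : Polynomial S) = Polynomial.C (-1) * Polynomial.X := by simp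
  have e'' : ((-1) ^ r : Polynomial S) = Polynomial.C ((-1) ^ r) := by simp
  simp only [e', e'', Polynomial.comp_C_mul_X_coeff, Polynomial.coeff_C_mul] at e
  have k : (2 : ℂ) • p.coeff i = 0 := by
    rw [two_smul]
    rcases Nat.even_or_odd i with a | a
    · rw [a.neg_one_pow, ((Nat.odd_add.1 hi).2 a).neg_one_pow] at e
      linear_combination e
    · rw [a.neg_one_pow, ((Nat.odd_add'.1 hi).1 a).neg_one_pow] at e
      linear_combination -e
  exact (smul_eq_zero.1 k).resolve_left two_ne_zero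

/-- the odd Chern classes of a complexification vanish -/
theorem cp_cx_odd (h : RB V r U) {i : ℕ} (hi : Odd (r + i)) : (cp (cx V) r U).coeff i = 0 := by
  exact Sg_odd (cp_cx_neg h) hi

end Pool.Agent.Work.MP_8c604c_gt.OT
end
end

-- merged part: Pool.Agent.Work.MP_8c604c_gt.OZ.S6
section
/-!
The Euler class of the tangent bundle along the fibres of a bundle of six-spheres (owner helper4).

Hints.  `rb_Tn`, `ori_Tn`: `rb_pc`, `ori_pc` for `X = Unit`, `P = fun _ => 1`, `U = univ`, composed with `a ↦ ((), a)`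
(`RB.comp`, `Ori.comp`), or directly.  `thR_neg`: `IsThomR.unique`, `thR_spec`, `sign_neg`.
`anti_ec`: `pull_thR` for the bundle map `(a, v) ↦ (-a, v)` from the orientation `-oc ω` (`Tn (-a) = Tn a`,
`oc ω (-a) = -oc ω a`), `thR_neg`, `pull_pull'`, `ok_secR`.
`gen_ec`: `ZB.excision_open`-type argument is not needed here: the map `j v = e + v` on `W = (ℝ ∙ e)ᗮ` (finrank 6) is a `ZB`
to the half space pair (`ZB.of_section` with `a ↦ orthogonalProjection W a / ⟪a, e⟫`, homotopy by positive scaling); the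
pull-back of `ecR` along `j` is the pull-back of `thR` along `v ↦ (e + v, Tn (e + v) e)`, and `Tn (e + v) e = -Tn (e + v) v`;
the homotopy `(e + t • v, -Tn (e + t • v) v)` (`pull_htpy'`) ends at `v ↦ (e, -v)`; `gen_thR_fib`, `Gen.of_pul`.
`dlt_eu`: `c₊ : H {0}ᶜ (ray e)` with the restriction `gen_ec` to the half space (`ZB.excision_open`, `Gen.of_pul`),
`c₋ = -pull neg c₊`; `sum_two` (T/CQ) with `anti_ec` gives `ec = c₊ + c₋`.  Forget supports (`fgt_ecR`): `g = fgt c₊` is a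
generator (`Gen.supp'`; the complement of a closed ray is star shaped about `-e`, `van_contr`), `dlt g` is a generator
(`gen_dlt`, `van_univ`), and `pull neg` is `-1` on it (`pull_dlt`, `pull_lin`, `LinearMap.det_smul`, finrank 7).
`gys_pc`: the Gysin image is `c • 1` (`g.span`, `gys_deg`, `isDeg_euR`); take `x ∈ U`, `A = LinearMap.range (P x)` with the
isometric inclusion `S`; pull `GysD.gys_spec` back along `a ↦ (x, S a)` (`pull_dlt`, `rcx_fib_cup` or `pull_cm`),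
`gen_thR_fib`, `pull_euR` for the bundle map `S` from `Tn` to `Pc P` with `ω = (o x).compContinuousLinearMap S`,
`dlt_eu`, `Gen.smul_inj`.
-/

noncomputable section

set_option linter.unusedSectionVars false

namespace Pool.Agent.Work.MP_8c604c_gt.OT

open Set Topology Pool.Agent.Work.MP_849ab0_ag.G T OS

theorem thR_neg {X A : Type} [TopologicalSpace X] [RegularSpace X] [SecondCountableTopology X]
    [NormedAddCommGroup A] [NormedSpace ℝ A] [FiniteDimensional ℝ A] {V : X → A →L[ℝ] A} {r : ℕ}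
    {U : Set X} {o : X → A [⋀^Fin r]→L[ℝ] ℝ} (h : RB V r U) (ho : Ori V r U o) :
    Ori V r U (fun x => -o x) ∧ thR V r U (fun x => -o x) = -thR V r U o := by
  have ho' : Ori V r U fun x => -o x :=
    ⟨ho.cont.neg, fun x hx b li hb => neg_ne_zero.2 (ho.ne x hx b li hb)⟩
  refine ⟨ho', (thR_spec h ho').unique ⟨(thR_spec h ho).1.neg, fun x hx T hT m => ?_⟩ h ho'⟩
  rw [map_neg, (thR_spec h ho).2 x hx T hT m, ContinuousAlternatingMap.neg_apply, Left.sign_neg,
    SignType.coe_neg, neg_smul]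

section Model

variable {A : Type} [NormedAddCommGroup A] [InnerProductSpace ℝ A] [FiniteDimensional ℝ A]

/-- the projector onto the orthogonal complement of `a` -/
def Tn (a : A) : A →L[ℝ] A := 1 - (‖a‖ ^ 2)⁻¹ • (innerSL ℝ a).smulRight a

/-- its orientation -/
def oc (ω : A [⋀^Fin 7]→L[ℝ] ℝ) (a : A) : A [⋀^Fin 6]→L[ℝ] ℝ := ω.curryLeft a

/-- the open ray -/
def ray (e : A) : Set A := {a | ∃ t : ℝ, 0 < t ∧ a = t • e}

variable (hA : Module.finrank ℝ A = 7) {ω : A [⋀^Fin 7]→L[ℝ] ℝ}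
  (hω : ∀ b : Fin 7 → A, LinearIndependent ℝ b → ω b ≠ 0) {e : A} (he : ‖e‖ = 1)

theorem S6_ap (a v : A) : Tn a v = v - ((‖a‖ ^ 2)⁻¹ * inner ℝ a v) • a := by
  rw [mul_smul]
  rfl

theorem S6_eq : (Tn : A → _) = fun a => Pc (fun _ : Unit => (1 : A →L[ℝ] A)) ((), a) :=
  funext fun _ => ContinuousLinearMap.ext fun _ => rfl

theorem S6_self {a : A} (ha : a ≠ 0) : Tn a a = 0 := by
  rw [S6_ap, real_inner_self_eq_norm_sq, inv_mul_cancel₀ (pow_ne_zero _ (norm_ne_zero_iff.2 ha)),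
    one_smul, sub_self]

theorem S6_fix {a v : A} (ha : a ≠ 0) : Tn a v = v ↔ inner ℝ a v = 0 := by
  rw [S6_ap, sub_eq_self, smul_eq_zero, mul_eq_zero, or_iff_left ha,
    or_iff_right (inv_ne_zero (pow_ne_zero _ (norm_ne_zero_iff.2 ha)))]

theorem S6_smul {t : ℝ} (ht : t ≠ 0) (a : A) : Tn (t • a) = Tn a := by
  refine ContinuousLinearMap.ext fun v => ?_
  rw [S6_ap, S6_ap, norm_smul, mul_pow, Real.norm_eq_abs, sq_abs, real_inner_smul_left, smul_smul]
  congr 2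
  by_cases h : ‖a‖ = 0
  · simp [h]
  · field_simp

theorem S6_neg (a : A) : Tn (-a) = Tn a := by
  rw [← neg_one_smul ℝ a, S6_smul (by norm_num)]

include hA in
theorem S6_one : RB (fun _ : Unit => (1 : A →L[ℝ] A)) (6 + 1) univ :=
  ⟨isOpen_univ.isLocallyClosed, continuousOn_const, fun _ _ _ => rfl, fun _ _ => by
    rw [show LinearMap.range ((1 : A →L[ℝ] A) : A →ₗ[ℝ] A) = ⊤ from LinearMap.range_id, finrank_top,
      hA]⟩

include hA in
theorem rb_Tn : RB (Tn : A → _) 6 {0}ᶜ := by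
  rw [S6_eq]
  exact (rb_pc (r := 6) (S6_one hA)).comp isOpen_compl_singleton.isLocallyClosed
    (Continuous.prodMk_right ()).continuousOn fun a ha => ⟨⟨trivial, rfl⟩, ha⟩

include hA hω in
theorem ori_Tn : Ori (Tn : A → _) 6 {0}ᶜ (oc ω) := by
  rw [S6_eq]
  exact (ori_pc (r := 6) (S6_one hA) (o := fun _ => ω)
    ⟨continuousOn_const, fun _ _ b li _ => hω b li⟩).comp
      (Continuous.prodMk_right ()).continuousOn fun a ha => ⟨⟨trivial, rfl⟩, ha⟩

include he in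
theorem S6_ne : e ≠ 0 := norm_ne_zero_iff.1 (he ▸ one_ne_zero)

include he in
theorem S6_ee : inner ℝ e e = (1 : ℝ) := by rw [real_inner_self_eq_norm_sq, he, one_pow]

include he in
theorem Tn_zero {a : A} (ha : a ≠ 0) : Tn a e = 0 ↔ a ∈ ray e ∪ ray (-e) := by
  refine ⟨fun h => ?_, ?_⟩
  · rw [S6_ap, sub_eq_zero] at h
    generalize (‖a‖ ^ 2)⁻¹ * inner ℝ a e = c at h
    rcases lt_trichotomy c 0 with k | k | k
    · exact .inr ⟨-c⁻¹, neg_pos.2 (inv_lt_zero.2 k), by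
        rw [neg_smul_neg, h, inv_smul_smul₀ k.ne]⟩
    · exact (S6_ne he (by rw [h, k, zero_smul])).elim
    · exact .inl ⟨c⁻¹, inv_pos.2 k, by rw [h, inv_smul_smul₀ k.ne']⟩
  · rintro (⟨t, ht, rfl⟩ | ⟨t, ht, rfl⟩)
    · rw [S6_smul ht.ne', S6_self (S6_ne he)]
    · rw [S6_smul ht.ne', S6_neg, S6_self (S6_ne he)]

include hA he in
theorem S6_sec : Ok (fun a : A => (a, Tn a e)) {0}ᶜ (ray e ∪ ray (-e)) (totR Tn {0}ᶜ) (zs A A) :=
  ok_secR (rb_Tn hA).lc ((rb_Tn hA).cont.clm_apply continuousOn_const)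
    (fun a ha => (rb_Tn hA).idem a ha e) fun _ ha => (Tn_zero he ha).1

theorem S6_rn {a : A} : -a ∈ ray e → a ∈ ray (-e) := fun ⟨t, ht, k⟩ =>
  ⟨t, ht, by rw [smul_neg, ← k, neg_neg]⟩

theorem S6_rn' {a : A} (h : -a ∈ ray (-e)) : a ∈ ray e := neg_neg e ▸ S6_rn h

theorem S6_okn {U Z Z' : Set A} (h1 : U ⊆ {0}ᶜ) (h2 : ∀ a ∈ U, -a ∈ Z' → a ∈ Z) :
    Ok (fun a : A => -a) U Z {0}ᶜ Z' :=
  .of_mem (.of_continuous continuous_neg _) (fun _ ha => neg_ne_zero.2 (h1 ha)) h2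

include he in
theorem S6_pos {a : A} (h : a ∈ ray e) : 0 < inner ℝ e a := by
  obtain ⟨t, ht, rfl⟩ := h
  rwa [real_inner_smul_right, S6_ee he, mul_one]

include he in
theorem S6_neg' {a : A} (h : a ∈ ray (-e)) : inner ℝ e a < (0 : ℝ) := by
  have := S6_pos ((norm_neg e).trans he) h
  rwa [inner_neg_left, neg_pos] at this

include he in
theorem S6_half {a : A} (h : 0 < inner ℝ e a) (k : a ∈ ray e ∪ ray (-e)) : a ∈ ray e :=
  k.resolve_right fun l => (S6_neg' he l).not_gt h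

include hA hω he in
theorem anti_ec : pull (fun a : A => -a) {0}ᶜ (ray e ∪ ray (-e))
    (ecR Tn 6 (oc ω) (fun a => Tn a e) {0}ᶜ (ray e ∪ ray (-e))) =
      -ecR Tn 6 (oc ω) (fun a => Tn a e) {0}ᶜ (ray e ∪ ray (-e)) := by
  have h := rb_Tn hA
  have ho := ori_Tn hA hω
  have o1 := S6_sec hA he
  have b : BMap (Tn : A → _) {0}ᶜ Tn {0}ᶜ (fun a => -a) fun _ => 1 :=
    ⟨continuous_neg.continuousOn, fun a ha => neg_ne_zero.2 ha, continuousOn_const,
      fun a _ v k => by rw [S6_neg]; exact k, fun _ _ _ _ k => k⟩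
  have k := pull_thR h ho h (thR_neg h ho).1 b fun y _ c _ => by
    rw [oc, map_neg]
    rfl
  rw [(thR_neg h ho).2] at k
  rw [ecR, ← map_neg, ← k, pull_pull' o1 (b.ok h.lc) fun _ _ => rfl]
  refine pull_pull' (S6_okn (fun _ k => k) fun a _ k => ?_) o1 (fun a _ => by rw [S6_neg]; rfl) _
  exact k.symm.imp S6_rn' S6_rn

include hA hω he in
theorem gen_ec : Gen 6 (pull id ({0}ᶜ ∩ {a | 0 < inner ℝ e a}) (ray e)
    (ecR Tn 6 (oc ω) (fun a => Tn a e) {0}ᶜ (ray e ∪ ray (-e)))) := by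
  have h := rb_Tn hA
  have h0 : e ∈ ({0}ᶜ : Set A) := S6_ne he
  let W := LinearMap.range (Tn e : A →ₗ[ℝ] A)
  have hW (v : W) : Tn e v = v := (h.mem_range h0).1 v.2
  have h1 (v : W) (t : ℝ) : inner ℝ e (e + t • (v : A)) = (1 : ℝ) := by
    rw [inner_add_right, real_inner_smul_right, (S6_fix h0).1 (hW v), S6_ee he, mul_zero, add_zero]
  have h2 (v : W) (t : ℝ) : e + t • (v : A) ≠ 0 := fun k => by simpa [k] using h1 v t
  have h3 (v : W) (t : ℝ) (k : Tn (e + t • (v : A)) v = 0) : v = 0 := by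
    rw [S6_ap, sub_eq_zero] at k
    have k' := congrArg (inner ℝ e) k
    rw [real_inner_smul_right, h1, mul_one, (S6_fix h0).1 (hW v)] at k'
    rw [← k', zero_smul] at k
    exact Subtype.ext k
  have h4 (v : W) : Tn (e + 1 • (v : A)) e = -Tn (e + (1 : ℝ) • (v : A)) v := by
    have k := S6_self (h2 v 1)
    rw [map_add, map_smul] at k
    simpa only [one_smul] using eq_neg_of_add_eq_zero_left k
  have h5 (v : W) (k : e + (1 : ℝ) • (v : A) ∈ ray e ∪ ray (-e)) : v = 0 := by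
    refine h3 v 1 (neg_eq_zero.1 ((h4 v).symm.trans ?_))
    simpa only [one_smul] using (Tn_zero he (h2 v 1)).2 k
  have cj : Continuous fun v : W => e + (1 : ℝ) • (v : A) := by fun_prop
  have oj : Ok (fun v : W => e + (1 : ℝ) • (v : A)) univ {0} ({0}ᶜ ∩ {a | 0 < inner ℝ e a})
      (ray e) := .of_mem (.of_continuous cj _)
    (fun v _ => ⟨h2 v 1, one_pos.trans_eq (h1 v 1).symm⟩) fun v _ k => h5 v (.inl k)
  let q : A →L[ℝ] W := (Tn e).codRestrict W fun a => ⟨a, rfl⟩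
  have hq (a : A) : (q a : A) = a - inner ℝ e a • e := by
    change Tn e a = _
    rw [S6_ap, he, one_pow, inv_one, one_mul]
  have ci : Continuous fun a : A => inner ℝ e a := by fun_prop
  have zq : ZB (fun a => (inner ℝ e a)⁻¹ • q a) ({0}ᶜ ∩ {a | 0 < inner ℝ e a}) (ray e) univ {0} := by
    have hp {a : A} (ha : 0 < inner ℝ e a) {t : ℝ} (ht : t ∈ Icc (0 : ℝ) 1) :
        0 < (1 - t) * (inner ℝ e a)⁻¹ + t := by
      have := inv_pos.2 ha
      rcases ht.1.eq_or_lt with rfl | k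
      · simpa
      · exact add_pos_of_nonneg_of_pos (mul_nonneg (sub_nonneg.2 ht.2) this.le) k
    refine .of_section (.of_mem (.of_continuousAt fun a ha =>
      (ci.continuousAt.inv₀ (ne_of_gt ha.2)).smul q.continuous.continuousAt) (fun _ _ => trivial)
      fun a ha k => ⟨_, ha.2, ?_⟩) oj (fun v _ => Subtype.ext ?_)
      (F := fun z => ((1 - z.2) * (inner ℝ e z.1)⁻¹ + z.2) • z.1)
      (.of_continuousAt fun z hz => ?_) (fun a ha t ht => ⟨smul_ne_zero (hp ha.2 ht).ne' ha.1, ?_⟩)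
      (fun a ha t ht ⟨u, hu, k⟩ => ⟨_, mul_pos (inv_pos.2 (hp ha.2 ht)) hu, ?_⟩) (fun a ha => ?_)
      fun a _ => by simp
    · have k' := (smul_eq_zero.1 k).resolve_left (inv_ne_zero (ne_of_gt ha.2))
      rw [← sub_eq_zero, ← hq, k']
      rfl
    · rw [Submodule.coe_smul, hq, h1]
      simp
    · have := ((ci.comp continuous_fst).continuousAt (x := z)).inv₀ (ne_of_gt hz.1.2)
      exact (((continuous_const.sub continuous_snd).continuousAt.mul this).add
        continuousAt_snd).smul continuousAt_fst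
    · change 0 < inner ℝ e (_ • a)
      rw [real_inner_smul_right]
      exact mul_pos (hp ha.2 ht) ha.2
    · rw [mul_smul, ← k, inv_smul_smul₀ (hp ha.2 ht).ne']
    · rw [Submodule.coe_smul, hq, one_smul, smul_sub, inv_smul_smul₀ (ne_of_gt ha.2)]
      simp
  refine .of_pul ?_ (.of_comp_right oj zq .refl fun v _ => Subtype.ext ?_)
  · have oj' : Ok (fun v : W => e + (1 : ℝ) • (v : A)) univ {0} {0}ᶜ (ray e ∪ ray (-e)) :=
      .of_mem (.of_continuous cj _) (fun v _ => h2 v 1) fun v _ => h5 v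
    have cG : Continuous fun z : W × ℝ => e + z.2 • (z.1 : A) := by fun_prop
    rw [pull_res oj inter_subset_left fun a ha => S6_half he ha.2, ecR,
      pull_pull' oj' (S6_sec hA he) fun _ _ => rfl,
      ← pull_htpy' (U := univ) (Z := {0}) (U' := totR Tn {0}ᶜ) (Z' := zs A A)
        (f := fun v : W => (e, (-W.subtype) v))
        (g := fun v : W => (e + (1 : ℝ) • (v : A), Tn (e + (1 : ℝ) • (v : A)) e))
        (F := fun z : W × ℝ => (e + z.2 • (z.1 : A), -Tn (e + z.2 • (z.1 : A)) z.1))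
        (.of_continuous (cG.prodMk ((h.cont.comp_continuous cG fun z => h2 z.1 z.2).clm_apply
          (continuous_subtype_val.comp continuous_fst)).neg) _)
        (fun v _ t _ => ⟨h2 v t, by
          change Tn _ (-_) = _
          rw [map_neg, h.idem _ (h2 v t)]⟩)
        (fun v _ t _ k => h3 v t (neg_eq_zero.1 k)) (fun v _ => by simp [hW])
        fun v _ => Prod.ext rfl (by simpa only [one_smul] using (h4 v).symm)]
    exact gen_thR_fib h (ori_Tn hA hω) h0 (h.rank e h0)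
      (neg_injective.comp Subtype.val_injective) fun v => by simp [hW]
  · rw [Submodule.coe_smul, hq, h1]
    simp

include he in
theorem S6_cl : Cl ({0}ᶜ : Set A) (ray e) := by
  have ci : Continuous fun a : A => inner ℝ e a := by fun_prop
  have cl : IsClosed ({a : A | a = inner ℝ e a • e} ∩ {a | 0 ≤ inner ℝ e a}) :=
    (isClosed_eq continuous_id (ci.smul continuous_const)).inter (isClosed_le continuous_const ci)
  refine (Cl.of_isClosed cl _).congr fun a ha => ⟨fun k => ⟨_, lt_of_le_of_ne k.2 fun l => ha ?_,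
    k.1⟩, fun k => ⟨?_, (S6_pos he k).le⟩⟩
  · exact k.1.trans (by rw [← l, zero_smul])
  · obtain ⟨t, -, rfl⟩ := k
    rw [mem_ofPred_eq, real_inner_smul_right, S6_ee he, mul_one]

include he in
theorem S6_van {d : ℤ} (hd : d ≠ 0) : Van d (({0}ᶜ : Set A) \ ray e) univ := by
  have k (a : A) : a ∈ ({0}ᶜ : Set A) \ ray e ↔ ∀ s : ℝ, 0 ≤ s → a ≠ s • e := by
    refine ⟨fun h s hs l => ?_, fun h => ⟨fun l => h 0 le_rfl (l.trans (zero_smul _ _).symm),
      fun ⟨s, hs, l⟩ => h s hs.le l⟩⟩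
    rcases hs.eq_or_lt with rfl | hs
    exacts [h.1 (l.trans (zero_smul _ _)), h.2 ⟨s, hs, l⟩]
  have h0 : -e ∈ ({0}ᶜ : Set A) \ ray e := ⟨neg_ne_zero.2 (S6_ne he), fun l => by
    have := S6_pos he l
    rw [inner_neg_right, S6_ee he] at this
    linarith⟩
  refine van_contr (F := fun z => z.2 • z.1 - (1 - z.2) • e) (.of_continuous (by fun_prop) _)
    (fun a ha t ht => ?_) h0 (fun _ _ => by simp) (fun _ _ => by simp) hd
  rcases ht.1.eq_or_lt with rfl | h1
  · simpa using h0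
  refine (k _).2 fun s hs l => (k a).1 ha (t⁻¹ * (s + (1 - t)))
    (mul_nonneg (inv_pos.2 h1).le (add_nonneg hs (sub_nonneg.2 ht.2))) ?_
  rw [mul_smul, add_smul, ← sub_eq_iff_eq_add.1 l, inv_smul_smul₀ h1.ne']

include hA hω in
theorem dlt_eu {g : H (univ : Set A) {0}} (hg : Gen 7 g) : ∃ s : ℤ, (s = 1 ∨ s = -1) ∧
    dlt univ {0} (euR Tn 6 (oc ω) {0}ᶜ) = (2 * s : ℂ) • g := by
  have : Nontrivial A := Module.nontrivial_of_finrank_pos (R := ℝ) (by omega)
  obtain ⟨e, he⟩ := exists_norm_eq A zero_le_one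
  have h := rb_Tn hA
  have ci : Continuous fun a : A => inner ℝ e a := by fun_prop
  have o1 : IsOpen {a : A | 0 < inner ℝ e a} := isOpen_lt continuous_const ci
  have o2 : IsOpen {a : A | inner ℝ e a < (0 : ℝ)} := isOpen_lt ci continuous_const
  obtain ⟨c, hc, ec⟩ := (gen_ec hA hω he).exists_pul
    (.excision_open o1 (S6_cl he) fun _ _ => S6_pos he)
  have n1 : Ok (fun a : A => -a) {0}ᶜ (ray (-e)) {0}ᶜ (ray e) :=
    S6_okn subset_rfl fun _ _ => S6_rn
  have n2 : Ok (fun a : A => -a) ({0}ᶜ ∩ {a | inner ℝ e a < (0 : ℝ)}) (ray (-e))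
      ({0}ᶜ ∩ {a | 0 < inner ℝ e a}) (ray e) :=
    .of_mem (n1.ext.mono inter_subset_left) (fun a ha => ⟨neg_ne_zero.2 ha.1, by
      change 0 < inner ℝ e (-a)
      rw [inner_neg_right]
      exact neg_pos.2 ha.2⟩) fun _ _ => S6_rn
  have n3 : Ok (fun a : A => -a) {0}ᶜ (ray e ∪ ray (-e)) {0}ᶜ (ray e ∪ ray (-e)) :=
    S6_okn subset_rfl fun _ _ k => k.symm.imp S6_rn' S6_rn
  have l2 : ∀ a ∈ ({0}ᶜ : Set A) ∩ {a | inner ℝ e a < (0 : ℝ)}, a ∈ ray e ∪ ray (-e) →
      a ∈ ray (-e) := fun a ha k => k.resolve_left fun l => (S6_pos he l).not_gt ha.2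
  have e1 := sum_two (W := ray e ∪ ray (-e)) (S6_cl he) (S6_cl ((norm_neg e).trans he)) o1 o2
    (fun a _ k => ⟨S6_pos he k, (S6_pos he k).not_gt⟩)
    (fun a _ k => ⟨S6_neg' he k, (S6_neg' he k).not_gt⟩) (fun _ _ => Iff.rfl) ec.symm
    (a₂ := -pull (fun a : A => -a) {0}ᶜ (ray (-e)) c) (by
      rw [map_neg, res_pull n1 inter_subset_left fun _ _ k => k,
        ← pull_res n2 inter_subset_left fun _ _ k => k, ec,
        pull_res n2 inter_subset_left fun a ha => S6_half he ha.2,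
        ← res_pull n3 inter_subset_left l2, anti_ec hA hω he, map_neg, neg_neg])
  have e2 := fgt_ecR (r := 6) (o := oc ω) h.lc (h.cont.clm_apply continuousOn_const)
    (fun a ha => h.idem a ha e) fun _ ha => (Tn_zero he ha).1
  have n4 : Ok (fun a : A => -a) {0}ᶜ univ {0}ᶜ univ := Ok.top n1
  rw [e1, map_add, map_neg, map_neg, pull_res (ok_fgt subset_rfl) subset_rfl fun _ _ => .inl,
    pull_res (ok_fgt subset_rfl) subset_rfl fun _ _ => .inr,
    res_pull (W₁ := univ) n1 subset_rfl fun _ _ _ => trivial,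
    ← pull_res n4 subset_rfl fun _ _ _ => trivial] at e2
  have g0 := hc.supp' rfl GysD.aux (S6_van he (by norm_num)) (S6_van he (by norm_num))
  have vu {d : ℤ} (hd : d ≠ 0) : Van d (univ : Set A) univ :=
    van_contr (F := fun z => z.2 • z.1) (.of_continuous (by fun_prop) _) (fun _ _ _ _ => trivial)
      (mem_univ 0) (fun _ _ => zero_smul _ _) (fun _ _ => one_smul _ _) hd
  obtain ⟨s, hs, e3⟩ := hg.eq_sign (gen_dlt (compl_eq_univ_sdiff _).symm (by simp) g0
    (vu (by norm_num)) (vu (by norm_num)))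
  have i1 : Function.Injective (-LinearMap.id : A →ₗ[ℝ] A) := neg_injective
  have e4 := pull_lin i1 (dlt univ {0} (pull id {0}ᶜ univ c))
  rw [pull_dlt (ok_lin i1).ext subset_rfl (subset_univ _) (ok_lin i1) n4 (fun _ k => k.2)
    fun _ k => k.2, show SignType.sign (LinearMap.det (-LinearMap.id : A →ₗ[ℝ] A)) = -1 by
      rw [← neg_one_smul ℝ LinearMap.id, LinearMap.det_smul, hA, LinearMap.det_id]
      norm_num] at e4
  refine ⟨s, hs, ?_⟩
  rw [← e2, map_add, map_neg]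
  refine (congrArg (fun x => dlt univ {0} (pull id {0}ᶜ univ c) + -x) e4).trans ?_
  rw [e3]
  simp only [SignType.coe_neg, SignType.coe_one]
  module

end Model

variable {X V : Type} [TopologicalSpace X] [RegularSpace X] [SecondCountableTopology X]
  [NormedAddCommGroup V] [InnerProductSpace ℝ V] [FiniteDimensional ℝ V] {U : Set X}
  {P : X → V →L[ℝ] V} {o : X → V [⋀^Fin 7]→L[ℝ] ℝ}

theorem gys_pc (h : RB P 7 U) (ho : Ori P 7 U o) (g : Gen 0 (1 : H U univ)) :
    ∃ s : ℤ, (s = 1 ∨ s = -1) ∧ (gysD_thR h ho).gys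
      (euR (Pc P) 6 (fun z => (o z.1).curryLeft z.2) (totR P U \ zs X V)) = (2 * s : ℂ) • 1 := by
  have G := gysD_thR h ho
  have hc := rb_pc (r := 6) h
  have oc' := ori_pc (r := 6) h ho
  obtain ⟨t, ht⟩ := g.span _ (G.gys_deg (p := 0) (isDeg_euR hc oc') (by norm_num))
  obtain ⟨x, hx⟩ : U.Nonempty := nonempty_iff_ne_empty.2 fun k => g.ne
    ((subsingleton_H (k ▸ empty_disjoint _)).elim _ _)
  let A := LinearMap.range (P x : V →ₗ[ℝ] V)
  have hA : Module.finrank ℝ A = 7 := h.rank x hx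
  have m (v : A) : P x (A.subtype v) = A.subtype v := (h.mem_range hx).1 v.2
  have hω : ∀ b : Fin 7 → A, LinearIndependent ℝ b →
      (o x).compContinuousLinearMap A.subtypeL b ≠ 0 := fun b li =>
    ho.ne x hx _ (li.map' A.subtype A.ker_subtype) fun i => m _
  have ok := ok_fibR hx A.injective_subtype m
  have g' := gen_thR_fib h ho hx hA A.injective_subtype m
  obtain ⟨s, hs, e⟩ := dlt_eu hA hω g'
  have mf : MapsTo (fun v : A => (x, A.subtype v)) {0}ᶜ (totR P U \ zs X V) := fun v hv =>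
    ⟨⟨hx, m v⟩, fun k => hv (Subtype.ext k)⟩
  have cf : Continuous fun v : A => (x, A.subtype v) :=
    continuous_const.prodMk continuous_subtype_val
  have b : BMap (Tn : A → _) {0}ᶜ (Pc P) (totR P U \ zs X V) (fun v => (x, A.subtype v))
      fun _ => A.subtypeL :=
    ⟨cf.continuousOn, mf, continuousOn_const, fun y hy a ha => (pc_fix (r := 6) h (mf hy)).2
      ⟨m a, by
        have k : inner ℝ (y : V) (a : V) = (0 : ℝ) := (S6_fix hy).1 ha
        rw [St2_ln]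
        exact smul_eq_zero_of_left (mul_eq_zero_of_right _ k) _⟩,
      fun _ _ _ _ k => Subtype.ext k⟩
  have e1 := pull_euR hc oc' (rb_Tn hA) (ori_Tn hA hω) b fun y _ c _ => by
    rw [oc, ContinuousAlternatingMap.curryLeft_apply_apply,
      ContinuousAlternatingMap.curryLeft_apply_apply,
      ContinuousAlternatingMap.compContinuousLinearMap_apply]
    exact congrArg (fun w => SignType.sign (o x w)) (funext fun i => Fin.cases rfl (fun _ => rfl) i)
  have e2 := congrArg (pull (fun v : A => (x, A.subtype v)) univ {0}) (G.gys_spec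
    (euR (Pc P) 6 (fun z => (o z.1).curryLeft z.2) (totR P U \ zs X V)))
  rw [ht, map_smul, pull_oneH G.ok, map_smul, LinearMap.smul_apply, cm_one, map_smul,
    pull_dlt (Z₁ := univ) ok.ext subset_rfl (subset_univ _) ok
      (.of_mem (.of_continuous cf _) mf fun _ _ _ => trivial) (fun _ k => k.2) subset_rfl,
    e1, e] at e2
  exact ⟨s, hs, by rw [ht, g'.smul_inj e2]⟩

end Pool.Agent.Work.MP_8c604c_gt.OT
end
end
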