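import Mathlib

/-!
The arithmetic at the end of the volume bound (owner helper4).

Hints.  `alg_core`: put `C = 6 + 4 β`, `b = 510 α + 170 β ^ 2 - 32 η C β`, `L = α (4095 η β - 768 C)`; then
`b ^ 2 - 16 C L = (b - 8 C c) ^ 2` is a square.  Four cases of signs.  For `3000 ≤ |β|` it lies strictly between
`(b + k) ^ 2` and `(b + k + 1) ^ 2` with `0 ≤ b + k`, where `k = -780, 769, 779, -770` for
`(α, η) = (1, 1), (1, -1), (-1, 1), (-1, -1)` (the differences are quadratic polynomials in `β`; `nlinarith`,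
`abs_lt_abs`, `sq_lt_sq'`, `pow_lt_pow_left₀`).  For `|β| < 3000`, `β ≠ 6`: a Boolean test over `List.range 6000`
checked by `decide +kernel`: the number is negative or lies strictly between `n ^ 2` and `(n + 1) ^ 2`, where `n` is
computed by a binary search with fuel (structural recursion on the fuel; no correctness proof of the search is
needed).
`alg_eq`: `ν = 0` forces `β ^ 2 = -3 α`, impossible in `ℤ`.  Otherwise put `τ' = ± τ` with `ν τ' = 4 τ`, eliminate `A`: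
`c (τ' (510 α + 170 β ^ 2) - 4 C c - 32 s C β) + 768 C α = 4095 s τ' α β` (`linear_combination`, `exact_mod_cast`), and
apply `alg_core` to `β' = s₁ s₂ β`, `c' = τ' s₁ c`, `η = τ' s s₂`.
`alg_num`: `α ^ 2 N = R (3 α + β ^ 2)`; `α` divides `2`; `α = ± 2` is impossible modulo `4`.
`alg_last`: `alg_num`; `T = -α β R`, `R = ± 2`; solve for `l₁ = ρ α β / 3`, `l₂ = ρ (α + β ^ 2 / 3)` with `ρ = ± 1`; `alg_eq`
with `τ = s₀ ρ`.
-/

namespace Pool.Agent.Work.MP_8c604c_gt.OZ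

/-- evaluate the number first -/
def Alg_force (n : ℕ) (k : ℕ → ℕ) : ℕ := Nat.rec (k 0) (fun m _ => k m.succ) n

/-- binary search for a square root -/
def Alg_bs (D : ℕ) (f : ℕ) : ℕ → ℕ → ℕ :=
  Nat.rec (fun lo _ => lo) (fun _ ih lo hi => Alg_force (Nat.div (Nat.add lo hi) 2) fun m =>
    Bool.rec (ih lo m) (ih m hi) (Nat.ble (Nat.mul m m) D)) f

/-- the discriminant -/
def Alg_D (α η β : ℤ) : ℤ :=
  (510 * α + 170 * β ^ 2 - 32 * η * (6 + 4 * β) * β) ^ 2 -
    16 * (6 + 4 * β) * (α * (4095 * η * β - 768 * (6 + 4 * β)))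

/-- a quartic polynomial -/
def Alg_P (a b c d e x : ℤ) : ℤ :=
  Int.add a (Int.mul x (Int.add b (Int.mul x (Int.add c (Int.mul x (Int.add d (Int.mul x e)))))))

/-- between two squares -/
def Alg_bt (d n : ℕ) : Bool :=
  Nat.ble (Nat.succ (Nat.mul n n)) d && Nat.ble (Nat.succ d) (Nat.mul (Nat.succ n) (Nat.succ n))

/-- test of one number -/
noncomputable def Alg_ns (D : ℤ) : Bool :=
  Int.rec (fun d => Alg_bt d (Alg_bs d 32 0 4294967296)) (fun _ => true) D

/-- test of a range -/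
noncomputable def Alg_ok (a b c d e : ℤ) : Bool :=
  (List.range 6000).all fun i => Nat.beq i 3006 || Alg_ns (Alg_P a b c d e (Int.subNatNat i 3000))

theorem Alg_ok1 : Alg_ok 702468 864 14232 (-16128) 1764 = true := by
  decide +kernel
theorem Alg_ok2 : Alg_ok 702468 1178784 799512 114432 88804 = true := by
  decide +kernel
theorem Alg_ok3 : Alg_ok (-182268) (-864) 59496 (-16128) 1764 = true := by
  decide +kernel
theorem Alg_ok4 : Alg_ok (-182268) (-1178784) (-725784) 114432 88804 = true := by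
  decide +kernel

theorem Alg_nsq {y n : ℤ} (h0 : 0 ≤ n) (h1 : n ^ 2 < y ^ 2) (h2 : y ^ 2 < (n + 1) ^ 2) : False := by
  have a := sq_lt_sq.1 h1
  have b := sq_lt_sq.1 h2
  rw [abs_of_nonneg h0] at a
  rw [abs_of_nonneg (by omega : 0 ≤ n + 1)] at b
  omega

theorem Alg_small {a b c d e β y : ℤ} (ok : Alg_ok a b c d e = true)
    (h : y ^ 2 = a + β * (b + β * (c + β * (d + β * e)))) (h1 : -3000 < β) (h2 : β < 3000) :
    β = 6 := by
  have hm : (β + 3000).toNat ∈ List.range 6000 := List.mem_range.2 (by omega)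
  have h3 := List.all_eq_true.1 ok _ hm
  have e' : Int.subNatNat (β + 3000).toNat 3000 = β := by
    rw [Int.subNatNat_eq_coe]
    omega
  have h4 : Alg_P a b c d e β = y ^ 2 := h.symm
  rw [e', h4, Bool.or_eq_true] at h3
  rcases h3 with h3 | h3
  · have := Nat.eq_of_beq_eq_true h3
    omega
  · exfalso
    obtain ⟨m, hm⟩ := Int.eq_ofNat_of_zero_le (sq_nonneg y)
    rw [hm] at h3
    have h5 : Alg_bt m (Alg_bs m 32 0 4294967296) = true := h3
    generalize Alg_bs m 32 0 4294967296 = n at h5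
    rw [Alg_bt, Bool.and_eq_true] at h5
    have h6 : n * n + 1 ≤ m := Nat.le_of_ble_eq_true h5.1
    have h7 : m + 1 ≤ (n + 1) * (n + 1) := Nat.le_of_ble_eq_true h5.2
    refine Alg_nsq (y := y) (n := n) (Int.natCast_nonneg _) ?_ ?_
    · rw [hm, sq]
      exact_mod_cast h6
    · rw [hm, sq]
      exact_mod_cast h7

theorem alg_core {α η β c : ℤ} (hα : α = 1 ∨ α = -1) (hη : η = 1 ∨ η = -1)
    (h : c * (510 * α + 170 * β ^ 2 - 32 * η * (6 + 4 * β) * β - 4 * (6 + 4 * β) * c) =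
      α * (4095 * η * β - 768 * (6 + 4 * β))) : β = 6 := by
  have hy : (510 * α + 170 * β ^ 2 - 32 * η * (6 + 4 * β) * β - 8 * (6 + 4 * β) * c) ^ 2 =
      Alg_D α η β := by
    unfold Alg_D
    linear_combination (-16 * (6 + 4 * β)) * h
  generalize 510 * α + 170 * β ^ 2 - 32 * η * (6 + 4 * β) * β - 8 * (6 + 4 * β) * c = y at hy
  by_cases hb : -3000 < β ∧ β < 3000
  · rcases hα with rfl | rfl <;> rcases hη with rfl | rfl
    · exact Alg_small (y := y) Alg_ok1 (by rw [hy, Alg_D]; ring) hb.1 hb.2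
    · exact Alg_small (y := y) Alg_ok2 (by rw [hy, Alg_D]; ring) hb.1 hb.2
    · exact Alg_small (y := y) Alg_ok3 (by rw [hy, Alg_D]; ring) hb.1 hb.2
    · exact Alg_small (y := y) Alg_ok4 (by rw [hy, Alg_D]; ring) hb.1 hb.2
  · exfalso
    have hq : 3000 * β ≤ β ^ 2 ∧ -3000 * β ≤ β ^ 2 ∧ 9000000 ≤ β ^ 2 := by
      rcases le_or_gt β (-3000) with h1 | h1
      · refine ⟨?_, ?_, ?_⟩ <;> nlinarith
      · have h2 : 3000 ≤ β := by omega
        refine ⟨?_, ?_, ?_⟩ <;> nlinarith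
    obtain ⟨q1, q2, q3⟩ := hq
    unfold Alg_D at hy
    rcases hα with rfl | rfl <;> rcases hη with rfl | rfl
    · exact Alg_nsq (y := y) (n := 42 * β ^ 2 - 192 * β - 270) (by linarith) (by nlinarith)
        (by nlinarith)
    · exact Alg_nsq (y := y) (n := 298 * β ^ 2 + 192 * β + 1279) (by linarith) (by nlinarith)
        (by nlinarith)
    · exact Alg_nsq (y := y) (n := 42 * β ^ 2 - 192 * β + 269) (by linarith) (by nlinarith)
        (by nlinarith)
    · exact Alg_nsq (y := y) (n := 298 * β ^ 2 + 192 * β - 1280) (by linarith) (by nlinarith)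
        (by nlinarith)

theorem Alg_eq4 {α β c s s₁ s₂ τ : ℤ} {A : ℂ} (hα : α = 1 ∨ α = -1) (hs : s = 1 ∨ s = -1)
    (h₁ : s₁ = 1 ∨ s₁ = -1) (h₂ : s₂ = 1 ∨ s₂ = -1) (hτ : τ = 1 ∨ τ = -1)
    (e₁ : 4 * (A * c + 128 * s * (6 * s₁ + 4 * s₂ * β) * α) = τ * (2730 * α * β))
    (e₂ : 4 * (3 / 2 * s * A + (6 * s₁ + 4 * s₂ * β) * c + 8 * s * (6 * s₁ + 4 * s₂ * β) * β) =
      τ * (510 * α + 170 * β ^ 2)) : β = 6 ∨ β = -6 := by
  have e : (c : ℂ) * (τ * (510 * α + 170 * β ^ 2) - 4 * (6 * s₁ + 4 * s₂ * β) * c -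
      32 * s * (6 * s₁ + 4 * s₂ * β) * β) + 768 * s * s * (6 * s₁ + 4 * s₂ * β) * α =
      4095 * s * τ * α * β := by
    linear_combination (3 / 2 * s) * e₁ - c * e₂
  have e' : c * (τ * (510 * α + 170 * β ^ 2) - 4 * (6 * s₁ + 4 * s₂ * β) * c -
      32 * s * (6 * s₁ + 4 * s₂ * β) * β) + 768 * s * s * (6 * s₁ + 4 * s₂ * β) * α =
      4095 * s * τ * α * β := by exact_mod_cast e
  have h : s₁ * s₂ * β = 6 := by
    refine alg_core (α := α) (η := τ * s * s₂) (c := τ * s₁ * c) hα ?_ ?_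
    · rcases hτ with rfl | rfl <;> rcases hs with rfl | rfl <;> rcases h₂ with rfl | rfl <;> simp
    · rcases hτ with rfl | rfl <;> rcases hs with rfl | rfl <;> rcases h₁ with rfl | rfl <;>
        rcases h₂ with rfl | rfl <;> first | linear_combination e' | linear_combination -e'
  rcases h₁ with rfl | rfl <;> rcases h₂ with rfl | rfl <;> omega

theorem alg_eq {α β c s s₁ s₂ τ : ℤ} {A ν : ℂ} (hα : α = 1 ∨ α = -1) (hs : s = 1 ∨ s = -1)
    (h₁ : s₁ = 1 ∨ s₁ = -1) (h₂ : s₂ = 1 ∨ s₂ = -1) (hτ : τ = 1 ∨ τ = -1)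
    (hν : ν = 0 ∨ ν = 4 ∨ ν = -4)
    (e₁ : ν * (A * c + 128 * s * (6 * s₁ + 4 * s₂ * β) * α) = τ * (2730 * α * β))
    (e₂ : ν * (3 / 2 * s * A + (6 * s₁ + 4 * s₂ * β) * c + 8 * s * (6 * s₁ + 4 * s₂ * β) * β) =
      τ * (510 * α + 170 * β ^ 2)) : β = 6 ∨ β = -6 := by
  rcases hν with rfl | rfl | rfl
  · exfalso
    have e : (τ : ℂ) * (510 * α + 170 * β ^ 2) = 0 := by linear_combination -e₂
    have e' : τ * (510 * α + 170 * β ^ 2) = 0 := by exact_mod_cast e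
    have h3 : β ^ 2 = -3 * α := by rcases hτ with rfl | rfl <;> linarith
    rcases hα with rfl | rfl
    · nlinarith [sq_nonneg β]
    · exact Alg_nsq (y := β) (n := 1) (by norm_num) (by linarith) (by linarith)
  · exact Alg_eq4 hα hs h₁ h₂ hτ e₁ e₂
  · refine Alg_eq4 (c := c) (A := A) (τ := -τ) hα hs h₁ h₂ (by omega) ?_ ?_
    · push_cast
      linear_combination -e₁
    · push_cast
      linear_combination -e₂

theorem alg_num {α β N T R : ℤ} (hβ : Even β) (h : α * R = 2 ∨ α * R = -2)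
    (e₁ : 3 * R = α * N + β * T) (e₂ : α * T + β * R = 0) :
    (α = 1 ∨ α = -1) ∧ N = R * (3 * α + β ^ 2) := by
  have e : α ^ 2 * N = R * (3 * α + β ^ 2) := by linear_combination (-α) * e₁ - β * e₂
  have hd : α ∣ 2 := by
    rcases h with h | h
    · exact ⟨R, h.symm⟩
    · exact ⟨-R, by linarith⟩
  have h1 : α ≤ 2 := Int.le_of_dvd (by norm_num) hd
  have h2 : -α ≤ 2 := Int.le_of_dvd (by norm_num) (neg_dvd.2 hd)
  obtain ⟨b, rfl⟩ := hβ
  have hsq : (b + b) ^ 2 = 4 * b ^ 2 := by ring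
  have h3 : -2 ≤ α := by omega
  rw [hsq] at e ⊢
  generalize b ^ 2 = q at e ⊢
  interval_cases α
  · exfalso
    have : R = 1 ∨ R = -1 := by omega
    rcases this with rfl | rfl <;> omega
  · exact ⟨Or.inr rfl, by linarith⟩
  · omega
  · exact ⟨Or.inl rfl, by linarith⟩
  · exfalso
    have : R = 1 ∨ R = -1 := by omega
    rcases this with rfl | rfl <;> omega

theorem alg_last {α β N T R c s₀ s s₁ s₂ : ℤ} {A ν l₁ l₂ : ℂ} (hβ : Even β)
    (h : α * R = 2 ∨ α * R = -2) (e₁ : 3 * R = α * N + β * T) (e₂ : α * T + β * R = 0)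
    (e₃ : l₁ * N + l₂ * T = 0) (e₄ : l₁ * T + l₂ * R = 2 ∨ l₁ * T + l₂ * R = -2)
    (h₀ : s₀ = 1 ∨ s₀ = -1) (hs : s = 1 ∨ s = -1) (h₁ : s₁ = 1 ∨ s₁ = -1) (h₂ : s₂ = 1 ∨ s₂ = -1)
    (hν : ν = 0 ∨ ν = 4 ∨ ν = -4)
    (e₅ : ν * (A * c + 128 * s * (6 * s₁ + 4 * s₂ * β) * α) = s₀ * (8190 * l₁))
    (e₆ : ν * (3 / 2 * s * A + (6 * s₁ + 4 * s₂ * β) * c + 8 * s * (6 * s₁ + 4 * s₂ * β) * β) =
      s₀ * (510 * l₂)) : |N| ≤ 78 := by
  obtain ⟨hα, hN⟩ := alg_num hβ h e₁ e₂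
  have hT : T = -α * β * R := by rcases hα with rfl | rfl <;> linarith
  have hR : R = 2 ∨ R = -2 := by rcases hα with rfl | rfl <;> omega
  have hl : ∃ ρ : ℤ, (ρ = 1 ∨ ρ = -1) ∧ l₁ = ρ * α * β / 3 ∧ l₂ = ρ * (α + β ^ 2 / 3) := by
    subst hN hT
    push_cast at e₃ e₄
    have f₃ : l₁ * (3 * α + β ^ 2) - l₂ * α * β = 0 := by
      rcases hR with rfl | rfl
      · push_cast at e₃
        linear_combination e₃ / 2
      · push_cast at e₃
        linear_combination -e₃ / 2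
    have f₄ : ∃ σ : ℤ, (σ = 1 ∨ σ = -1) ∧ l₂ - l₁ * α * β = σ := by
      rcases hR with rfl | rfl <;> rcases e₄ with e₄ | e₄ <;> push_cast at e₄
      · exact ⟨1, Or.inl rfl, by push_cast; linear_combination e₄ / 2⟩
      · exact ⟨-1, Or.inr rfl, by push_cast; linear_combination e₄ / 2⟩
      · exact ⟨-1, Or.inr rfl, by push_cast; linear_combination -e₄ / 2⟩
      · exact ⟨1, Or.inl rfl, by push_cast; linear_combination -e₄ / 2⟩
    obtain ⟨σ, hσ, f₄⟩ := f₄
    rcases hα with rfl | rfl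
    · push_cast at f₃ f₄
      refine ⟨σ, hσ, ?_, ?_⟩ <;> push_cast
      · linear_combination f₃ / 3 + β / 3 * f₄
      · linear_combination β / 3 * f₃ + (1 + β ^ 2 / 3) * f₄
    · push_cast at f₃ f₄
      refine ⟨-σ, by omega, ?_, ?_⟩ <;> push_cast
      · linear_combination -f₃ / 3 + β / 3 * f₄
      · linear_combination β / 3 * f₃ + (1 - β ^ 2 / 3) * f₄
  obtain ⟨ρ, hρ, rfl, rfl⟩ := hl
  have hb : β = 6 ∨ β = -6 := by
    refine alg_eq (c := c) (A := A) (τ := s₀ * ρ) hα hs h₁ h₂ ?_ hν ?_ ?_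
    · rcases h₀ with rfl | rfl <;> rcases hρ with rfl | rfl <;> simp
    · push_cast
      linear_combination e₅
    · push_cast
      linear_combination e₆
  rw [hN, abs_le]
  rcases hb with rfl | rfl <;> rcases hR with rfl | rfl <;> rcases hα with rfl | rfl <;> norm_num

end Pool.Agent.Work.MP_8c604c_gt.OZ
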