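import Pool.Agent.Work.MP_8c604c_gt.T.Deg
import Pool.Agent.Work.MP_8c604c_gt.OT.Cut
import Pool.Agent.Work.MP_8c604c_gt.OG.ZG
import Pool.Agent.Work.MP_8c604c_gt.T.ThF
import Pool.Agent.Work.MP_8c604c_gt.T.Gys
import Pool.Agent.Work.MP_8c604c_gt.T.Tot
import Pool.Agent.Work.MP_8c604c_gt.OS.Jx
import Pool.Agent.Work.MP_8c604c_gt.T.HS
import Pool.Agent.Work.MP_8c604c_gt.T.Cx
import Pool.Agent.Work.MP_8c604c_gt.T.AlgF
import Pool.Agent.Work.MP_8c604c_gt.T.LSa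
import Pool.Agent.Work.MP_8c604c_gt.T.Par
import Pool.Agent.Work.MP_8c604c_gt.OT.BQ
import Pool.Agent.Work.MP_8c604c_gt.OG.HS
import Pool.Agent.Work.MP_8c604c_gt.OR.Wt
import Pool.Agent.Work.MP_8c604c_gt.T.ZTh
import Pool.Agent.Work.MP_8c604c_gt.OS.St2
import Pool.Agent.Work.MP_8c604c_gt.OZ.S6

-- merged part: Pool.Agent.Work.MP_8c604c_gt.T.TCh
section
/-!
The affine chart of the tangent bundle.
Hints. O, chi from exists_chart_inv; ti y = (chi y.1, tail (rm z X - (rm z X 0) • z)) with z = aff (chi y.1), X = y.2 (Tan.dpr_rm, rm_dpr, dpr_eq_zero, fderiv_pr: the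
derivative kills c • z). zb_tch: zb_homeo or ZB.of_inv for (univ, K) -> (Tt n inter O x univ, tch '' K), then ZB.excision_open (the image is compact, hence closed).
-/

noncomputable section

namespace Pool.Agent.Work.MP_8c604c_gt.T

open Set Topology Matrix Real Pool.Agent.Work.MP_849ab0_ag.G

variable {n : ℕ}

/-- the affine chart of the tangent bundle -/
def tch (x : EA n × EA n) : AM n × AM n := (pr (aff x.1), fderiv ℝ pr (aff x.1) (aff0 x.2))

/-- the affine coordinate of a vector -/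
def TCh_n (a : EA n) (u : EH n) : EA n := WithLp.toLp 2 fun j => u j.succ - u 0 * a j

theorem TCh_aff0 (a : EA n) (u : EH n) : aff0 (TCh_n a u) = u - u 0 • aff a := by
  ext1 i
  refine Fin.cases ?_ (fun j => ?_) i <;> simp [aff, aff0, TCh_n]

theorem TCh_hor (a b : EA n) : TCh_n a (H.hor (aff a) (aff0 b)) = b := by
  ext1 j
  simp [aff, aff0, TCh_n, H.hor_def]

theorem TCh_cont0 : Continuous (aff0 : EA n → EH n) := by
  refine (PiLp.continuous_toLp 2 _).comp (continuous_pi fun i => ?_)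
  refine Fin.cases ?_ (fun j => ?_) i
  · exact continuous_const
  · simp only [Fin.cons_succ]
    fun_prop

theorem TCh_cont : Continuous fun z : EA n × EH n => TCh_n z.1 z.2 :=
  (PiLp.continuous_toLp 2 _).comp (continuous_pi fun i => by fun_prop)

theorem continuous_tch : Continuous (tch : EA n × EA n → _) := by
  have c := (continuous_aff (n := n)).comp (continuous_fst (Y := EA n))
  exact (continuousOn_pr.comp_continuous c fun x => aff_ne _).prodMk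
    ((continuousOn_dpr.comp_continuous c fun x => aff_ne _).clm_apply (TCh_cont0.comp continuous_snd))

theorem tch_mem (x : EA n × EA n) : tch x ∈ Tt n := by
  exact ⟨_, aff_ne _, rfl, _, rfl⟩

theorem tch_snd {x : EA n × EA n} : (tch x).2 = 0 ↔ x.2 = 0 := by
  refine ⟨fun h => ?_, fun h => ?_⟩
  · rw [← TCh_hor x.1 x.2, (dpr_eq_zero (aff_ne _)).1 h]
    ext1 j
    simp [TCh_n]
  · have : aff0 x.2 = 0 := by
      ext1 i
      refine Fin.cases ?_ (fun j => ?_) i <;> simp [aff0, h]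
    rw [tch, this, map_zero]

theorem exists_tch_inv : ∃ (O : Set (AM n × AM n)) (ti : AM n × AM n → EA n × EA n), IsOpen O ∧
    ContinuousOn ti O ∧ (∀ x, tch x ∈ O) ∧ (∀ x, ti (tch x) = x) ∧
    ∀ y ∈ Tt n ∩ O, tch (ti y) = y := by
  obtain ⟨O, χ, hO, c, m, e, e', -⟩ := exists_chart_inv (n := n)
  have c1 : ContinuousOn (fun y : AM n × AM n => χ y.1) (Prod.fst ⁻¹' O) :=
    c.comp continuousOn_fst fun _ h => h
  refine ⟨Prod.fst ⁻¹' O, fun y => (χ y.1, TCh_n (χ y.1) (rm (aff (χ y.1)) y.2)),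
    hO.preimage continuous_fst, c1.prodMk (TCh_cont.comp_continuousOn (c1.prodMk
      (((rm.continuous.comp continuous_aff).comp_continuousOn c1).clm_apply continuousOn_snd))),
    fun x => m _, fun x => ?_, fun y hy => ?_⟩
  · simp only [tch, e, rm_dpr (aff_ne _), TCh_hor]
  · have k := e' y.1 ⟨Tan.mem hy.1, hy.2⟩
    have k1 : Tan (pr (aff (χ y.1))) y.2 := by
      rw [k]
      exact hy.1
    refine Prod.ext k ?_
    simp only [tch]
    rw [TCh_aff0, map_sub, k1.dpr_rm (aff_ne _), (dpr_eq_zero (aff_ne _)).2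
      ((H.hor_eq_zero_iff (aff_ne _) _).2 ⟨_, rfl⟩), sub_zero]

theorem tch_injective : Function.Injective (tch : EA n × EA n → _) := by
  obtain ⟨-, ti, -, -, -, e, -⟩ := exists_tch_inv (n := n)
  exact Function.LeftInverse.injective e

theorem zb_tch {K : Set (EA n × EA n)} (hK : IsCompact K) : ZB tch univ K (Tt n) (tch '' K) := by
  obtain ⟨O, ti, hO, c, m, e, e'⟩ := exists_tch_inv (n := n)
  have z : ZB tch univ K (Tt n ∩ O) (tch '' K) :=
    .of_inv (s := ti) (ok_of isOpen_univ.isLocallyClosed continuous_tch.continuousOn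
      (fun x _ => ⟨tch_mem x, m x⟩) fun x _ h => tch_injective.mem_set_image.1 h)
      (ok_of (isClosed_Tt.isLocallyClosed.inter hO.isLocallyClosed) (c.mono inter_subset_right)
        (mapsTo_univ _ _) fun y hy h => ⟨_, h, e' y hy⟩) (fun x _ => e x) e'
  exact z.comp (ZB.excision_open hO (.of_isClosed (hK.image continuous_tch).isClosed _)
    fun _ _ ⟨x, _, h⟩ => h ▸ m x) fun _ _ => rfl

end Pool.Agent.Work.MP_8c604c_gt.T
end
end

-- merged part: Pool.Agent.Work.MP_8c604c_gt.OZ.Up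
section
-- merged part: Pool.Agent.Work.MP_8c604c_gt.T.PtM
section
/-!
The class of a point of `HP^n x HP^n`.
Hints. c from exists_pt; the class is the cup product of pull fst (MM n) {y | y.1 = p} c and pull snd (MM n) {y | y.2 = p} c. The product chart x -> (pr (aff x.1), pr (aff x.2)) is ZB from (univ, {0}) to
(MM n, {(p, p)}) (exists_chart_inv, ZB.of_inv, ZB.excision_open); the pull-back is pull of the linear map x -> Sum.elim (cv (cj x.1)) (cv (cj x.2)) of orient (J + J) (orient_sum, pull_cup'),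
a generator by gen_orient, Gen.pul, zb_lin; then Gen.of_pul. The second part by Dg_fgt_inj, fgt_cm, fgt_tauD, ThM_top.
-/

noncomputable section

namespace Pool.Agent.Work.MP_8c604c_gt.T

open Set Topology Pool.Agent.Work.MP_849ab0_ag.G

variable {n : ℕ}

/-- conjugate complex coordinates -/
def ptm_e (n : ℕ) : EA n ≃ₗ[ℝ] (Fin n × Fin 2 → ℂ) :=
  (LinearEquiv.ofInvolutive
    { toFun := cj
      map_add' := fun a b => by ext1 i; exact star_add _ _
      map_smul' := fun r a => by ext1 i; simp [cj] }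
    fun a => by ext1 i; exact star_star _).trans (HPa_cvL _)

theorem exists_ptM : ∃ c : H (MM n) {(pr (aff 0), pr (aff 0))}, Gen (8 * n) c ∧
    pull id (MM n) (Dg n) c = cup (MM n) (Dg n) (uu n ^ n) (tauD n) := by
  obtain ⟨c, -, c1, c2⟩ := exists_pt (n := n)
  obtain ⟨O, χ, hO, hχ, m, e1, e2, -⟩ := exists_chart_inv (n := n)
  have cf : Continuous fun a : EA n => pr (aff a) :=
    continuousOn_pr.comp_continuous continuous_aff aff_ne
  have mf : ∀ a : EA n, pr (aff a) ∈ MH n := fun a => pr_mem (aff_ne a)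
  have z0 : ∀ a : EA n, pr (aff a) = pr (aff 0) → a = 0 := fun a e => by rw [← e1 a, e, e1]
  generalize hp : pr (aff (0 : EA n)) = p at *
  have o0 : Ok (fun a : EA n => pr (aff a)) univ {0} (MH n) {p} :=
    .of_mem (.of_continuous cf _) (fun a _ => mf a) fun a _ => z0 a
  have o1 : Ok Prod.fst (MM n) {y | y.1 = p} (MH n) {p} :=
    .of_mem (.of_continuous continuous_fst _) (fun _ h => h.1) fun _ _ h => h
  have o2 : Ok Prod.snd (MM n) {y | y.2 = p} (MH n) {p} :=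
    .of_mem (.of_continuous continuous_snd _) (fun _ h => h.2) fun _ _ h => h
  have ck : CupOK (MM n) {y | y.1 = p} (MM n) {y | y.2 = p} (MM n) {(p, p)} :=
    cupOK fun _ _ a b => Prod.ext a b
  have cF : Continuous fun x : EA n × EA n => (pr (aff x.1), pr (aff x.2)) :=
    (cf.comp continuous_fst).prodMk (cf.comp continuous_snd)
  have z : ZB (fun x : EA n × EA n => (pr (aff x.1), pr (aff x.2))) univ {0} (MM n) {(p, p)} :=
    (ZB.of_inv (s := fun y => (χ y.1, χ y.2)) (U' := MM n ∩ O ×ˢ O) (Z' := {(p, p)})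
      (.of_mem (.of_continuous cF _) (fun _ _ => ⟨⟨mf _, mf _⟩, m _, m _⟩) fun _ _ h =>
        Prod.ext (z0 _ (congrArg Prod.fst h)) (z0 _ (congrArg Prod.snd h)))
      (ok_of (lc_MM.inter (hO.prod hO).isLocallyClosed)
        ((hχ.comp continuousOn_fst fun _ h => h.2.1).prodMk
          (hχ.comp continuousOn_snd fun _ h => h.2.2)) (mapsTo_univ _ _) fun y k h => Prod.ext
            (by rw [← e2 _ ⟨k.1.1, k.2.1⟩, show χ y.1 = 0 from congrArg Prod.fst h, hp])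
            (by rw [← e2 _ ⟨k.1.2, k.2.2⟩, show χ y.2 = 0 from congrArg Prod.snd h, hp]))
      (fun _ _ => Prod.ext (e1 _) (e1 _))
      fun _ k => Prod.ext (e2 _ ⟨k.1.1, k.2.1⟩) (e2 _ ⟨k.1.2, k.2.2⟩)).comp
      (.excision_open (hO.prod hO) (.of_isClosed isClosed_singleton _)
        fun _ _ h => h ▸ hp ▸ ⟨m _, m _⟩) fun _ _ => rfl
  refine ⟨cup (MM n) {(p, p)} (pull Prod.fst (MM n) {y | y.1 = p} c)
    (pull Prod.snd (MM n) {y | y.2 = p} c), .of_pul ?_ z, Dg_fgt_inj ?_⟩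
  · let E := ((ptm_e n).prodCongr (ptm_e n)).trans
      (LinearEquiv.sumArrowLequivProdArrow _ _ ℝ ℂ).symm
    have g := zb_lin E
    have oe : Ok (fun a : EA n => cv (cj a)) univ {0} univ {0} := (zb_lin (ptm_e n)).ok
    have p1 : Ok (Prod.fst : EA n × EA n → _) univ {x | x.1 = 0} univ {0} :=
      .of_mem (.of_continuous continuous_fst _) (fun _ _ => trivial) fun _ _ h => h
    have p2 : Ok (Prod.snd : EA n × EA n → _) univ {x | x.2 = 0} univ {0} :=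
      .of_mem (.of_continuous continuous_snd _) (fun _ _ => trivial) fun _ _ h => h
    have q1 : Ok (fun x : EA n × EA n => (pr (aff x.1), pr (aff x.2))) univ {x | x.1 = 0} (MM n)
      {y | y.1 = p} := .of_mem z.ok.ext (fun _ _ => ⟨mf _, mf _⟩) fun _ _ => z0 _
    have q2 : Ok (fun x : EA n × EA n => (pr (aff x.1), pr (aff x.2))) univ {x | x.2 = 0} (MM n)
      {y | y.2 = p} := .of_mem z.ok.ext (fun _ _ => ⟨mf _, mf _⟩) fun _ _ => z0 _
    have r : ∀ k : Fin n × Fin 2 → (Fin n × Fin 2) ⊕ (Fin n × Fin 2),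
        Ok (fun v : _ → ℂ => v ∘ Equiv.refl _ ∘ k) univ {v | v ∘ Equiv.refl _ ∘ k = 0} univ {0} :=
      fun k => .of_mem (.of_continuous (by fun_prop) _) (fun _ _ => trivial) fun _ _ h => h
    have r1 : Ok E univ {x | x.1 = 0} univ {v | v ∘ Equiv.refl _ ∘ Sum.inl = 0} :=
      .of_mem g.ok.ext (fun _ _ => trivial) fun _ _ h => (ptm_e n).map_eq_zero_iff.1 h
    have r2 : Ok E univ {x | x.2 = 0} univ {v | v ∘ Equiv.refl _ ∘ Sum.inr = 0} :=
      .of_mem g.ok.ext (fun _ _ => trivial) fun _ _ h => (ptm_e n).map_eq_zero_iff.1 h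
    have k := (gen_orient _).pul g
    rw [orient_sum (Equiv.refl _), pull_cup' g.ok r1 r2 (fun _ _ a b => Prod.ext a b)
      (cupOK fun _ _ a b => funext (Sum.rec (congrFun a) (congrFun b))),
      pull_pull' (F := fun x => cv (cj x.1)) r1 (r _) fun _ _ => rfl,
      pull_pull' (F := fun x => cv (cj x.2)) r2 (r _) fun _ _ => rfl,
      ← pull_pull' p1 oe fun _ _ => rfl, ← pull_pull' p2 oe fun _ _ => rfl, ← c2] at k
    rw [pull_cup' z.ok q1 q2 (fun _ _ a b => Prod.ext a b) ck,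
      (pull_pull' q1 o1 (fun _ _ => by dsimp only [Function.comp]) c).trans (pull_pull p1 o0 c).symm,
      (pull_pull' q2 o2 (fun _ _ => by dsimp only [Function.comp]) c).trans (pull_pull p2 o0 c).symm]
    rwa [show (2 * Fintype.card ((Fin n × Fin 2) ⊕ (Fin n × Fin 2)) : ℤ) = 8 * n by
      simp only [Fintype.card_sum, Fintype.card_prod, Fintype.card_fin]; push_cast; ring] at k
  · have u : ∀ {Z : Set (AM n × AM n)}, Ok id (MM n) univ (MM n) Z :=
      .id subset_rfl fun _ _ _ => trivial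
    have od : Ok id (MM n) (Dg n) (MM n) {(p, p)} := .id subset_rfl fun _ _ h => by rw [h]; rfl
    rw [pull_pull' (F := id) u od fun _ _ => rfl, fgt_cm, fgt_tauD, ThM_top,
      res_cup u u u (cupOK fun _ _ _ _ => trivial) ck,
      pull_pull' (F := Prod.fst) u o1 fun _ _ => rfl, pull_pull' (F := Prod.snd) u o2 fun _ _ => rfl,
      uu, vv, ← pull_pow ok_MM1, ← pull_pow ok_MM2, ← c1,
      pull_res (Z₁ := univ) ok_MM1 subset_rfl fun _ _ _ => trivial,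
      pull_res (Z₁ := univ) ok_MM2 subset_rfl fun _ _ _ => trivial]
    rfl

end Pool.Agent.Work.MP_8c604c_gt.T
end
end

-- merged part: Pool.Agent.Work.MP_8c604c_gt.T.Norm
section
/-!
The degree of the equivariant map.
-/

noncomputable section

namespace Pool.Agent.Work.MP_8c604c_gt.T

open Set Topology Pool.Agent.Work.MP_849ab0_ag.G

variable {n : ℕ}

namespace TD

variable (D : TD n) {w : Fin (4 * n) → ℂ} {T : Finset (EA n × EA n)}
  {L : EA n × EA n → (EA n × EA n) →L[ℝ] (Fin (4 * n) → ℂ)}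

theorem Norm_all (h : D.Reg w T L) {y : AM n × AM n} (hy : y ∈ Tt n) (e : D.Cn y = w) :
    ∃ x ∈ T, tch x = y := by
  have h0 : y.2 ≠ 0 := fun k => h.ne (e.symm.trans ((D.Cn_eq_zero hy).2 k))
  obtain ⟨c, hc, r, hr, rfl⟩ := D.geob_Tt hy h0
  obtain ⟨x, hx, e1, e2⟩ := h.all c hc r hr ((D.Cn_eq hc hr).symm.trans e)
  exact ⟨x, hx, Prod.ext e1.symm e2⟩

theorem Norm_okG {Z : Set (AM n × AM n)} {Z' : Set (AM n × AM n)}
    (h : ∀ y ∈ Tt n, D.G y ∈ Z' → y ∈ Z) : Ok D.G (Tt n) Z D.Nb Z' :=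
  ok_of lc_Tt D.cont_G D.G_mem h

theorem Norm_okG' {Z : Set (AM n × AM n)} {Z' : Set (AM n × AM n)}
    (h : ∀ y ∈ Tt n, D.G y ∈ Z' → y ∈ Z) : Ok D.G (Tt n) Z (MM n) Z' :=
  ok_of lc_Tt D.cont_G (fun _ k => (D.G_mem k).1) h

theorem Norm_pt {y : AM n × AM n} (hy : y ∈ Tt n) :
    D.G y = (pr (aff 0), pr (aff 0)) ↔ y = tch 0 := by
  have e : D.G (tch 0) = (pr (aff 0), pr (aff 0)) := D.geob_G0 (tch_snd.2 rfl)
  exact ⟨fun k => by rw [← D.Gi_G hy, k, ← e, D.Gi_G (tch_mem 0)], fun k => k ▸ e⟩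

theorem Norm_zb : ZB (fun x => D.G (tch x)) univ {0} (MM n) {(pr (aff 0), pr (aff 0))} := by
  have z1 : ZB tch univ {0} (Tt n) (tch '' {0}) := zb_tch isCompact_singleton
  have z2 : ZB D.G (Tt n) (tch '' {0}) D.Nb {(pr (aff 0), pr (aff 0))} :=
    .of_inv (D.Norm_okG fun y hy k => ⟨0, rfl, ((D.Norm_pt hy).1 k).symm⟩)
      (ok_of D.lc_Nb D.cont_Gi D.Gi_mem fun y hy k => by
        obtain ⟨_, rfl, k⟩ := k
        exact (D.G_Gi hy).symm.trans ((D.Norm_pt (D.Gi_mem hy)).2 k.symm))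
      (fun _ => D.Gi_G) fun _ => D.G_Gi
  have z3 : ZB id D.Nb {(pr (aff 0), pr (aff 0))} (MM n) {(pr (aff 0), pr (aff 0))} :=
    .excision D.HS_sub (Cl.of_isClosed isClosed_singleton _) (fun x hx k =>
      (Cl.of_isClosed D.isClosed_F _).diff_mem_nhdsWithin (D.Dg_sub hx (by
        rw [show x = _ from k]; rfl))) fun _ _ => Iff.rfl
  exact (z1.comp z2 fun _ _ => rfl).comp z3 fun _ _ => rfl

theorem Cn_orient (h : D.Reg w T L) (e : (Fin (4 * n) → ℂ) ≃L[ℝ] EA n × EA n) :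
    ∃ s : ℤ, (s = 1 ∨ s = -1) ∧ pull D.Cn (Tt n) (zs (AM n) (AM n)) (orient (Fin (4 * n))) =
      ((s : ℂ) * ∑ x ∈ T,
        (SignType.sign ((L x).comp (e : (Fin (4 * n) → ℂ) →L[ℝ] EA n × EA n)).det : ℂ)) •
        pull D.G (Tt n) (zs (AM n) (AM n)) (cup (MM n) (Dg n) (uu n ^ n) (tauD n)) := by
  obtain ⟨F, hF, hd⟩ := h.der
  obtain ⟨c, hc, ec⟩ := exists_ptM (n := n)
  have cF : Continuous fun x => D.Cn (tch x) := D.cont_Cn.comp_continuous continuous_tch tch_mem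
  have e1 : ∀ x : EA n × EA n, x.2 ≠ 0 → D.Cn (tch x) = F x := fun x hx => by
    obtain ⟨c, hc, r, hr, k⟩ := D.geob_Tt (tch_mem x) (mt tch_snd.1 hx)
    rw [k, D.Cn_eq hc hr, hF x c hc r hr (congrArg Prod.fst k).symm (congrArg Prod.snd k)]
  have hT : ∀ x, D.Cn (tch x) = w ↔ x ∈ T := fun x => ⟨fun k => by
    obtain ⟨x', hx, k'⟩ := D.Norm_all h (tch_mem x) k
    rwa [← tch_injective k'], fun k => (e1 x (hd x k).1).trans (hd x k).2.1⟩
  have hD : ∀ x ∈ T, HasFDerivAt (fun x => D.Cn (tch x)) (L x) x := fun x k =>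
    (hd x k).2.2.1.congr_of_eventuallyEq (by
      filter_upwards [(isOpen_ne_fun continuous_snd continuous_const).mem_nhds (hd x k).1] with y hy
      exact e1 y hy)
  obtain ⟨ρ, hρ0, hρ⟩ := T.finite_toSet.isBounded.subset_closedBall_lt 0 0
  set K : Set (EA n × EA n) := Metric.closedBall 0 ρ
  have h0 : (0 : EA n × EA n) ∈ K := Metric.mem_closedBall_self hρ0.le
  have cK : IsCompact K := isCompact_closedBall 0 ρ
  have cnt := cnt_deg cF hT hD (fun x k => (hd x k).2.2.2) e (K := K)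
    (fun x k t ht => (convex_closedBall 0 ρ).smul_mem_of_zero_mem h0 (hρ k) ht) h0
    (orient (Fin (4 * n)))
  have zl : ZB e.symm univ {0} univ {0} := zb_lin e.symm.toLinearEquiv
  have g2 : Gen (8 * n) (pull e.symm univ {0} (orient (Fin (4 * n)))) := by
    have := (gen_orient (Fin (4 * n))).pul zl
    rwa [Fintype.card_fin, show 2 * ((4 * n : ℕ) : ℤ) = 8 * n by push_cast; ring] at this
  obtain ⟨s, hs, es⟩ := (hc.pul D.Norm_zb).eq_sign g2
  refine ⟨s, hs, ?_⟩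
  have k0 : ∀ x ∈ (univ : Set (EA n × EA n)), x ∈ ({0} : Set (EA n × EA n)) → x ∈ K :=
    fun x _ k => k ▸ h0
  have oA : Ok (fun y => D.Cn y - w) (Tt n) (tch '' K) univ {0} :=
    ok_of lc_Tt (D.cont_Cn.sub continuousOn_const) (mapsTo_univ _ _) fun y hy k => by
      obtain ⟨x, hx, rfl⟩ := D.Norm_all h hy (sub_eq_zero.1 k)
      exact ⟨x, hρ hx, rfl⟩
  have oB : Ok D.G (Tt n) (tch '' K) (MM n) {(pr (aff 0), pr (aff 0))} :=
    D.Norm_okG' fun y hy k => ⟨0, h0, ((D.Norm_pt hy).1 k).symm⟩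
  have z := zb_tch cK
  have e2 : pull (fun y => D.Cn y - w) (Tt n) (tch '' K) (orient (Fin (4 * n))) =
      ((s : ℂ) * ∑ x ∈ T,
        (SignType.sign ((L x).comp (e : (Fin (4 * n) → ℂ) →L[ℝ] EA n × EA n)).det : ℂ)) •
        pull D.G (Tt n) (tch '' K) c := by
    refine z.bij.1 ?_
    rw [map_smul, pull_pull' z.ok oA (F := fun x => D.Cn (tch x) - w) fun _ _ => rfl, cnt,
      pull_pull' z.ok oB (F := fun x => D.G (tch x)) fun _ _ => rfl,
      ← res_pull zl.ok Subset.rfl k0, es, map_smul, res_pull D.Norm_zb.ok Subset.rfl k0, smul_smul,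
      mul_comm]
  obtain ⟨R₀, hR⟩ := D.Cn_move w
  obtain ⟨R₁, hR₁⟩ := cK.exists_bound_of_continuousOn
    (f := fun x => (tch x).2) continuous_tch.snd.continuousOn
  set R := max (max R₀ R₁) 0
  have k1 : ∀ y ∈ Tt n, y ∈ tch '' K → y ∈ KR n R := fun y _ ⟨x, hx, k⟩ =>
    k ▸ (hR₁ x hx).trans ((le_max_right _ _).trans (le_max_left _ _))
  have z' : ZB id (Tt n) (KR n R) (Tt n) (zs (AM n) (AM n)) := zb_KR (le_max_right _ _)
  have k2 : ∀ y ∈ Tt n, y ∈ zs (AM n) (AM n) → y ∈ KR n R := fun y hy k => z'.ok.mem hy k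
  have oG : Ok D.G (Tt n) (zs (AM n) (AM n)) (MM n) (Dg n) :=
    D.Norm_okG' fun y hy k => (D.G_dg hy).1 k
  refine z'.bij.1 ?_
  have e3 := congrArg (pull id (Tt n) (KR n R)) e2
  rw [map_smul, res_pull oA Subset.rfl k1, res_pull oB Subset.rfl k1,
    hR R ((le_max_left _ _).trans (le_max_left _ _))] at e3
  rw [map_smul, res_pull D.ok_Cn Subset.rfl k2, e3, ← ec,
    pull_res oG Subset.rfl fun y _ k => by rw [show y = _ from k]; rfl]
  rw [res_pull (D.Norm_okG' (Z := zs (AM n) (AM n)) fun y hy k =>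
    (D.G_dg hy).1 (by rw [show D.G y = _ from k]; rfl)) Subset.rfl k2]

theorem Φ_sig (hn : 1 ≤ n) {N : ℂ} (h : pull D.Cn (Tt n) (zs (AM n) (AM n)) (orient (Fin (4 * n))) =
      N • pull D.G (Tt n) (zs (AM n) (AM n)) (cup (MM n) (Dg n) (uu n ^ n) (tauD n)))
    {σ : H ({0}ᶜ : Set (Fin (4 * n) → ℂ)) univ} (dσ : IsDeg (8 * n - 1) σ)
    (hσ : dlt univ {0} σ = orient (Fin (4 * n))) :
    pull D.Φ D.S univ σ = N • pull D.j0 D.S univ (D.vp hn) := by
  have oI : Ok D.Gi D.Nb (Dg n) (Tt n) (zs (AM n) (AM n)) :=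
    ok_of D.lc_Nb D.cont_Gi D.Gi_mem fun y hy k =>
      D.G_Gi hy ▸ (D.G_dg (D.Gi_mem hy)).2 k
  have oG : Ok D.G (Tt n) (zs (AM n) (AM n)) (MM n) (Dg n) :=
    D.Norm_okG' fun y hy k => (D.G_dg hy).1 k
  have o1 : Ok (fun y => D.Cn (D.Gi y)) D.Nb (Dg n) univ {0} := D.ok_Cn.comp oI
  have o2 : Ok (fun y => D.Cn (D.Gi y)) (D.Nb \ Dg n) univ {0}ᶜ univ :=
    .of_mem (o1.ext.mono sdiff_subset) (fun y hy => (o1.supp hy).2) fun _ _ _ => trivial
  have e1 : pull (fun y => D.Cn (D.Gi y)) (D.Nb \ Dg n) univ σ = N • D.vp hn := by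
    refine sub_eq_zero.1 (D.dlt_inj (p := 8 * n - 1) ((dσ.pull _ _ _).sub ((D.isDeg_vp hn).smul _))
      ⟨4 * n - 1, by ring⟩ ?_)
    rw [map_sub, map_smul, D.dlt_vp', ← pull_dlt o1.ext Subset.rfl sdiff_subset o1 o2 Subset.rfl
      (fun _ k => k.2), hσ, ← pull_pull' oI D.ok_Cn fun _ _ => rfl, h, map_smul,
      pull_pull' (F := id) oI oG fun _ k => D.G_Gi k, sub_self]
  rw [← map_smul, ← e1, pull_pull' D.ok_j0 o2 (F := D.Φ) fun c hc => ?_]
  have : (c 1, D.vel c) ∈ Tt n := D.tan c hc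
  rw [← D.G_vel hc, D.Gi_G this]
  simpa using D.Cn_eq hc one_pos

end TD

end Pool.Agent.Work.MP_8c604c_gt.T
end
end

-- merged part: Pool.Agent.Work.MP_8c604c_gt.T.Compl
section
/-!
The Euler class of the complement of a line bundle.
-/

noncomputable section

namespace Pool.Agent.Work.MP_8c604c_gt.T

open Set Topology Matrix Polynomial Pool.Agent.Work.MP_849ab0_ag.G

theorem coeff_compl {R : Type} [CommRing R] {q : R[X]} {a : R} {m : ℕ}
    (h : X ^ (1 + m) = (X + C a) * q) : q.coeff 0 = (-a) ^ m := by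
  nontriviality R
  have g := Commute.mul_geom_sum₂ (Commute.all (X : R[X]) (C (-a))) (m + 1)
  set s := ∑ i ∈ Finset.range (m + 1), (X : R[X]) ^ i * C (-a) ^ (m + 1 - 1 - i) with hs
  have e : (X + C a) * (q - s) = C ((-a) ^ (m + 1)) := by
    rw [mul_sub, ← h, map_pow, add_comm 1 m]
    rw [map_neg] at g ⊢
    linear_combination -g
  have z : q - s = 0 := by
    by_contra ne
    have d := congrArg natDegree e
    rw [(monic_X_add_C a).natDegree_mul' ne, natDegree_X_add_C, natDegree_C] at d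
    omega
  rw [sub_eq_zero.1 z, hs, Finset.sum_range_succ', coeff_zero_eq_eval_zero]
  simp [eval_finset_sum]

variable {T J : Type} [TopologicalSpace T] [RegularSpace T] [SecondCountableTopology T] [Fintype J]
  [DecidableEq J] {P : T → Matrix J J ℂ} {U : Set T} {m : ℕ}

theorem eu_compl (h : CB P 1 U) (hm : Fintype.card J = 1 + m) :
    eu (fun x => 1 - P x) m U = (-eu P 1 U) ^ m := by
  have o := cb_one (J := J) h.lc
  have k := cp_one (K := J) h.lc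
  rw [hm] at o k
  have c := o.sub h fun _ _ => one_mul _
  have s := cp_spl o h c (spl_sub o h fun _ _ => one_mul _)
  rw [k, cp_line h] at s
  have e := congrArg Subtype.val (coeff_compl s)
  rw [cp_coeff_zero c, c.euE_val] at e
  simp only [mul_one] at e
  rw [e, ← h.euE_val]
  rfl

end Pool.Agent.Work.MP_8c604c_gt.T
end
end

-- merged part: Pool.Agent.Work.MP_8c604c_gt.T.Fin
section
/-!
The bound for the degree.
-/

noncomputable section

namespace Pool.Agent.Work.MP_8c604c_gt.T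

open Set Topology Pool.Agent.Work.MP_849ab0_ag.G

variable {n : ℕ}

namespace TD

variable (D : TD n)

theorem deg_le (hn : 2 ≤ n) {N : ℤ} {σ : H ({0}ᶜ : Set (Fin (4 * n) → ℂ)) univ}
    (hσ : dlt univ {0} σ = orient (Fin (4 * n)))
    (h : pull D.Φ D.S univ σ = (N : ℂ) • pull D.j0 D.S univ (D.vp (by omega))) :
    |N| ≤ ((4 * n).choose (2 * n) : ℤ) - (4 * n).choose (2 * n - 1) := by
  have h1 : 1 ≤ n := by omega
  have mu := D.mu_ne hn
  have zz : D.zt ^ 2 = (-4 : ℂ) • pull Prod.fst D.Pt univ D.uS := D.zz_sq hn (D.sb_t h1)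
  obtain ⟨d, hd⟩ := exists_d (D := D) h1
  obtain ⟨β, hβ⟩ := exists_beta h1 zz
  obtain ⟨ζ, j, s, t, dζ, z1, z2⟩ := D.exists_zeta hn zz
  have o1 : Ok Prod.fst D.Pt univ D.S univ :=
    .of_mem (.of_continuous continuous_fst _) (fun _ k => k.1) fun _ _ _ => trivial
  have oΦ : Ok D.Φ D.S univ ({0}ᶜ : Set (Fin (4 * n) → ℂ)) univ :=
    ok_top D.cpt.isClosed.isLocallyClosed D.cΦ D.neΦ
  have g := gysP_Φ (D := D) h1 hσ
  have gv := D.gys_vp h1
  have gn := zq_gys_ne (D := D) h1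
  rw [bD_zero h1 mu, mul_zero, zero_sub, hd] at gv
  rw [← pull_pull' o1 oΦ fun _ _ => rfl, h, map_smul, map_smul, gv,
    eu_compl D.cb_Lq (by rw [Fintype.card_fin]; omega)] at g
  rw [gv] at gn
  have me := D.mu_ee
  rw [hd] at me
  have ev : ∀ {p : ℤ} {a : H D.Pq univ}, IsDeg p a → Even p → a ∈ EvR D.Pq := IsDeg.evn
  refine alg_fin (B := EvR D.Pq) hn (y1 := ⟨D.yp, ev D.isDeg_yp (by decide)⟩)
    (y2 := ⟨D.ym, ev D.isDeg_ym (by decide)⟩) (e := ⟨D.ee, ev D.isDeg_ee (by decide)⟩)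
    (z := ⟨D.zq, ev (D.isDeg_zq h1) (by decide)⟩) (ζ := ⟨ζ, ev dζ (by decide)⟩) (d := d) (β := β)
    (j := j) (s := s) (t := t) (Subtype.ext D.yp_pow) (Subtype.ext D.ym_pow) (Subtype.ext ?_)
    (Subtype.ext me) (Subtype.ext hβ) (Subtype.ext z1) (Subtype.ext z2) (fun a b k => ?_)
    (Subtype.ext g.symm) fun k => gn (congrArg Subtype.val k)
  · rw [AddSubmonoidClass.coe_finset_sum]
    exact hy_zero h1 mu
  · exact indep_two h1 (ee_inj (p := 1) h1 ((D.isDeg_ee.smul a).add ((D.isDeg_zq h1).smul b))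
      (by omega) (congrArg Subtype.val k))

theorem count_le' (hn : 2 ≤ n) {w : Fin (4 * n) → ℂ} {T : Finset (EA n × EA n)}
    {L : EA n × EA n → (EA n × EA n) →L[ℝ] (Fin (4 * n) → ℂ)} (h : D.Reg w T L)
    (e : (Fin (4 * n) → ℂ) ≃L[ℝ] EA n × EA n) :
    |∑ x ∈ T, (SignType.sign ((L x).comp (e : (Fin (4 * n) → ℂ) →L[ℝ] EA n × EA n)).det : ℝ)| ≤
      ((4 * n).choose (2 * n) : ℝ) - (4 * n).choose (2 * n - 1) := by
  haveI : Nonempty (Fin (4 * n)) := ⟨⟨0, by omega⟩⟩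
  obtain ⟨σ, dσ, hσ, -⟩ := exists_sig (Fin (4 * n))
  obtain ⟨s, hs, k⟩ := D.Cn_orient h e
  have k' := D.Φ_sig (by omega) k (by convert dσ using 1; simp; ring) hσ
  have := D.deg_le hn (N := s * ∑ x ∈ T,
    (SignType.sign ((L x).comp (e : (Fin (4 * n) → ℂ) →L[ℝ] EA n × EA n)).det : ℤ)) hσ
    (by rw [k']; push_cast; rfl)
  rw [abs_mul, show |s| = 1 by rcases hs with rfl | rfl <;> rfl, one_mul] at this
  have r := (Int.cast_le (R := ℝ)).2 this
  push_cast at r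
  exact r

end TD

end Pool.Agent.Work.MP_8c604c_gt.T
end
end

-- merged part: Pool.Agent.Work.MP_8c604c_gt.T.Out
section
/-!
The two results of the topology side.
-/

noncomputable section

namespace Pool.Agent.Work.MP_8c604c_gt.T

open Set

variable {n : ℕ}

theorem TD0.k_eq_three {k : ℕ} (D : TD0 n k) (hn : 2 ≤ n) : k = 3 := D.k_eq hn

/-- The signed number of preimages of a regular value is at most the Catalan number. -/
theorem TD.count_le (D : TD n) (hn : 2 ≤ n) {w : Fin (4 * n) → ℂ} {T : Finset (EA n × EA n)}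
    {L : EA n × EA n → (EA n × EA n) →L[ℝ] (Fin (4 * n) → ℂ)} (h : D.Reg w T L)
    (e : (Fin (4 * n) → ℂ) ≃L[ℝ] EA n × EA n) :
    |∑ x ∈ T, (SignType.sign ((L x).comp (e : (Fin (4 * n) → ℂ) →L[ℝ] EA n × EA n)).det : ℝ)| ≤
      ((4 * n).choose (2 * n) : ℝ) - (4 * n).choose (2 * n - 1) :=
  D.count_le' hn h e

end Pool.Agent.Work.MP_8c604c_gt.T
end
end

-- merged part: Pool.Agent.Work.MP_8c604c_gt.OZ.ZK
section
/-!
Integral classes and circle bundles (owner helper4).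

Hints.  `thZ_kerZ`, `thZ_eulZ`: as `ThZ.ker`, `Tf.lift` in T/ZTh with `t` from `h.thom ℤ`, `TZ.exact_supp_res`,
`h.base.all ℤ`, `cc_pull`, `cc_cup`, `okZ`, `TZ.pull_pull'`.
`three_sq`: lift `Q.y` to `ŷ` (`IsZ.exists_deg`); `b` is the pull-back of `ŷ` (`tf8_S`); `cc (3 • ŷ ŷ) = ± eT` (`eT_eq`),
`thZ_eulZ` for `Q.thZ_T` (`Q.gysD_T.eul`, `Q.tf16`), pull back along `c ↦ (c 1, vel c)` (`zb_S`, `TZ.pull_cup'`).
The `CD` lemmas: `h.cb.thZ`, `CB.fst_eu`, `h.zb_io'` (`sp P U = tot P U \ zs` by `rfl`, `fst ∘ io = q`), the lemmas `ThZ.ker`,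
`van_base`, `tf_base` of T/ZTh and `thZ_gysD`, `thZ_gen_gys`, `thZ_isZ_gys`, `thZ_van_nil` of OG/ZG.
`tr_gys`: `tm_tr`, `GysD.gys_eq`, `T0 J univ = zs`, `TW J univ = univ` (`ZB.of_eq`, `res_dlt`, `dlt_res`).
`van_nil`: over `{b | Φ (out q b) i ≠ 0}` (relatively open: `h.contOn` for `‖Φ y i‖`, `continuousOn_iff'`) the section
`q y ↦ (q y, star (Φ y i) • ζ y)` (invariant, `h.out_eq`, `h.contOn`, `h.mem_tot`).
`tr_top`: `CD s q Φ E B` holds, `EM.map_tr`, `EM.map_ee` for `g = id`, `n = 1` reduce to `ζ = Φ`; then `tm_tr`, `pull_dlt`,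
`CB.snd_orient` with `R = 0`, `w = 0`, `eu_compl` (model: `gysP_Φ` in T/Tot).
-/

noncomputable section

set_option linter.unusedSectionVars false

namespace Pool.Agent.Work.MP_8c604c_gt.OT

open Set Topology Pool.Agent.Work.MP_849ab0_ag.G T

section Th

variable {X Y : Type} [TopologicalSpace X] [RegularSpace X] [SecondCountableTopology X]
  [TopologicalSpace Y] [RegularSpace Y] [SecondCountableTopology Y]
  {π : X → Y} {E Z : Set X} {U : Set Y} {d q : ℤ} {τ : H E Z} {e : H U univ}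

theorem thZ_kerZ (h : ThZ π E Z U d τ) (he : pull π E univ e = pull id E univ τ)
    {a : TZ.H ℤ U univ} (ha : TZ.IsDeg q a) (k : TZ.pull π (E \ Z) univ a = 0) :
    ∃ b, IsZ b ∧ IsDeg (q - d) b ∧ cc a = b * e := by
  obtain ⟨y, hy⟩ := (TZ.exact_supp_res rfl GysD.aux (TZ.pull π E univ a)).1 (by
    rw [TZ.pull_pull' (F := π) (ZG_fgt sdiff_subset) (T.okZ h.base.ok) fun _ _ => rfl, k])
  obtain ⟨b, b1, b2, e1⟩ := h.ex (isZ_cc (TZ.prj {q} y)) (cc_deg (TZ.isDeg_prj q y))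
  refine ⟨b, b1, b2, h.base.bij.1 ?_⟩
  rw [pull_mul h.base.ok, he, ← fgt_cm, ← e1, ← cc_pull, ← cc_pull, TZ.pull_prj, hy,
    TZ.isDeg_iff.1 (ha.pull _ _ _)]

theorem thZ_eulZ (h : ThZ π E Z U d τ) (he : pull π E univ e = pull id E univ τ) (v : Tf d U univ)
    {a : TZ.H ℤ U univ} (ha : TZ.IsDeg d a) (k : cc a = e ∨ cc a = -e) :
    TZ.pull π (E \ Z) univ a = 0 := by
  obtain ⟨t, k1, -, k3⟩ := h.thom ℤ
  obtain ⟨ε, hε⟩ := (h.base.all ℤ).2 (TZ.pull id E univ t)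
  have dε : TZ.IsDeg d ε := TZ.isDeg_iff.2 ((h.base.all ℤ).1 (by
    rw [TZ.pull_prj, hε, TZ.isDeg_iff.1 (k1.pull _ _ _)]))
  have cε : cc ε = e := h.base.bij.1 (by rw [← cc_pull, hε, cc_pull, k3, he])
  have z : TZ.pull π (E \ Z) univ ε = 0 := by
    rw [← TZ.pull_pull' (F := π) (ZG_fgt sdiff_subset) (T.okZ h.base.ok) fun _ _ => rfl, hε]
    exact (TZ.exact_supp_res rfl GysD.aux _).2 ⟨t, rfl⟩
  rcases k with k | k
  · rw [sub_eq_zero.1 (v _ (ha.sub dε) (by rw [map_sub, k, cε, sub_self])), z]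
  · rw [eq_neg_of_add_eq_zero_left (v _ (ha.add dε) (by rw [map_add, k, cε, neg_add_cancel])),
      map_neg, z, neg_zero]

theorem ZK_snd {J : Type} [Fintype J] [DecidableEq J] {m : ℕ} {P : Y → Matrix J J ℂ}
    (hm : Fintype.card J = 1 + m) (h : CB P 1 U) :
    pull Prod.snd (tot P U) (zs Y (J → ℂ)) (orient J) = cup (tot P U) (zs Y (J → ℂ))
      (pull Prod.fst (tot P U) univ (eu (fun x => 1 - P x) m U)) (th P 1 U) := by
  have h1 := cb_one (J := J) h.lc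
  have h2 := cb_one (J := J) h.lc_tot
  rw [hm] at h1 h2
  have hQ : CB (fun x => 1 - P x) m U :=
    (h1.sub h fun _ _ => one_mul _).congr fun _ _ => by simp
  have hf := (ok_totfst P U).maps
  have hP := h.comp h.lc_tot continuousOn_fst hf
  have hs : Sec (fun y : Y × (J → ℂ) => P y.1) Prod.snd (tot P U) (zs Y (J → ℂ)) :=
    ⟨continuousOn_snd, fun _ k => k.2, fun _ _ k => k⟩
  have b : BM (fun y : Y × (J → ℂ) => P y.1) (tot P U) P U Prod.fst fun _ => 1 :=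
    ⟨continuousOn_fst, hf, continuousOn_const, fun _ _ _ k => by simpa using k,
      fun _ _ _ _ k => by simpa using k⟩
  have h3 := ec_split (Z := zs Y (J → ℂ)) h2 hP (hQ.comp h.lc_tot continuousOn_fst hf)
    (fun _ _ => one_mul _) (fun _ _ => one_mul _) (fun _ _ v k k' => by
      rw [← k', Matrix.sub_mulVec, Matrix.one_mulVec, k, sub_self]) hs (sec_zero _ _)
    fun _ _ k _ => k
  have h4 : ec (fun y : Y × (J → ℂ) => P y.1) 1 Prod.snd (tot P U) (zs Y (J → ℂ)) = th P 1 U := by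
    rw [ec, ← th_map hP h b, pull_pull' (F := id) (hs.ok h.lc_tot) (b.ok hP)
      fun _ _ => by simp [bm], pull_id]
  simp only [Pi.zero_apply, add_zero] at h3
  rw [h4, ← hm, ec_one (Z := zs Y (J → ℂ)) h.lc_tot (by fun_prop) fun _ _ k => k] at h3
  rw [eu_pull hQ h.lc_tot continuousOn_fst hf]
  exact h3.trans ((hQ.comp h.lc_tot continuousOn_fst hf).evn_eu.comm (cupU _ _) _)

end Th

theorem TD0.three_sq {V : Type} [NormedAddCommGroup V] [InnerProductSpace ℝ V] [FiniteDimensional ℝ V]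
    {𝕄 : Mf V} {k : ℕ} (D : TD0 𝕄 k) (Q : MT 𝕄) {b : TZ.H ℤ D.S univ} (hb : TZ.IsDeg 8 b)
    (e : cc b = D.uS Q) : (3 : ℤ) • TZ.cup D.S univ b b = 0 := by
  obtain ⟨y, hy, e'⟩ := Q.isZ_y.exists_deg Q.isDeg_y
  have o := T.okZ (D.ok_ev 1)
  obtain rfl : b = TZ.pull (fun c : LM V => c 1) D.S univ y :=
    sub_eq_zero.1 (D.tf8_S Q _ (hb.sub (hy.pull _ _ _)) (by
      rw [map_sub, cc_pull, e', e]; exact sub_self _))
  have c : cc ((3 : ℤ) • TZ.cup 𝕄.M univ y y) = (3 : ℂ) • Q.y ^ 2 := by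
    rw [cc_zsmul, cc_cup, e', sq, mulH, Int.cast_ofNat]
  have z := thZ_eulZ Q.thZ_T Q.gysD_T.eul Q.tf16 (a := (3 : ℤ) • TZ.cup 𝕄.M univ y y)
    ((hy.cup hy _ _).smul _) ((D.eT_eq Q).imp (fun k => c.trans k.symm)
      fun k => by rw [c, k, neg_neg])
  rw [← TZ.pull_cup' o o o (fun _ _ _ k => k) ZG_cup, ← map_smul,
    ← TZ.pull_pull' (T.okZ D.zb_S.ok) (T.okZ Q.gysD_T.ok0) fun _ _ => rfl, z, map_zero]

variable {Y Q J : Type} [TopologicalSpace Y] [TopologicalSpace Q] [Fintype J] [Nonempty Y]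
  [RegularSpace Y] [SecondCountableTopology Y] [RegularSpace Q] [SecondCountableTopology Q]
  {s : Circle → Y → Y} {q : Y → Q} {ζ : Y → J → ℂ} {E : Set Y} {B : Set Q} {p : ℤ}

namespace CD

variable (h : CD s q ζ E B)
include h

theorem thZ2 : ThZ Prod.fst (tot (Lq q ζ) B) (zs Q (J → ℂ)) B 2 (th (Lq q ζ) 1 B) := by
  simpa using h.cb.thZ

theorem gysD : GysD Prod.fst (tot (Lq q ζ) B) (zs Q (J → ℂ)) B (th (Lq q ζ) 1 B) 2 (ee q ζ B) :=
  thZ_gysD h.thZ2 h.cb.fst_eu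

theorem tr_gys (c : H (tot (Lq q ζ) B \ zs Q (J → ℂ)) univ) :
    tr q ζ B univ (pull (io q ζ) E univ c) = h.gysD.gys c := by
  have k := sd_univ q E B
  have o2 : Ok id (tot (Lq q ζ) B \ T0 J univ) (TW J univ) (tot (Lq q ζ) B \ zs Q (J → ℂ)) univ :=
    .id (fun _ a => ⟨a.1, fun b => a.2 ⟨trivial, b⟩⟩) fun _ _ _ => trivial
  have o3 : Ok id (tot (Lq q ζ) B) (T0 J univ) (tot (Lq q ζ) B) (zs Q (J → ℂ)) :=
    .id subset_rfl fun _ _ a => ⟨trivial, a⟩
  have o4 : Ok id (tot (Lq q ζ) B) (TW J univ) (tot (Lq q ζ) B) univ :=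
    .id subset_rfl fun _ _ _ => trivial
  refine (h.tm_bij k).1 ?_
  rw [← pull_res (h.zb_io2 k).ok o2.maps fun _ _ _ => mem_univ _, h.tm_tr k, dlt_res o2 subset_rfl,
    ← res_dlt o3 subset_rfl, ← h.gysD.gys_spec, res_cup_out o3 (cupU _ _), tm_apply,
    ← res_pull (Gys_ok _ _) subset_rfl (W₁ := TW J univ) fun _ _ _ => mem_univ _,
    cup_res_left o4 (cTW _ _)]

theorem ZK_zb : ZB (io q ζ) E univ (tot (Lq q ζ) B \ zs Q (J → ℂ)) univ := h.zb_io'

theorem ZK_pull {R : Type} [CommRing R] (a : TZ.H R B univ) : TZ.pull (io q ζ) E univ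
    (TZ.pull Prod.fst (tot (Lq q ζ) B \ zs Q (J → ℂ)) univ a) = TZ.pull q E univ a :=
  TZ.pull_pull' (T.okZ h.ZK_zb.ok) (T.okZ h.gysD.ok0) (fun _ _ => rfl) a

theorem ZK_pull' (a : H B univ) : pull (io q ζ) E univ
    (pull Prod.fst (tot (Lq q ζ) B \ zs Q (J → ℂ)) univ a) = pull q E univ a :=
  pull_pull' h.ZK_zb.ok h.gysD.ok0 (fun _ _ => rfl) a

theorem kerZ {a : TZ.H ℤ B univ} (ha : TZ.IsDeg (p + 2) a) (k : TZ.pull q E univ a = 0) :
    ∃ b, IsZ b ∧ IsDeg p b ∧ cc a = b * ee q ζ B := by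
  simpa only [add_sub_cancel_right] using thZ_kerZ h.thZ2 h.gysD.eul ha
    ((h.ZK_zb.all ℤ).1 (by rw [h.ZK_pull, k, map_zero]))

theorem kerI (v : Tf (p + 2) E univ) {a : H B univ} (ha : IsZ a) (hd : IsDeg (p + 2) a)
    (k : pull q E univ a = 0) : ∃ b, IsZ b ∧ IsDeg p b ∧ a = b * ee q ζ B := by
  simpa only [add_sub_cancel_right] using h.thZ2.ker h.gysD.eul (v.of_pul h.ZK_zb) ha hd
    (h.ZK_zb.bij.1 (by rw [h.ZK_pull', k, map_zero]))

theorem van_base (v : Van (p + 2) E univ) (v' : Van p B univ) : Van (p + 2) B univ := by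
  exact h.thZ2.van_base (v.of_pul h.ZK_zb) (by rwa [add_sub_cancel_right])

theorem tf_base (v : Tf p B univ) (v₁ : Van (p + 2) E univ) (v₂ : Van (p + 1) E univ) :
    Tf (p + 2) B univ := by
  refine h.thZ2.tf_base (by rwa [add_sub_cancel_right]) (v₁.of_pul h.ZK_zb) ?_
  rw [show p + 2 - 1 = p + 1 by ring]
  exact v₂.of_pul h.ZK_zb

theorem isZ_tr {c : H E univ} (hc : IsZ c) : IsZ (tr q ζ B univ c) := by
  obtain ⟨b, hb, rfl⟩ := h.ZK_zb.lift hc
  rw [h.tr_gys]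
  exact thZ_isZ_gys h.thZ2 h.gysD hb

theorem gen_tr {c : H E univ} (hc : Gen (p + 1) c) (v : Van (p + 1) B univ) (v' : Van (p + 2) B univ) :
    Gen p (tr q ζ B univ c) := by
  obtain ⟨b, rfl⟩ := h.ZK_zb.bij.2 c
  have e : p + 2 - 1 = p + 1 := by ring
  rw [h.tr_gys]
  exact thZ_gen_gys h.thZ2 h.gysD (e ▸ hc.of_pul h.ZK_zb) (e ▸ v) v'

theorem mul_inj (v : ∀ c : H E univ, IsDeg (p + 1) c → c = 0) {b : H B univ} (hb : IsDeg p b)
    (k : ee q ζ B * b = 0) : b = 0 := by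
  obtain ⟨c, hc, rfl⟩ := h.ee_eq_zero' (sd_univ _ _ _) hb k
  rw [v c hc, map_zero]

variable {n : ℕ} {Φ : Y → Fin (n + 1) → ℂ} (c : ContinuousOn Φ E)
  (e : ∀ θ, ∀ y ∈ E, Φ (s θ y) = (θ : ℂ) • Φ y) (ne : ∀ y ∈ E, Φ y ≠ 0)
include c e ne

theorem van_nil (v : ∀ j : ℕ, 1 ≤ j → j ≤ n + 1 → Van (p + j * 2 - 1) E univ) : Van p B univ := by
  have c1 : ∀ i, ContinuousOn (fun y => Φ y i) E := fun i => (continuous_apply i).comp_continuousOn c
  have n1 : ∀ i, ContinuousOn (fun b => ‖Φ (out q b) i‖) B := fun i =>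
    h.contOn (c1 i).norm fun y hy => h.out_eq (F := fun y => ‖Φ y i‖)
      (fun θ y k => by rw [e θ y k, Pi.smul_apply, norm_smul, Circle.norm_coe, one_mul]) hy
  have n2 : ∀ i, ContinuousOn (fun b => star (Φ (out q b) i) • ζ (out q b)) B := fun i =>
    h.contOn ((c1 i).star.smul h.cont) fun y hy => h.out_eq (F := fun y => star (Φ y i) • ζ y)
      (fun θ y k => by
        rw [e θ y k, h.eqv θ y k, Pi.smul_apply, smul_eq_mul, smul_smul, star_mul', mul_right_comm,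
          Complex.star_def, ← Circle.coe_inv_eq_conj, ← Circle.coe_mul, inv_mul_cancel,
          Circle.coe_one, one_mul]) hy
  choose O hO eO using fun i => continuousOn_iff'.1 (n1 i) _ (isOpen_Ioi (a := 0))
  refine thZ_van_nil h.thZ2 h.lc hO (fun b hb => ?_)
    (s := fun i b => (b, star (Φ (out q b) i) • ζ (out q b)))
    (fun i => continuousOn_id.prodMk ((n2 i).mono inter_subset_left))
    (fun i b hb => ⟨?_, smul_ne_zero (star_ne_zero.2 ?_) (h.ne _ (h.out_mem hb.1))⟩)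
    (fun _ _ _ => rfl) fun j j1 j2 => (v j j1 j2).of_pul h.ZK_zb
  · obtain ⟨i, k⟩ := Function.ne_iff.1 (ne _ (h.out_mem hb))
    exact ⟨i, ((eO i).le ⟨norm_pos_iff.2 k, hb⟩).1⟩
  · have := h.mem_tot (h.out_mem hb.1) (star (Φ (out q b) i))
    rwa [q_out h.orb] at this
  · exact norm_pos_iff.1 ((eO i).ge ⟨hb.2, hb.1⟩).1

theorem tr_top {σ : H ({0}ᶜ : Set (Fin (n + 1) → ℂ)) univ}
    (hσ : dlt univ {0} σ = orient (Fin (n + 1))) :
    tr q ζ B univ (pull Φ E univ σ) = (-ee q ζ B) ^ n := by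
  have h' : CD s q Φ E B := ⟨h.orb, h.lc, h.pre, c, e, ne⟩
  have k := sd_univ q E B
  have em : EM s q E s q E id id 1 :=
    ⟨one_ne_zero, continuousOn_id, mapsTo_id _, fun _ _ _ => by simp, fun _ _ => rfl⟩
  have e1 := em.map_tr h' h k k (fun _ _ a => a) (pull Φ E univ σ)
  have e2 := em.map_ee h' h
  rw [pull_id, pull_id, Nat.cast_one, one_smul] at e1
  rw [pull_id, Nat.cast_one, one_smul] at e2
  have hm : Fintype.card (Fin (n + 1)) = 1 + n := by rw [Fintype.card_fin, add_comm]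
  have x1 : Ext (Prod.snd : Q × (Fin (n + 1) → ℂ) → _) univ := .of_continuous continuous_snd _
  have o1 : Ok Prod.snd (tot (Lq q Φ) B) (zs _ _) univ {0} :=
    .of_mem (x1.mono (subset_univ _)) (fun _ _ => trivial) fun _ _ k => k
  have o2 : Ok Prod.snd (tot (Lq q Φ) B \ zs _ _) univ {0}ᶜ univ :=
    .of_mem (x1.mono (subset_univ _)) (fun _ hy => hy.2) fun _ _ _ => trivial
  rw [e1, ← e2, ← pull_pull' (F := Φ) h'.ZK_zb.ok o2 fun _ _ => rfl, h'.tr_gys, h'.gysD.gys_eq,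
    ← pull_dlt x1 (subset_univ _) (subset_univ _) o1 o2 subset_rfl fun _ k => k.2, hσ,
    ZK_snd hm h'.cb, eu_compl h'.cb hm, ee]

end CD

end Pool.Agent.Work.MP_8c604c_gt.OT
end
end

-- merged part: Pool.Agent.Work.MP_8c604c_gt.OZ.Bs
section
/-!
The cohomology of `Xt` and of the Borel constructions `GB k` in low degrees (owner helper4).

Hints.  `Xt_deg`: `Xt_slX`, `S_deg`.  `gen_Xt`: `Xt_slX`, `slX_Xt` (pull-backs of integral classes are integral).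
`vX`: `van_Xt`, `van_S`.  `three_ut`: `tf_Xt`, `tf8_S`, `three_sq`, lift `uS` (`IsZ.exists_deg`), `cc_pull`, `TZ.pull_cup'`.
`van_odd`, `tf_two`, `int_even`, `ker8Z`: induction with `CD.van_base`, `CD.tf_base`, `CD.kerI` for `D.cdG k`
(`eB` is `ee (qB k) Prod.snd`, `van_neg`, `tf_zero`, `gen_one`, `isConnected_GB`); `eB` is even (`Evn.commH`).
`e_inj`: `CD.mul_inj`.  `deg_even`: `CD.even_eq`.  `ker8`: `CD.q_eq_zero'`.  `indep`: cancel `e` seven times, apply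
`pull (qB k)`, `CD.q_ee`, `CD.pow_ne`.
`down`: four times `CD.kerI` (the first step is given), then subtract a multiple of `z`.
`van_top`: `CD.van_nil` for `x ↦ D.Φ x.1.1` (`eqΦ`, `ac 1 θ x = (shS (θ ^ 1) x.1, θ • x.2)`).  `gen_Gam`: `CD.gen_tr`.
`tr_Φ`: `CD.tr_top`.  `kap_q`: `pull_pull'`, `kpB_q`.
-/

noncomputable section

set_option linter.unusedSectionVars false

namespace Pool.Agent.Work.MP_8c604c_gt.OT

open Set Topology Pool.Agent.Work.MP_849ab0_ag.G T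

variable {V : Type} [NormedAddCommGroup V] [InnerProductSpace ℝ V] [FiniteDimensional ℝ V]
  {𝕄 : Mf V} {k : ℕ} {p : ℤ}

namespace TD

variable (D : TD 𝕄 40) (Q : MT 𝕄)

/-- pull-back from the closed geodesics -/
def pS : H D.S univ →ₗ[ℂ] H D.Xt univ := pull (fun x : LA V 40 => x.1.1) D.Xt univ

/-- pull-back from the quotient -/
def pq (k : ℕ) : H (D.GB k) univ →ₗ[ℂ] H D.Xt univ := pull (qB k) D.Xt univ

/-- the class `u` upstairs -/
def ut : H D.Xt univ := D.pS (D.uS Q)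

/-- the top class of `GB 1` -/
def Gam : H (D.GB 1) univ := tB 1 (D.GB 1) univ (D.pS (D.sS Q))

include Q

theorem Xt_deg {a : H D.Xt univ} (ha : IsDeg p a) (h : p ≠ 0 ∧ p ≠ 8 ∧ p ≠ 23 ∧ p ≠ 31) (hp : p ≤ 80) :
    a = 0 := by
  rw [← D.Xt_slX one_mem_Sp ha (by push_cast; omega), D.S_deg Q (ha.pull _ _ _) h, map_zero]

omit Q in
theorem gen_Xt {a : H D.S univ} (ha : Gen p a) (hp : p ≤ 80) : Gen p (D.pS a) := by
  have hp' : p ≤ 2 * ((40 : ℕ) : ℤ) := by push_cast; omega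
  refine ⟨ha.isZ.pul _ _ _, ha.deg.pull _ _ _, fun e => ha.ne ?_, fun b hb db => ?_, fun b db => ?_⟩
  · rw [← D.slX_Xt one_mem_Sp a]
    exact (congrArg _ e).trans (map_zero _)
  · obtain ⟨n, e⟩ := ha.int _ (hb.pul (fun c : LM V => ((c, (1 : ℝ)), (1 : CM 40))) D.S univ)
      (db.pull _ _ _)
    exact ⟨n, by rw [← D.Xt_slX one_mem_Sp db hp', e, map_smul, pS]⟩
  · obtain ⟨n, e⟩ := ha.span _ (db.pull (fun c : LM V => ((c, (1 : ℝ)), (1 : CM 40))) D.S univ)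
    exact ⟨n, by rw [← D.Xt_slX one_mem_Sp db hp', e, map_smul, pS]⟩

theorem gen_ut : Gen 8 (D.ut Q) := D.gen_Xt (D.gen_uS Q) (by norm_num)

theorem vX (h : p ≠ 0 ∧ p ≠ 8 ∧ p ≠ 16) (h' : p ≠ 15 ∧ p ≠ 23 ∧ p ≠ 31) (hp : p ≤ 80) :
    Van p D.Xt univ := by
  exact D.van_Xt (D.van_S Q h h') (by push_cast; omega)

theorem tf8_Xt : Tf 8 D.Xt univ := by
  exact D.tf_Xt (D.tf8_S Q) (by norm_num)

theorem gen1_Xt : Gen 0 (1 : H D.Xt univ) := by
  have g := (thZ_gen_sp Q.thZ_T (gen_one Q.conn) (van_neg (by norm_num))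
    (van_neg (by norm_num))).pul D.zb_S
  rw [D.HS_pull Q, pull_oneH (D.ok_ev 1)] at g
  have k := D.gen_Xt g (by norm_num)
  rwa [pS, pull_oneH D.ok_Xt] at k

theorem gen1_GB : Gen 0 (1 : H (D.GB k) univ) := gen_one (D.isConnected_GB Q)

theorem three_ut {b : TZ.H ℤ D.Xt univ} (hb : TZ.IsDeg 8 b) (e : cc b = D.ut Q) :
    (3 : ℤ) • TZ.cup D.Xt univ b b = 0 := by
  obtain ⟨b0, d0, e0⟩ := (D.gen_uS Q).isZ.exists_deg (D.isDeg_uS Q)
  have k : b = TZ.pull (fun x : LA V 40 => x.1.1) D.Xt univ b0 :=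
    sub_eq_zero.1 (D.tf8_Xt Q _ (hb.sub (d0.pull _ _ _))
      (by rw [map_sub, cc_pull, e, e0]; exact sub_self _))
  have o := T.okZ D.ok_Xt
  rw [k, ← TZ.pull_cup' o o o (fun _ _ _ _ => trivial) (cupZ (cupU _ _)), ← map_zsmul,
    D.three_sq Q d0 e0, map_zero]

theorem van_odd (h : Odd p) (hp : p ≤ 13) : Van p (D.GB k) univ := by
  have key : ∀ n : ℕ, n ≤ 7 → Van (2 * (n : ℤ) - 1) (D.GB k) univ := by
    intro n
    induction n with
    | zero => exact fun _ => van_neg (by norm_num)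
    | succ n ih =>
      intro hn
      have e : 2 * ((n + 1 : ℕ) : ℤ) - 1 = 2 * (n : ℤ) - 1 + 2 := by push_cast; ring
      rw [e]
      exact (D.cdG k).van_base (D.vX Q (by omega) (by omega) (by omega)) (ih (by omega))
  rcases lt_or_ge p 0 with h0 | h0
  · exact van_neg h0
  · obtain ⟨r, rfl⟩ := h
    have e : 2 * r + 1 = 2 * ((r.toNat + 1 : ℕ) : ℤ) - 1 := by omega
    rw [e]
    exact key _ (by omega)

theorem tf_two : Tf 2 (D.GB k) univ := by
  exact (D.cdG k).tf_base (p := 0) tf_zero (D.vX Q (by omega) (by omega) (by omega))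
    (D.vX Q (by omega) (by omega) (by omega))

omit Q in
theorem Bs_deg : IsDeg 2 (eB (D.GB k)) := (D.cdG k).isDeg_ee

omit Q in
theorem Bs_comm (a : H (D.GB k) univ) : a * eB (D.GB k) = eB (D.GB k) * a :=
  (D.cdG k).evn_ee.commH a

omit Q in
/-- one step down -/
theorem Bs_step (v : Van (p + 2) D.Xt univ) {a : H (D.GB k) univ} (ha : IsZ a)
    (hd : IsDeg (p + 2) a) : ∃ b, IsZ b ∧ IsDeg p b ∧ a = b * eB (D.GB k) :=
  (D.cdG k).kerI (fun b hb _ => v ℤ b hb) ha hd (v.eq_zero (hd.pull _ _ _))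

theorem int_even {i : ℕ} (hi : i ≤ 3) {a : H (D.GB k) univ} (ha : IsZ a) (hd : IsDeg (2 * i) a) :
    ∃ n : ℤ, a = (n : ℂ) • eB (D.GB k) ^ i := by
  induction i generalizing a with
  | zero => simpa using (D.gen1_GB Q).int a ha (by simpa using hd)
  | succ i ih =>
    have e : 2 * ((i + 1 : ℕ) : ℤ) = 2 * (i : ℤ) + 2 := by push_cast; ring
    rw [e] at hd
    obtain ⟨b, h1, h2, rfl⟩ := D.Bs_step (D.vX Q (by omega) (by omega) (by omega)) ha hd
    obtain ⟨n, rfl⟩ := ih (by omega) h1 h2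
    exact ⟨n, by rw [smul_mul_assoc, pow_succ]⟩

theorem deg_even {i : ℕ} (hi : i ≤ 3) {a : H (D.GB k) univ} (hd : IsDeg (2 * i) a) :
    ∃ c : ℂ, a = c • eB (D.GB k) ^ i := by
  exact (D.cdG k).even_eq (D.isConnected_GB Q).2 i
    (fun j h1 h2 c hc => D.Xt_deg Q hc (by omega) (by omega)) hd

theorem ker8Z {a : H (D.GB k) univ} (ha : IsZ a) (hd : IsDeg 8 a) (e : D.pq k a = 0) :
    ∃ n : ℤ, a = (n : ℂ) • eB (D.GB k) ^ 4 := by
  obtain ⟨b, h1, h2, rfl⟩ := (D.cdG k).kerI (p := 6) (D.tf8_Xt Q) ha hd e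
  obtain ⟨n, rfl⟩ := D.int_even Q (i := 3) le_rfl h1 h2
  exact ⟨n, by rw [smul_mul_assoc, pow_succ _ 3]; rfl⟩

theorem ker8 {a : H (D.GB k) univ} (hd : IsDeg 8 a) (e : D.pq k a = 0) :
    ∃ c : ℂ, a = c • eB (D.GB k) ^ 4 := by
  obtain ⟨b, h2, rfl⟩ := (D.cdG k).q_eq_zero' (p := 6) (sd_univ _ _ _) hd e
  obtain ⟨n, rfl⟩ := D.deg_even Q (i := 3) le_rfl h2
  exact ⟨n, by rw [map_smul, pow_succ' _ 3]; rfl⟩

theorem e_inj {a : H (D.GB k) univ} (hd : IsDeg p a) (h : Even p) (hp : p ≤ 20)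
    (e : eB (D.GB k) * a = 0) : a = 0 := by
  obtain ⟨r, rfl⟩ := h
  exact (D.cdG k).mul_inj (fun c hc => D.Xt_deg Q hc (by omega) (by omega)) hd e

theorem Bs_cancel {w : H (D.GB k) univ} (hd : IsDeg 8 w) {n : ℕ} (hn : n ≤ 7)
    (e : eB (D.GB k) ^ n * w = 0) : w = 0 := by
  induction n with
  | zero => simpa using e
  | succ n ih =>
    rw [pow_succ', mul_assoc] at e
    exact ih (by omega) (D.e_inj Q (IsDeg.mulH (IsDeg.powH D.Bs_deg n) hd) ⟨n + 4, by ring⟩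
      (by omega) e)

omit Q in
theorem Bs_qe : D.pq k (eB (D.GB k) ^ 4) = 0 := by
  rw [pq, pull_pow (D.ok_qG k), eB, (D.cdG k).q_ee]
  exact zero_pow (by norm_num)

theorem indep {x : H (D.GB k) univ} (hd : IsDeg 8 x) (hx : D.pq k x = (2 : ℂ) • D.ut Q) {s t : ℂ}
    (e : s • eB (D.GB k) ^ 11 + t • (x * eB (D.GB k) ^ 7) = 0) : s = 0 ∧ t = 0 := by
  have c7 : x * eB (D.GB k) ^ 7 = eB (D.GB k) ^ 7 * x := (Commute.pow_right (D.Bs_comm x) 7).eq
  have d4 : IsDeg 8 (eB (D.GB k) ^ 4) := IsDeg.powH D.Bs_deg 4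
  have w0 : s • eB (D.GB k) ^ 4 + t • x = 0 := by
    refine D.Bs_cancel Q ((d4.smul s).add (hd.smul t)) le_rfl ?_
    rw [mul_add, mul_smul_comm, mul_smul_comm, ← pow_add, ← c7]
    exact e
  have h1 := congrArg (D.pq k) w0
  rw [map_add, map_smul, map_smul, D.Bs_qe, hx, smul_zero, zero_add, map_zero, smul_smul,
    smul_eq_zero] at h1
  have t0 : t = 0 := (mul_eq_zero.1 (h1.resolve_right (D.gen_ut Q).ne)).resolve_right two_ne_zero
  rw [t0, zero_smul, add_zero, smul_eq_zero] at w0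
  exact ⟨w0.resolve_right ((D.cdG k).pow_ne (D.isConnected_GB Q).1 4
    fun j _ c hc => D.Xt_deg Q hc (by omega) (by omega)), t0⟩

/-- integral classes of degree `14` -/
theorem down {z b : H (D.GB k) univ} (hz : IsZ z) (dz : IsDeg 8 z) (qz : D.pq k z = D.ut Q)
    (hb : IsZ b) (db : IsDeg 14 b) : ∃ A B : ℤ,
      b = ((A : ℂ) • eB (D.GB k) ^ 4 + (B : ℂ) • z) * eB (D.GB k) ^ 3 := by
  obtain ⟨b1, z1, d1, rfl⟩ := D.Bs_step (p := 12) (D.vX Q (by omega) (by omega) (by omega)) hb db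
  obtain ⟨b2, z2, d2, rfl⟩ := D.Bs_step (p := 10) (D.vX Q (by omega) (by omega) (by omega)) z1 d1
  obtain ⟨b3, z3, d3, rfl⟩ := D.Bs_step (p := 8) (D.vX Q (by omega) (by omega) (by omega)) z2 d2
  obtain ⟨B, hB⟩ := (D.gen_ut Q).int (D.pq k b3) (z3.pul _ _ _) (d3.pull _ _ _)
  obtain ⟨A, hA⟩ := D.ker8Z Q (z3.sub (hz.smul B)) (d3.sub (dz.smul _))
    (by rw [map_sub, map_smul, qz, hB, sub_self])
  refine ⟨A, B, ?_⟩
  rw [← hA, sub_add_cancel, mul_assoc, mul_assoc, pow_succ', sq]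

theorem three_z {z : H (D.GB k) univ} (hz : IsZ z) (dz : IsDeg 8 z) (qz : D.pq k z = D.ut Q) :
    ∃ A B : ℤ, (3 : ℂ) • z ^ 2 = ((A : ℂ) • eB (D.GB k) ^ 4 + (B : ℂ) • z) * eB (D.GB k) ^ 4 := by
  obtain ⟨w, dw, rfl⟩ := hz.exists_deg dz
  have o := T.okZ (D.ok_qG k)
  have d16 : TZ.IsDeg (14 + 2) ((3 : ℤ) • TZ.cup (D.GB k) univ w w) := (dw.cup dw _ _).smul 3
  obtain ⟨b, h1, h2, h3⟩ := (D.cdG k).kerZ d16 (by
    rw [map_zsmul, TZ.pull_cup' o o o (fun _ _ _ _ => trivial) (cupZ (cupU _ _))]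
    exact D.three_ut Q (dw.pull _ _ _) ((cc_pull _ _ _ _).trans qz))
  obtain ⟨A, B, rfl⟩ := D.down Q hz dz qz h1 h2
  refine ⟨A, B, ?_⟩
  rw [cc_zsmul, cc_cup, mul_assoc] at h3
  rw [pow_succ _ 3, sq]
  exact_mod_cast h3

omit Q in
theorem Bs_cΦ : ContinuousOn (fun x : LA V 40 => D.Φ x.1.1) D.Xt :=
  D.cΦ.comp (by fun_prop) fun _ h => h.1.1

omit Q in
theorem Bs_eΦ (θ : Circle) (y : LA V 40) (hy : y ∈ D.Xt) :
    D.Φ (ac 1 θ y).1.1 = (θ : ℂ) • D.Φ y.1.1 := by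
  simpa [ac, shS] using D.eqΦ θ _ hy.1.1

theorem van_top (hp : 31 ≤ p) (hp' : p ≤ 32) : Van p (D.GB 1) univ := by
  exact (D.cdG 1).van_nil (n := 15) D.Bs_cΦ D.Bs_eΦ (fun y hy => D.neΦ _ hy.1.1)
    fun j h1 h2 => D.vX Q (by omega) (by omega) (by omega)

theorem gen_Gam : Gen 30 (D.Gam Q) := by
  exact (D.cdG 1).gen_tr (p := 30) (D.gen_Xt (D.gen_sS Q) (by norm_num))
    (D.van_top Q (by norm_num) (by norm_num)) (D.van_top Q (by norm_num) (by norm_num))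

omit Q in
theorem tr_Φ {σ : H ({0}ᶜ : Set (Fin 16 → ℂ)) univ} (hσ : dlt univ {0} σ = orient (Fin 16)) :
    tB 1 (D.GB 1) univ (D.pS (pull D.Φ D.S univ σ)) = -eB (D.GB 1) ^ 15 := by
  have o : Ok D.Φ D.S univ ({0}ᶜ : Set (Fin 16 → ℂ)) univ :=
    ok_top D.cpt.isClosed.isLocallyClosed D.cΦ fun c hc => D.neΦ c hc
  rw [pS, pull_pull' (F := fun x : LA V 40 => D.Φ x.1.1) D.ok_Xt o fun _ _ => rfl,
    ← Odd.neg_pow (n := 15) ⟨7, rfl⟩]
  exact (D.cdG 1).tr_top (n := 15) D.Bs_cΦ D.Bs_eΦ (fun y hy => D.neΦ _ hy.1.1) hσ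

omit Q in
theorem kap_q {a : H (D.GB 1) univ} {b : H D.S univ} (e : D.pq 1 a = D.pS b) :
    D.pq 2 (pull kpB (D.GB 2) univ a) = D.pS b := by
  have o : Ok (fun x : LA V 40 => (x.1, x.2 * x.2)) D.Xt univ D.Xt univ :=
    .of_mem (.of_continuous (by fun_prop) _) (fun _ h => ⟨h.1, Sp_sq h.2⟩) fun _ _ _ => trivial
  have k := congrArg (pull (fun x : LA V 40 => (x.1, x.2 * x.2)) D.Xt univ) e
  rw [pq, pS, pull_pull' (F := fun x : LA V 40 => qB 1 (x.1, x.2 * x.2)) o (D.ok_qG 1) fun _ _ => rfl,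
    pull_pull' (F := fun x : LA V 40 => x.1.1) o D.ok_Xt fun _ _ => rfl] at k
  rw [pq, pS, pull_pull' (F := fun x : LA V 40 => qB 1 (x.1, x.2 * x.2)) (D.ok_qG 2) D.ok_kap
    fun x _ => kpB_q x, k]

/-- the product with the class of degree `23` -/
theorem z_tr {z : H (D.GB 1) univ} (dz : IsDeg 8 z) (qz : D.pq 1 z = D.ut Q) {c : H D.Xt univ}
    (dc : IsDeg 23 c)
    (g : Gen 31 (D.uS Q * pull (fun c : LM V => ((c, (1 : ℝ)), (1 : CM 40))) D.S univ c)) :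
    z * tB 1 (D.GB 1) univ c = D.Gam Q ∨ z * tB 1 (D.GB 1) univ c = -D.Gam Q := by
  have e1 : z * tB 1 (D.GB 1) univ c = tB 1 (D.GB 1) univ (c * D.ut Q) := by
    rw [← (IsDeg.evn dz ⟨4, rfl⟩).commH, ← qz]
    exact ((D.cdG 1).tr_mul c z).symm
  have e2 : c * D.ut Q =
      D.pS (D.uS Q * pull (fun c : LM V => ((c, (1 : ℝ)), (1 : CM 40))) D.S univ c) := by
    rw [(IsDeg.evn (D.gen_ut Q).deg ⟨4, rfl⟩).commH, pS, pull_mul D.ok_Xt,
      D.Xt_slX one_mem_Sp dc (by norm_num)]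
    rfl
  rw [e1, e2]
  rcases (D.gen_sS Q).eq_or g with k | k
  · exact .inl (by rw [k]; rfl)
  · exact .inr (by rw [k, map_neg, map_neg]; rfl)

end TD

end Pool.Agent.Work.MP_8c604c_gt.OT
end
end

-- merged part: Pool.Agent.Work.MP_8c604c_gt.OZ.Hel
section
/-!
The transfer of a class that comes from the nonzero vectors of a vector bundle (owner helper4).

Hints.  `contOn_polar`: `CQ.contOn'` for `((y, θ), r) ↦ (y, r θ)`, or directly: away from `t = 0` use `contOn_phs`; at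
`t = 0` the compactness of the circle (`IsCompact.eventually_forall_of_forall_eventually`).
`ok_nu`: as `o2` in the proof of `zb_io` (OT/Bor).  `io_nu`: `h.nu_q` with `t = 1`.
`thd_tr`: write `c = pull io c'` (`zb_io2`), apply `pull id _ (dsc Q J R)` to `tm_tr` (`res_dlt`, `res_cup_out`,
`thd_apply`); on the nonzero vectors `pull nu (pull io c')` is the restriction of `c'` because `pull io` is injective
(`zb_io'`) and `nu ∘ io = id`.
`hel`: `Ψ z = (F (nu z, min 1 ‖z.2‖), max 0 (‖z.2‖ - 1) • (v (nu z)).2)` on `tot (Lq q ζ) B`; it is continuous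
(`h.contOn_tot`, `contOn_polar`, `h.nu_q`, `phs 0` is harmless since `F (s θ y, 0) = mb (q y)`), maps into `totR W U`, and zero
vectors come from `dsc Q J 1`.  `w` from `CB.exists_thd`; `CB.zer_thd`, `CB.cup_thd`, `Ψ (zer b) = (mb b, 0)`; `pull_dlt`;
outside the disc `Ψ` is homotopic to `v ∘ nu` through positive multiples (`pull_htpy'`); `thd_tr`, `CB.thd_bij`.
Model: `gys_vp`, `psi_ee`, `psi_cup` in T/Psi.
-/

noncomputable section

set_option linter.unusedSectionVars false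

namespace Pool.Agent.Work.MP_8c604c_gt.OT

open Set Topology Pool.Agent.Work.MP_849ab0_ag.G T

theorem contOn_polar {Y X : Type} [TopologicalSpace Y] [TopologicalSpace X] {E : Set Y}
    {G : (Y × Circle) × ℝ → X} (c : ContinuousOn G ((E ×ˢ univ) ×ˢ Ici 0))
    (e : ∀ y ∈ E, ∀ θ, G ((y, θ), 0) = G ((y, 1), 0)) :
    ContinuousOn (fun z : Y × ℂ => G ((z.1, phs z.2), ‖z.2‖)) (E ×ˢ univ) := by
  rintro ⟨y, t⟩ hz
  by_cases ht : t = 0
  · subst ht
    intro N hN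
    have key := (isCompact_univ (X := Circle)).eventually_forall_of_forall_eventually
      (x₀ := ((y, 0) : Y × ℂ)) (P := fun z θ => z.1 ∈ E → G ((z.1, θ), ‖z.2‖) ∈ N) fun θ _ => by
      have h1 : ∀ᶠ p in 𝓝[(E ×ˢ univ) ×ˢ Ici 0] ((y, θ), (0 : ℝ)), G p ∈ N := by
        refine c _ ⟨⟨hz.1, trivial⟩, self_mem_Ici⟩ ?_
        rw [e y hz.1 θ, ← e y hz.1 (phs 0)]
        simpa only [norm_zero] using hN
      have h2 : Continuous fun p : (Y × ℂ) × Circle => ((p.1.1, p.2), ‖p.1.2‖) := by fun_prop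
      have h3 := h2.tendsto' ((y, 0), θ) ((y, θ), 0) (by simp)
      exact (h3.eventually (eventually_nhdsWithin_iff.1 h1)).mono fun p k hp =>
        k ⟨⟨hp, trivial⟩, norm_nonneg _⟩
    exact eventually_nhdsWithin_iff.2 (key.mono fun z k hz => k _ trivial hz.1)
  · have h1 : ContinuousAt (fun z : Y × ℂ => phs z.2) (y, t) :=
      ContinuousAt.comp (g := phs) (contOn_phs.continuousAt (isOpen_compl_singleton.mem_nhds ht))
        continuousAt_snd
    exact ContinuousWithinAt.comp (g := G) (f := fun z : Y × ℂ => ((z.1, phs z.2), ‖z.2‖))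
      (c _ ⟨⟨hz.1, trivial⟩, norm_nonneg _⟩)
      ((continuousAt_fst.prodMk h1).prodMk continuousAt_snd.norm).continuousWithinAt
      fun z k => ⟨⟨k.1, trivial⟩, norm_nonneg _⟩

section Disc

open Matrix

variable {X J : Type} [TopologicalSpace X] [Fintype J] {U : Set X} {r : ℕ}
  {P : X → Matrix J J ℂ} {R : ℝ} [RegularSpace X] [SecondCountableTopology X]

theorem Hel_zs (hR : 0 ≤ R) {y : X × (J → ℂ)} (hy : y ∈ zs X (J → ℂ)) : y ∈ dsc X J R :=
  (norm_eq_zero.2 hy).trans_le hR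

theorem Hel_cup (hR : 0 ≤ R) (A : Set (X × (J → ℂ))) :
    CupOK A univ A (zs X (J → ℂ)) A (dsc X J R) := cupOK fun _ _ _ k => Hel_zs hR k

theorem Hel_smul {y : X × (J → ℂ)} (hy : y ∈ tot P U) (c : ℝ) : (y.1, c • y.2) ∈ tot P U :=
  ⟨hy.1, (mulVec_smul _ c _).trans (congrArg _ hy.2)⟩

theorem Hel_zer (a : H U univ) : pull (zer J) U univ (pull Prod.fst (tot P U) univ a) = a :=
  (pull_pull' (F := id) (ok_zer P U _) (ok_totfst P U) (fun _ _ => rfl) a).trans (pull_id a)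

theorem Hel_bij (h : CB P r U) (hR : 0 ≤ R) : Function.Bijective (thd P r U R) := by
  have h1 : ∀ {t : ℝ}, t ∈ Icc (0 : ℝ) 1 → 0 ≤ t * (R + 1) := fun ht =>
    mul_nonneg ht.1 (by linarith)
  have h2 : ∀ {y : X × (J → ℂ)}, y ∉ dsc X J R → y.2 ≠ 0 := fun hy e => hy (Hel_zs hR e)
  have h3 := supp_bij_of_push (U := tot P U) (Z := dsc X J R) (Z₁ := zs X (J → ℂ))
    (F := fun y => (y.1.1, (1 + y.2 * (R + 1) / ‖y.1.2‖) • y.1.2)) (fun _ hy => ⟨hy.1, h2 hy.2⟩)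
    (ext_htpy h.lc_sp (ContinuousOn.prodMk (by fun_prop) (ContinuousOn.smul
      (continuousOn_const.add (ContinuousOn.div (by fun_prop) (by fun_prop)
        fun y hy => norm_ne_zero_iff.2 hy.1.2)) (by fun_prop))))
    (fun y hy t ht => ⟨Hel_smul hy.1 _, norm_pos_iff.1 ((add_pos_of_pos_of_nonneg
      (norm_pos_iff.2 hy.2) (h1 ht)).trans_eq (disc_norm hy.2 (h1 ht)).symm)⟩)
    (fun y hy t ht => ⟨Hel_smul hy.1 _, fun k => hy.2 ((le_add_of_nonneg_right (h1 ht)).trans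
      ((disc_norm (h2 hy.2) (h1 ht)).symm.trans_le k))⟩)
    (fun y _ => by simp) fun y hy => ⟨Hel_smul hy.1 _, fun k => by
      have := (disc_norm hy.2 (h1 (right_mem_Icc.2 zero_le_one))).symm.trans_le k
      linarith [norm_nonneg y.2]⟩
  have e : ⇑(thd P r U R) = pull id (tot P U) (dsc X J R) ∘ thm P r U := funext fun a =>
    (res_cup_out (.id subset_rfl fun _ _ => Hel_zs hR) (cupU _ _) _ _).symm
  rw [e]
  exact h3.comp h.thm_bij

theorem Hel_ex (h : CB P r U) (hR : 0 ≤ R) {p : ℤ} {c : H (tot P U) (dsc X J R)}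
    (hc : IsDeg (p + 2 * r) c) : ∃ a, IsDeg p a ∧ c = thd P r U R a := by
  obtain ⟨a, rfl⟩ := (Hel_bij h hR).2 c
  refine ⟨_, isDeg_prj p a, ?_⟩
  rw [thd_apply (prj _ _), pull_prj, cup_prj_left (t := {p + 2 * r}) (by simp) _ h.isThom_th.1]
  exact (isDeg_iff.1 hc).symm

theorem Hel_zer_thd (hR : 0 ≤ R) (a : H U univ) :
    pull (zer J) U univ (thd P r U R a) = a * eu P r U := by
  rw [thd_apply, pull_cup' (ok_zer P U _) (ok_zer P U _) (ok_zer P U _) (fun _ _ _ k => k)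
    (Hel_cup hR _), Hel_zer]
  rfl

theorem Hel_cup_thd (h : CB P r U) (hR : 0 ≤ R) (y : H (tot P U) univ) (a : H U univ) :
    cup (tot P U) (dsc X J R) y (thd P r U R a) = thd P r U R (pull (zer J) U univ y * a) := by
  obtain ⟨b, rfl⟩ := (Gys_bij h).2 y
  rw [Hel_zer, thd_apply, thd_apply, pull_mul (ok_totfst P U)]
  exact (cup_assoc (cupU _ _) (Hel_cup hR _) (Hel_cup hR _) (cupU _ _) _ _ _).symm

end Disc

variable {Y Q J : Type} [TopologicalSpace Y] [TopologicalSpace Q] [Fintype J] [Nonempty Y]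
  [RegularSpace Y] [SecondCountableTopology Y] [RegularSpace Q] [SecondCountableTopology Q]
  {s : Circle → Y → Y} {q : Y → Q} {ζ : Y → J → ℂ} {E : Set Y} {B : Set Q}

namespace CD

variable (h : CD s q ζ E B)
include h

theorem Hel_cn : ContinuousOn (nu s q ζ) (sp (Lq q ζ) B) := h.contOn_tot sdiff_subset
  (F := fun z => s (phs z.2) z.1) (h.orb.cont.comp_continuousOn ((contOn_phs.comp continuousOn_snd
    fun z a e => a.2.2 (by rw [show z.2 = 0 from e]; exact zero_smul _ _)).prodMk continuousOn_fst))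
  fun y a t b => h.nu_q a fun e => b.2 (by rw [e]; exact zero_smul _ _)

theorem Hel_mn {z : Q × (J → ℂ)} (hz : z.1 ∈ B) : nu s q ζ z ∈ E := h.act _ (h.out_mem hz)

theorem Hel_qn (z : Q × (J → ℂ)) : q (nu s q ζ z) = z.1 := (h.orb.q_s _ _).trans (q_out h.orb _)

theorem Hel_io {y : Y} (hy : y ∈ E) : nu s q ζ (io q ζ y) = y := by
  have := h.nu_q hy one_ne_zero
  rwa [one_smul, show phs 1 = 1 from phs_coe 1, h.orb.one] at this

theorem ok_nu : Ok (nu s q ζ) (sp (Lq q ζ) B) univ E univ := by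
  exact ok_top h.cb.lc_sp h.Hel_cn fun _ a => h.Hel_mn a.1.1

theorem thd_tr {R : ℝ} (hR : 0 ≤ R) (c : H E univ) :
    thd (Lq q ζ) 1 B R (tr q ζ B univ c) = dlt (tot (Lq q ζ) B) (dsc Q J R)
      (pull (nu s q ζ) (tot (Lq q ζ) B \ dsc Q J R) univ c) := by
  have k := sd_univ q E B
  obtain ⟨c, rfl⟩ := (h.zb_io2 k).bij.2 c
  have o : Ok id (tot (Lq q ζ) B) (dsc Q J R) (tot (Lq q ζ) B) (T0 J univ) :=
    .id subset_rfl fun _ _ a => Hel_zs hR a.2
  have s1 : tot (Lq q ζ) B \ dsc Q J R ⊆ sp (Lq q ζ) B := fun _ a => ⟨a.1, fun b => a.2 (Hel_zs hR b)⟩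
  have s2 : sp (Lq q ζ) B ⊆ tot (Lq q ζ) B \ T0 J univ := fun _ a => ⟨a.1, fun b => a.2 b.2⟩
  have o2 : Ok id (sp (Lq q ζ) B) univ (tot (Lq q ζ) B \ T0 J univ) (TW J univ) := ok_fgt s2
  have e1 : pull (nu s q ζ) (sp (Lq q ζ) B) univ (pull (io q ζ) E univ c) =
      pull id (sp (Lq q ζ) B) univ c := h.zb_io'.bij.1 (by
    rw [pull_pull' (F := id) h.zb_io'.ok h.ok_nu fun _ a => h.Hel_io a, pull_id,
      pull_res h.zb_io'.ok s2 fun _ _ _ => trivial])
  have e2 := congrArg (pull id (tot (Lq q ζ) B) (dsc Q J R)) (h.tm_tr k c)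
  rw [res_dlt o subset_rfl, tm_apply, res_cup_out o (cTW _ _)] at e2
  rw [← res_pull (W₁ := univ) h.ok_nu s1 fun _ _ _ => trivial, e1,
    res_pull (W₁ := univ) o2 s1 fun _ _ _ => trivial,
    dlt_res (ok_fgt (s1.trans s2)) subset_rfl]
  exact e2

theorem hel (hn : ∀ y ∈ E, ‖ζ y‖ = 1) {X A : Type} [TopologicalSpace X] [RegularSpace X]
    [SecondCountableTopology X] [NormedAddCommGroup A] [NormedSpace ℝ A] [FiniteDimensional ℝ A]
    {W : X → A →L[ℝ] A} {U : Set X} {τ : H (totR W U) (zs X A)} {d : ℤ} (hτ : IsDeg (d + 2) τ)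
    {mb : Q → X} (cm : ContinuousOn mb B) (mm : MapsTo mb B U) {v : Y → X × A} (cv : ContinuousOn v E)
    (mv : MapsTo v E (totR W U \ zs X A)) {F : Y × ℝ → X} (cF : ContinuousOn F (E ×ˢ Icc 0 1))
    (mF : MapsTo F (E ×ˢ Icc 0 1) U) (e : ∀ y ∈ E, F (y, 0) = mb (q y) ∧ F (y, 1) = (v y).1) :
    ∃ w : H B univ, IsDeg d w ∧
      w * ee q ζ B = pull mb B univ (pull (fun x => (x, (0 : A))) U univ τ) ∧
      ∀ (a : H U univ) (σ : H (totR W U \ zs X A) univ),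
        dlt (totR W U) (zs X A) σ = cup (totR W U) (zs X A) (pull Prod.fst (totR W U) univ a) τ →
          tr q ζ B univ (pull v E univ σ) = pull mb B univ a * w := by
  let G : Y → ℝ → X × A := fun y r => (F (y, min 1 r), max 0 (r - 1) • (v y).2)
  let Ψ : Q × (J → ℂ) → X × A := fun z => G (nu s q ζ z) ‖z.2‖
  have G0 : ∀ y ∈ E, G y 0 = (mb (q y), 0) := fun y hy => by
    simp only [G]
    rw [min_eq_right zero_le_one, (e y hy).1, max_eq_left (by norm_num), zero_smul]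
  have G1 : ∀ y ∈ E, ∀ r : ℝ, 1 ≤ r → G y r = ((v y).1, (r - 1) • (v y).2) := fun y hy r hr => by
    simp only [G]
    rw [min_eq_left hr, (e y hy).2, max_eq_right (sub_nonneg.2 hr)]
  have mI : ∀ r : ℝ, 0 ≤ r → min 1 r ∈ Icc (0 : ℝ) 1 := fun r hr =>
    ⟨le_min zero_le_one hr, min_le_left _ _⟩
  have cs : ContinuousOn (fun x : (Y × Circle) × ℝ => s x.1.2 x.1.1) ((E ×ˢ univ) ×ˢ Ici 0) :=
    (h.orb.cont.comp (f := fun x : (Y × Circle) × ℝ => (x.1.2, x.1.1)) (by fun_prop)).continuousOn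
  have cG : ContinuousOn (fun x : (Y × Circle) × ℝ => G (s x.1.2 x.1.1) x.2) ((E ×ˢ univ) ×ˢ Ici 0) :=
    (cF.comp (cs.prodMk (Continuous.continuousOn (by fun_prop)))
      fun x a => ⟨h.act _ a.1.1, mI _ a.2⟩).prodMk
      ((Continuous.continuousOn (by fun_prop)).smul (cv.comp cs fun x a => h.act _ a.1.1).snd)
  have cΨ : ContinuousOn Ψ (tot (Lq q ζ) B) := by
    refine h.contOn_tot subset_rfl ((contOn_polar cG fun y hy θ => ?_).mono fun z a => ⟨a.1, trivial⟩)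
      fun y hy t _ => ?_
    · rw [G0 _ (h.act _ hy), G0 _ (h.act _ hy), h.orb.q_s, h.orb.q_s]
    · simp only [Ψ]
      rw [norm_smul, hn y hy, mul_one]
      by_cases ht : t = 0
      · rw [ht, norm_zero, G0 _ (h.act _ hy), G0 _ (h.Hel_mn (h.maps hy)), h.Hel_qn, h.orb.q_s]
      · rw [h.nu_q hy ht]
  have ok : Ok Ψ (tot (Lq q ζ) B) (dsc Q J 1) (totR W U) (zs X A) := by
    refine ok_of h.cb.lc_tot cΨ (fun z a => ⟨mF ⟨h.Hel_mn a.1, mI _ (norm_nonneg _)⟩, ?_⟩)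
      fun z a b => (le_of_not_gt fun k => ?_ : ‖z.2‖ ≤ 1)
    · simp only [Ψ]
      rcases le_total 1 ‖z.2‖ with k | k
      · rw [G1 _ (h.Hel_mn a.1) _ k, map_smul, (mv (h.Hel_mn a.1)).1.2]
      · simp only [G]
        rw [max_eq_left (sub_nonpos.2 k), zero_smul, map_zero]
    · have b' : (G (nu s q ζ z) ‖z.2‖).2 = 0 := b
      rw [G1 _ (h.Hel_mn a.1) _ k.le] at b'
      exact smul_ne_zero (sub_pos.2 k).ne' (mv (h.Hel_mn a.1)).2 b'
  have Ψ0 : ∀ b ∈ B, Ψ (zer J b) = (mb b, 0) := fun b hb => by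
    simp only [Ψ, zer]
    rw [norm_zero, G0 _ (h.Hel_mn hb), h.Hel_qn]
  have om : Ok mb B univ U univ := ok_top h.lc cm mm
  have oz : Ok (fun x => (x, (0 : A))) U univ (totR W U) (zs X A) :=
    .of_mem (.of_continuous (by fun_prop) _) (fun _ k => ⟨k, map_zero _⟩) fun _ _ _ => trivial
  obtain ⟨w, hw, ew⟩ := Hel_ex h.cb zero_le_one (p := d)
    (c := pull Ψ (tot (Lq q ζ) B) (dsc Q J 1) τ) (by simpa using hτ.pull _ _ _)
  refine ⟨w, hw, ?_, fun a σ hσ => (Hel_bij h.cb zero_le_one).1 ?_⟩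
  · rw [ee, ← Hel_zer_thd zero_le_one, ← ew, pull_pull' (ok_zer _ _ _) ok Ψ0,
      pull_pull' (F := fun b => (mb b, (0 : A))) om oz fun _ _ => rfl]
  · have s1 : tot (Lq q ζ) B \ dsc Q J 1 ⊆ sp (Lq q ζ) B :=
      fun _ a => ⟨a.1, fun b => a.2 (Hel_zs zero_le_one b)⟩
    have lc : IsLocallyClosed (tot (Lq q ζ) B \ dsc Q J 1) :=
      h.cb.lc_tot.inter isClosed_dsc.isOpen_compl.isLocallyClosed
    have cn : ContinuousOn (fun z => v (nu s q ζ z)) (tot (Lq q ζ) B \ dsc Q J 1) :=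
      cv.comp (h.Hel_cn.mono s1) fun _ a => h.Hel_mn a.1.1
    have cn' : ContinuousOn (fun x : (Q × (J → ℂ)) × ℝ => v (nu s q ζ x.1))
        ((tot (Lq q ζ) B \ dsc Q J 1) ×ˢ Icc 0 1) := cn.comp continuousOn_fst fun _ a => a.1
    have ht := pull_htpy' (f := fun z => v (nu s q ζ z)) (g := Ψ) (U := tot (Lq q ζ) B \ dsc Q J 1)
      (Z := univ) (U' := totR W U \ zs X A) (Z' := univ)
      (F := fun x => ((v (nu s q ζ x.1)).1, (1 - x.2 + x.2 * (‖x.1.2‖ - 1)) • (v (nu s q ζ x.1)).2))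
      (ext_htpy lc (cn'.fst.prodMk ((Continuous.continuousOn (by fun_prop)).smul cn'.snd)))
      (fun z a t ht => by
        obtain ⟨m1, m2⟩ := mv (h.Hel_mn a.1.1)
        refine ⟨⟨m1.1, (map_smul _ _ _).trans (congrArg _ m1.2)⟩, smul_ne_zero (ne_of_gt ?_) m2⟩
        have : 0 < ‖z.2‖ - 1 := sub_pos.2 (lt_of_not_ge a.2)
        rcases ht.2.lt_or_eq with k | rfl
        · nlinarith [mul_nonneg ht.1 this.le]
        · simpa using this)
      (fun _ _ _ _ _ => trivial) (fun z _ => by simp) fun z a => by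
        simp only [Ψ]
        rw [G1 _ (h.Hel_mn a.1.1) _ (lt_of_not_ge a.2).le, sub_self, zero_add, one_mul]
    rw [h.thd_tr zero_le_one, pull_pull' (F := fun z => v (nu s q ζ z))
        (ok_top lc (h.Hel_cn.mono s1) fun _ a => h.Hel_mn a.1.1) (ok_top h.lcE cv mv) fun _ _ => rfl,
      ht, ← pull_dlt (Z₁ := univ) (Z₁' := univ) ok.ext subset_rfl sdiff_subset ok
        (.of_mem (ok.ext.mono sdiff_subset) ok.supp fun _ _ _ => trivial) subset_rfl subset_rfl,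
      hσ, pull_cm ok, ew, Hel_cup_thd h.cb zero_le_one, pull_pull (Ok.top ok) ok_fstR,
      pull_pull' (F := mb) (ok_zer _ _ _) (ok_fstR.comp (Ok.top ok))
        fun b hb => congrArg Prod.fst (Ψ0 b hb)]

end CD

end Pool.Agent.Work.MP_8c604c_gt.OT
end
end

-- merged part: Pool.Agent.Work.MP_8c604c_gt.OZ.Up
section
/-!
The nonzero vectors of the first negative bundle, upstairs and downstairs (owner helper4).

Hints.  `T1u = totR (fun x => D.K (pj x)) D.Xt` by `rfl`.  `rb_Ku` from `cK`, `idK`, `rkK`, `pj_mem`.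
`exists_gdu`: `RB.exists_ori`, `sgnTriv_of_van`, `vX`, `gysD_thR`.
`q_π`: `pull_pull'` twice (`D.cdP.ok_q'`, `ok_π`, `ok_πu`, `ok_qG`).  `q_yp`: `exists_Hh`, `pull_htpy'`, `ext_htpy`, `D.cdP.lcE`.
`πu_inj`: `gysD_ker` (OS/St2), `Xt_deg` in degree `1`.  `P1u_deg`: `GysD.gys_deg`, `Xt_deg` in degrees `9`, `15`,
`GysD.gys_eq_zero`, `pull_prj`.
`em_π`: `pow_one`.  `ee_P`, `tr_P`: `EM.map_ee`, `EM.map_tr` (OT/Bor2) with `em_π`, `D.cdG 1`, `D.cdP`.
`eP_inj`: `CD.mul_inj` for `D.cdP`.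
`exists_w`: `CD.hel` for `D.cdP`, `W = 𝕄.tp`, `U = 𝕄.M`, `τ = 𝕄.tT` (`Tt = totR tp M` by `rfl`), `mb = D.mq`,
`v z = (z.1.1.1 1, D.vel z.1.1.1)`, `F` from `exists_Hh`, `a = Q.y ^ 2`, `σ = Q.sig` (`dlt_sig`); `eT_eq`; `tr_P`.
-/

noncomputable section

set_option linter.unusedSectionVars false

namespace Pool.Agent.Work.MP_8c604c_gt.OT

open Set Topology Pool.Agent.Work.MP_849ab0_ag.G T

variable {V : Type} [NormedAddCommGroup V] [InnerProductSpace ℝ V] [FiniteDimensional ℝ V]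
  {𝕄 : Mf V} {p : ℤ}

namespace TD

variable (D : TD 𝕄 40) (Q : MT 𝕄)

theorem ok_π : Ok Prod.fst D.P1 univ (D.GB 1) univ :=
  .of_mem (.of_continuous continuous_fst _) (fun _ h => h.1.1) fun _ _ _ => trivial

theorem ok_πu : Ok Prod.fst D.P1u univ D.Xt univ :=
  .of_mem (.of_continuous continuous_fst _) (fun _ h => h.1.1) fun _ _ _ => trivial

/-- pull-back to the nonzero vectors -/
def pπ : H (D.GB 1) univ →ₗ[ℂ] H D.P1 univ := pull Prod.fst D.P1 univ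

theorem rb_Ku : RB (fun x : LA V 40 => D.K (pj x)) 7 D.Xt := by
  exact ⟨D.isCompact_Xt.isClosed.isLocallyClosed, D.cK.comp continuous_pj.continuousOn fun _ => pj_mem,
    fun _ h => D.idK _ (pj_mem h), fun _ h => D.rkK _ (pj_mem h)⟩

include Q in
theorem exists_gdu : ∃ (τ : H D.T1u (zs _ _)) (e : H D.Xt univ),
    GysD Prod.fst D.T1u (zs _ _) D.Xt τ 7 e := by
  obtain ⟨o, ho⟩ := D.rb_Ku.exists_ori
    (sgnTriv_of_van D.isCompact_Xt (D.vX Q (by omega) (by omega) (by omega)))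
  exact ⟨_, _, gysD_thR D.rb_Ku ho⟩

theorem q_π (a : H (D.GB 1) univ) : pull (Prod.map (qB 1) id) D.P1u univ (D.pπ a) =
    pull Prod.fst D.P1u univ (D.pq 1 a) := by
  exact (pull_pull' (F := fun z => qB 1 z.1) D.cdP.ok_q' D.ok_π (fun _ _ => rfl) a).trans
    (pull_pull' D.ok_πu (D.ok_qG 1) (fun _ _ => rfl) a).symm

theorem q_yp : pull (Prod.map (qB 1) id) D.P1u univ (D.yp Q) = pull Prod.fst D.P1u univ (D.ut Q) := by
  obtain ⟨F, cF, mF, e⟩ := D.exists_Hh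
  rw [yp, pull_pull' (F := fun z => D.mq (qB 1 z.1, z.2)) D.cdP.ok_q' D.ok_mq fun _ _ => rfl,
    pull_htpy' (g := fun z => z.1.1.1 1) (Z := univ) (ext_htpy D.cdP.lcE cF)
      (fun _ hx _ ht => mF ⟨hx, ht⟩) (fun _ _ _ _ _ => trivial)
      (fun x hx => (e x hx).1) fun x hx => (e x hx).2, ut, pS, TD0.uS,
    pull_pull' (F := fun x : LA V 40 => x.1.1 1) D.ok_Xt (D.ok_ev 1) fun _ _ => rfl]
  exact (pull_pull' D.ok_πu ((D.ok_ev 1).comp D.ok_Xt) (fun _ _ => rfl) _).symm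

include Q in
theorem πu_inj {a : H D.Xt univ} (ha : IsDeg 8 a) (e : pull Prod.fst D.P1u univ a = 0) : a = 0 := by
  obtain ⟨τ, e', G⟩ := D.exists_gdu Q
  obtain ⟨b, hb, rfl⟩ := OS.gysD_ker G ha e
  rw [D.Xt_deg Q hb (by omega) (by omega), zero_mul]

include Q in
theorem P1u_deg (c : H D.P1u univ) (hc : IsDeg 15 c) : c = 0 := by
  obtain ⟨τ, e', G⟩ := D.exists_gdu Q
  obtain ⟨a, rfl⟩ := (G.gys_eq_zero c).1
    (D.Xt_deg Q (G.gys_deg (p := 9) hc (by norm_num)) (by omega) (by omega))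
  refine (isDeg_iff.1 hc).symm.trans ((pull_prj _ a).symm.trans ?_)
  rw [D.Xt_deg Q (isDeg_prj 15 a) (by omega) (by omega), map_zero]

theorem em_π : EM (fun θ (z : LA V 40 × RN D.N) => (ac 1 θ z.1, z.2)) (Prod.map (qB 1) id) D.P1u
    (ac 1) (qB 1) D.Xt Prod.fst Prod.fst 1 := by
  exact ⟨one_ne_zero, continuousOn_fst, fun _ h => h.1.1, fun _ _ _ => by rw [pow_one], fun _ _ => rfl⟩

theorem ee_P : ee (Prod.map (qB 1) id) (fun z : LA V 40 × RN D.N => z.1.2) D.P1 =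
    D.pπ (eB (D.GB 1)) := by
  have := D.em_π.map_ee (D.cdG 1) D.cdP
  rw [Nat.cast_one, one_smul] at this
  exact this.symm

theorem tr_P (c : H D.Xt univ) : tr (Prod.map (qB 1) id) (fun z : LA V 40 × RN D.N => z.1.2) D.P1 univ
    (pull Prod.fst D.P1u univ c) = D.pπ (tB 1 (D.GB 1) univ c) := by
  have := D.em_π.map_tr (D.cdG 1) D.cdP (sd_univ _ _ _) (sd_univ _ _ _) (fun _ _ _ => trivial) c
  rwa [Nat.cast_one, one_smul] at this

include Q in
theorem eP_inj {a : H D.P1 univ} (ha : IsDeg 14 a) (e : D.pπ (eB (D.GB 1)) * a = 0) : a = 0 := by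
  exact D.cdP.mul_inj (p := 14) (D.P1u_deg Q) ha (by rw [D.ee_P, e])

theorem exists_w : ∃ (w : H D.P1 univ) (ε : ℤ), (ε = 1 ∨ ε = -1) ∧ IsDeg 14 w ∧
    w * D.pπ (eB (D.GB 1)) = (3 * ε : ℂ) • D.yp Q ^ 2 ∧ D.pπ (D.Gam Q) = D.yp Q ^ 2 * w := by
  obtain ⟨F, cF, mF, e⟩ := D.exists_Hh
  have o : Ok (fun z : LA V 40 × RN D.N => z.1.1.1) D.P1u univ D.S univ := D.ok_Xt.comp D.ok_πu
  obtain ⟨w, dw, h1, h2⟩ := D.cdP.hel (fun _ hy => mem_sphere_zero_iff_norm.1 hy.1.1.2) (W := 𝕄.tp)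
    (U := 𝕄.M) (τ := 𝕄.tT) (d := 14) Q.gysD_T.deg D.cont_mq D.mq_mem
    (v := fun z => (z.1.1.1 1, D.vel z.1.1.1))
    (ContinuousOn.prodMk (Continuous.continuousOn (by fun_prop)) (D.cvel.comp (by fun_prop) o.maps))
    (D.zb_S.ok.comp o).maps cF mF e
  have h3 : w * D.pπ (eB (D.GB 1)) = pull D.mq D.P1 univ 𝕄.eT := D.ee_P ▸ h1
  have h4 : D.pπ (D.Gam Q) = D.yp Q ^ 2 * w := by
    rw [yp, ← pull_pow D.ok_mq, ← h2 _ _ Q.dlt_sig, Gam, ← tr_P, pS, TD0.sS,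
      pull_pull' (F := fun z => z.1.1.1) D.ok_πu D.ok_Xt fun _ _ => rfl,
      pull_pull' o D.zb_S.ok fun _ _ => rfl]
    rfl
  rcases D.eT_eq Q with k | k
  · exact ⟨w, 1, .inl rfl, dw, by rw [h3, k, map_smul, pull_pow D.ok_mq, yp]; simp, h4⟩
  · exact ⟨w, -1, .inr rfl, dw, by rw [h3, k, map_neg, map_smul, pull_pow D.ok_mq, yp]; simp, h4⟩

end TD

end Pool.Agent.Work.MP_8c604c_gt.OT
end
end
end

-- merged part: Pool.Agent.Work.MP_8c604c_gt.OZ.P2
section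
/-!
The second Pontryagin class of the bundle `WF` (owner helper80).

`PF` is the complement of `WF` in the tangent bundle of the first factor.  The bilinear map gives a complex structure on
`WF` over the two-frames of `PF ∘ swap`, so `a = p - 2 s e` dies on the nonzero vectors of `PF ∘ swap` (`pencil`).
The class `u - v` dies on the nonzero vectors of `WF ∘ swap`, so `(u - v) a` dies on the nonzero tangent vectors of the
second factor and is a multiple of `v ^ 2`; hence `a` is a multiple of `u + 2 v`.  The class `p` is symmetric.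
-/

noncomputable section

set_option linter.unusedSectionVars false

namespace Pool.Agent.Work.MP_8c604c_gt.OT

open Set Pool.Agent.Work.MP_849ab0_ag.G T OS

variable {V : Type} [NormedAddCommGroup V] [InnerProductSpace ℝ V] [FiniteDimensional ℝ V]
  {𝕄 : Mf V} {k : ℕ}

theorem P2_lc {X B : Type} [TopologicalSpace X] [TopologicalSpace B] [T1Space B] [Zero B] {U : Set X}
    (hU : IsLocallyClosed U) {f : X → B} (hf : ContinuousOn f U) :
    IsLocallyClosed {x | x ∈ U ∧ f x ≠ 0} := by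
  obtain ⟨O, hO, e⟩ := continuousOn_iff'.1 hf {0}ᶜ isOpen_compl_singleton
  have : {x | x ∈ U ∧ f x ≠ 0} = U ∩ O := by
    rw [inter_comm U, ← e]
    exact Set.ext fun x => and_comm
  rw [this]
  exact hU.inter hO.isLocallyClosed

namespace TD0

/-- a nonzero vector of `Ws` gives a geodesic between the two points -/
theorem P2_htpy (D : TD0 𝕄 k) (Q : MT 𝕄) {T : Type} [TopologicalSpace T] [RegularSpace T]
    [SecondCountableTopology T] {A : Set T} (hA : IsLocallyClosed A) {f : T → V × V} {φ : T → V}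
    (hf : ContinuousOn f A) (hφ : ContinuousOn φ A)
    (m : ∀ z ∈ A, f z ∈ D.F ∧ φ z ∈ D.Ws (f z) ∧ φ z ≠ 0) :
    pull (fun z => (f z).1) A univ Q.y = pull (fun z => (f z).2) A univ Q.y := by
  have t : ∀ z ∈ A, ((f z).1, φ z) ∈ 𝕄.Tt := fun z h => D.Ws_tan (m z h).1 (m z h).2.1
  have c : ContinuousOn (fun w : T × ℝ => D.gc ((f w.1).1, φ w.1)) (A ×ˢ Icc 0 1) :=
    D.cont_gc.comp ((hf.fst.prodMk hφ).comp continuousOn_fst fun _ h => h.1)
      fun w h => ⟨t _ h.1, (m _ h.1).2.2⟩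
  rw [pull_htpy' (F := fun w : T × ℝ => D.gc ((f w.1).1, φ w.1) (cs (w.2 * (Real.pi / 2))))
      (Z := univ) (f := fun z => (f z).1) (g := fun z => (f z).2)
      (ext_htpy hA (c.eval (continuous_cs.comp (by fun_prop)).continuousOn))
      (fun z h _ _ => D.mem _ (D.gc_spec (t z h) (m z h).2.2).1 _) (fun _ _ _ _ _ => trivial)
      (fun z h => by simpa only [zero_mul, cs_zero] using (D.gc_spec (t z h) (m z h).2.2).2.1)
      fun z h => by
        rw [one_mul]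
        exact congrArg Prod.snd (D.en_gc (m z h).1 (m z h).2.1 (m z h).2.2)]

theorem cp_swap (D : TD0 𝕄 k) :
    (cp (cx D.WF) (k + 1) D.F).map (pR D.ok_swap) = cp (cx D.WF) (k + 1) D.F := by
  have b1 : BMap D.VV D.F D.WF D.F id fun _ => WithLp.fstL 2 ℝ V V :=
    ⟨continuousOn_id, mapsTo_id _, continuousOn_const,
      fun y hy a h => D.WF_eq.2 (D.Vs_fst hy (D.VV_eq.1 h)).1,
      fun y hy a h => (D.Vs_fst hy (D.VV_eq.1 h)).2⟩
  have b2 : BMap D.VV D.F D.WF D.F Prod.swap fun _ => WithLp.sndL 2 ℝ V V :=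
    ⟨continuous_swap.continuousOn, fun _ h => D.swap_F h, continuousOn_const,
      fun y hy a h => D.WF_eq.2 (D.Vs_snd hy (D.VV_eq.1 h)).1,
      fun y hy a h => (D.Vs_snd hy (D.VV_eq.1 h)).2⟩
  rw [cp_cx_map D.rb_WF D.rb_VV b2 D.ok_swap, ← cp_cx_map D.rb_WF D.rb_VV b1 .refl, pR_id,
    Polynomial.map_id]

variable (D : TD0 𝕄 7) (Q : MT 𝕄)

/-- the complement of `WF` in the tangent bundle -/
def PF : V × V → V →L[ℝ] V := Cpl (fun y => 𝕄.tp y.1) D.WF

theorem rb_T1 : RB (fun y : V × V => 𝕄.tp y.1) (8 + 8) D.F :=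
  𝕄.rb.comp D.lc_F continuousOn_fst fun _ h => (D.F_MM h).1

theorem rb_T2 : RB (fun y : V × V => 𝕄.tp y.2) 16 D.F :=
  𝕄.rb.comp D.lc_F continuousOn_snd fun _ h => (D.F_MM h).2

theorem tp_WF {y : V × V} (hy : y ∈ D.F) (a : V) : 𝕄.tp y.1 (D.WF y a) = D.WF y a :=
  (D.Ws_tan hy (D.WF_eq.1 (D.rb_WF.idem y hy a))).2

theorem rb_PF : RB D.PF 8 D.F := rb_sub D.rb_T1 D.rb_WF fun _ => D.tp_WF

theorem PF_fix {y : V × V} (hy : y ∈ D.F) {a : V} :
    D.PF y a = a ↔ 𝕄.tp y.1 a = a ∧ D.WF y a = 0 := cpl_fix D.rb_T1 D.rb_WF (fun _ => D.tp_WF) hy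

theorem rb_PF' : RB (fun y => D.PF y.swap) 8 D.F :=
  D.rb_PF.comp D.lc_F continuous_swap.continuousOn fun _ h => D.swap_F h

theorem inW_iff {y : V × V} (hy : y ∈ D.F) {a : V} : D.InW y a ↔ D.WF y a = a :=
  (D.WF_eq.trans (D.mem_Ws hy)).symm

include Q in
theorem P2_pencil (hb : D.Bil) : ∃ s : ℤ, (s = 1 ∨ s = -1) ∧
    pull Prod.fst (totR (fun y => D.PF y.swap) D.F \ zs (V × V) V) univ
      (((cp (cx D.WF) 8 D.F).coeff 4 : H D.F univ) - (2 * s : ℂ) • euR D.WF 8 D.oF D.F) = 0 := by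
  obtain ⟨be, cb, hb⟩ := hb
  obtain ⟨o', ho'⟩ := D.rb_PF'.exists_ori (D.sgnTriv_F Q)
  refine pencil D.rb_WF (D.ori_F Q) D.rb_PF D.rb_PF' ho' (gen_one (D.isConnected_F Q.conn))
    (D.van_F Q (by norm_num) (by norm_num)) (D.van_F Q (by norm_num) (by norm_num))
    (D.van_F Q (by norm_num) (by norm_num))
    (m := fun y => (ContinuousLinearMap.compL ℝ V V V (D.PF y)).comp (be y))
    (((ContinuousLinearMap.compL ℝ V V V).continuous.comp_continuousOn D.rb_PF.cont).clm_comp cb)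
    (fun y hy u w => D.rb_PF.idem y hy _) fun y hy u w hu hw e => ?_
  by_contra n
  rw [not_or] at n
  obtain ⟨h1, h2⟩ := (D.PF_fix (D.swap_F hy)).1 hu
  obtain ⟨h3, h4⟩ := hb y hy u w ⟨(D.F_MM hy).2, h1⟩
    (fun i => n.1 (((D.inW_iff (D.swap_F hy)).1 i).symm.trans h2)) ((D.inW_iff hy).2 hw) n.2
  refine h4 ((D.inW_iff hy).2 ?_)
  change 𝕄.tp y.1 (be y u w) - D.WF y (𝕄.tp y.1 (be y u w)) = 0 at e
  rw [h3.2] at e
  exact (sub_eq_zero.1 e).symm

/-- a class that dies on the nonzero vectors of `PF ∘ swap` -/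
theorem P2_ker {a : H D.F univ} (ha : IsDeg 8 a)
    (e : pull Prod.fst (totR (fun y => D.PF y.swap) D.F \ zs (V × V) V) univ a = 0) :
    ∃ c : ℂ, pull id D.F univ (Q.uu - Q.vv) * a = c • pull id D.F univ (Q.vv ^ 2) := by
  set T' := totR (fun y : V × V => 𝕄.tp y.2) D.F \ zs (V × V) V with hT
  have lT : IsLocallyClosed T' := D.rb_T2.lc_nz
  have ho : Ori (fun y : V × V => 𝕄.tp y.2) 16 D.F fun y => 𝕄.oT y.2 :=
    Q.ori_T.comp continuousOn_snd fun _ h => (D.F_MM h).2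
  have g := gysD_thR D.rb_T2 ho
  have sw : ∀ {W : V × V → V →L[ℝ] V}, ContinuousOn W D.F →
      ContinuousOn (fun z : (V × V) × V => W z.1.swap z.2) T' := fun h =>
    (h.comp (continuous_swap.comp continuous_fst).continuousOn
      fun _ k => D.swap_F k.1.1).clm_apply continuousOn_snd
  have k1 : pull id {z | z ∈ T' ∧ D.WF z.1.swap z.2 ≠ 0} univ
      (pull Prod.fst T' univ (pull id D.F univ (Q.uu - Q.vv))) = 0 := by
    have l := P2_lc lT (sw D.rb_WF.cont)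
    have o : Ok Prod.fst {z | z ∈ T' ∧ D.WF z.1.swap z.2 ≠ 0} univ 𝕄.MM univ :=
      ok_top l continuousOn_fst fun _ h => D.F_MM h.1.1.1
    rw [res_pull g.ok0 (fun _ h => h.1) fun _ _ h => h, pull_res (ok_top l continuousOn_fst
      fun _ h => h.1.1.1) D.F_MM fun _ _ h => h, map_sub, Q.pull_uu o, Q.pull_vv o, sub_eq_zero]
    exact (D.P2_htpy Q l (f := fun z => z.1.swap) (continuous_swap.comp continuous_fst).continuousOn
      ((sw D.rb_WF.cont).mono fun _ h => h.1) fun z h => ⟨D.swap_F h.1.1.1,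
        D.WF_eq.1 (D.rb_WF.idem _ (D.swap_F h.1.1.1) _), h.2⟩).symm
  have k2 : pull id {z | z ∈ T' ∧ D.PF z.1.swap z.2 ≠ 0} univ (pull Prod.fst T' univ a) = 0 := by
    have l := P2_lc lT (sw D.rb_PF.cont)
    have o : Ok (fun z => (z.1, D.PF z.1.swap z.2)) {z | z ∈ T' ∧ D.PF z.1.swap z.2 ≠ 0} univ
        (totR (fun y => D.PF y.swap) D.F \ zs (V × V) V) univ :=
      ok_top l (continuousOn_fst.prodMk ((sw D.rb_PF.cont).mono fun _ h => h.1))
        fun _ h => ⟨⟨h.1.1.1, D.rb_PF.idem _ (D.swap_F h.1.1.1) _⟩, h.2⟩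
    rw [res_pull g.ok0 (fun _ h => h.1) fun _ _ h => h, ← pull_pull' (F := Prod.fst) o
      (ok_top D.rb_PF'.lc_nz continuousOn_fst fun _ h => h.1.1) (fun _ _ => rfl) a, e, map_zero]
  have k := lsa_cov (by
    refine Subset.antisymm (union_subset (fun _ h => h.1) fun _ h => h.1) fun z hz => ?_
    by_contra n
    simp only [mem_union, mem_ofPred_eq, hz, true_and, not_or, not_not] at n
    have := n.2
    rw [PF, cpl_apply, show 𝕄.tp z.1.swap.1 z.2 = z.2 from hz.1.2, n.1, sub_zero] at this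
    exact hz.2 this) k1 k2
  rw [← pull_mul g.ok0] at k
  obtain ⟨b, hb, eb⟩ := gysD_ker g (IsDeg.mulH ((Q.isDeg_uu.sub Q.isDeg_vv).pull _ _ _) ha) k
  obtain ⟨c, rfl⟩ := deg0_const (D.isConnected_F Q.conn).isPreconnected (by simpa using hb)
  have os : Ok Prod.snd D.F univ 𝕄.M univ := ok_top D.lc_F continuousOn_snd fun _ h => (D.F_MM h).2
  have ee : euR (fun y : V × V => 𝕄.tp y.2) 16 (fun y => 𝕄.oT y.2) D.F =
      pull Prod.snd D.F univ 𝕄.eT :=
    (pull_euR 𝕄.rb Q.ori_T D.rb_T2 ho (B := fun _ => 1) ⟨continuousOn_snd, fun _ h => (D.F_MM h).2,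
      continuousOn_const, fun _ _ _ h => h, fun _ _ _ _ h => h⟩ fun _ _ _ _ => rfl).symm
  obtain ⟨t, -, ht⟩ := D.HS_e Q
  refine ⟨c * t, ?_⟩
  rw [eb, ee, ht, map_smul, pull_pow os, pull_pow D.ok_F, Q.pull_vv D.ok_F, smul_mul_assoc, one_mul,
    smul_smul]
  rfl

end TD0

theorem TD0.p2_WF (D : TD0 𝕄 7) (Q : MT 𝕄) (hb : D.Bil) : ∃ s : ℤ, (s = 1 ∨ s = -1) ∧
    ((cp (cx D.WF) 8 D.F).coeff 4 : H D.F univ) =
      (6 * s : ℂ) • pull id D.F univ (Q.uu + Q.vv) := by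
  obtain ⟨s, hs, e⟩ := D.P2_pencil Q hb
  have dp : IsDeg 8 ((cp (cx D.WF) 8 D.F).coeff 4 : H D.F univ) := by
    simpa using D.rb_WF.cb_cx.cp_deg 4
  obtain ⟨p, hp, ep⟩ := D.res_F_surj Q dp
  obtain ⟨α, β, rfl⟩ := Q.MM_deg8 hp
  have sw : pull Prod.swap D.F univ ((cp (cx D.WF) 8 D.F).coeff 4 : H D.F univ) =
      (cp (cx D.WF) 8 D.F).coeff 4 := by
    rw [← pR_val D.ok_swap, ← Polynomial.coeff_map, D.cp_swap]
  have os : Ok Prod.swap D.F univ 𝕄.MM univ :=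
    ok_top D.lc_F continuous_swap.continuousOn fun _ h => D.F_MM (D.swap_F h)
  rw [ep, pull_res D.ok_swap D.F_MM fun _ _ h => h, map_add, map_smul, map_smul, Q.pull_uu os,
    Q.pull_vv os] at sw
  have e1 : α = β := by
    have : pull id D.F univ ((β - α) • Q.uu + (α - β) • Q.vv) = 0 := by
      rw [map_add, map_smul, map_smul, Q.pull_uu D.ok_F, Q.pull_vv D.ok_F] at sw ⊢
      rw [← sub_eq_zero] at sw
      rw [← sw]
      change _ = α • pull Prod.snd D.F univ Q.y + β • pull Prod.fst D.F univ Q.y -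
        (α • pull Prod.fst D.F univ Q.y + β • pull Prod.snd D.F univ Q.y)
      change (β - α) • pull Prod.fst D.F univ Q.y + (α - β) • pull Prod.snd D.F univ Q.y = _
      module
    exact sub_eq_zero.1 (Q.indep8 (D.res_F_inj Q ((Q.isDeg_uu.smul _).add (Q.isDeg_vv.smul _))
      (by norm_num) this)).2
  subst e1
  obtain ⟨t, ht, et⟩ : ∃ t : ℤ, (t = 1 ∨ t = -1) ∧
      (s : ℂ) • euR D.WF 8 D.oF D.F = (t : ℂ) • pull id D.F univ (Q.vv - Q.uu) := by
    rcases D.euR_WF Q with h | h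
    · exact ⟨s, hs, by rw [h]⟩
    · exact ⟨-s, by omega, by rw [h, smul_neg, Int.cast_neg, neg_smul]⟩
  obtain ⟨c, ec⟩ := D.P2_ker Q (dp.sub ((isDeg_euR D.rb_WF (D.ori_F Q)).smul _)) e
  rw [ep, mul_smul, et, ← map_smul, ← map_smul, ← map_sub, ← pull_mul D.ok_F, ← map_smul,
    ← sub_eq_zero, ← map_sub] at ec
  have x : (Q.uu - Q.vv) * (α • Q.uu + α • Q.vv - (2 : ℂ) • (t : ℂ) • (Q.vv - Q.uu)) -
      c • Q.vv ^ 2 = (α + 2 * t) • Q.uu ^ 2 + (-(4 * t) : ℂ) • (Q.uu * Q.vv) +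
        (2 * t - α - c) • Q.vv ^ 2 := by
    simp only [sub_mul, mul_sub, mul_add, mul_smul_comm, smul_sub, sq, ← Q.uv_comm.eq]
    module
  rw [x] at ec
  obtain ⟨l, el⟩ := D.res_F_deg16 Q (by
    have a := Q.uv_deg 2 0
    have b := Q.uv_deg 1 1
    have c := Q.uv_deg 0 2
    norm_num at a b c
    exact ((a.smul _).add (b.smul _)).add (c.smul _)) ec
  have z := Q.indep16 (r := α + 2 * t - l) (s := -(4 * t) - l) (t := 2 * t - α - c - l) (by
    rw [Q.hh_eq, ← sub_eq_zero] at el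
    rw [← el]
    module)
  refine ⟨-t, by omega, ?_⟩
  rw [ep, ← smul_add, map_smul]
  congr 1
  push_cast
  linear_combination z.1 - z.2.1

end Pool.Agent.Work.MP_8c604c_gt.OT
end
end

-- merged part: Pool.Agent.Work.MP_8c604c_gt.OZ.Geo
section
/-!
Characteristic classes of the bundles `Kq` and `Pq` (owner helper4).

Hints.  `eu_PF`: `euR_sum_sign` for `tp ∘ fst = WF + PF` on `F` (`rb_T1`, `rb_PF`, `PF_fix`, `tp_WF`, bundle maps `1`; OZ/P2),
`pull_euR` along `fst` (as `ee` in `P2_ker`), `eT_eq`, `euR_WF`; write the class as the restriction of `a u + b v`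
(`res_F_surj`, `MM_deg8`); `(v - u) (a u + b v) ∓ 3 u ^ 2` is a multiple of `hh` (`res_F_deg16`, `hh_eq`, `indep16`), as at the end
of OZ/P2.
`BW_dj`: the linear map `(t, a) ↦ t • vel c + B x a` from `ℝ × range (K x)` (dimension `1 + 7`) is onto `Ws (en c)`
(dimension 8, `geob_rkW`, `mem_Ws`, `BW`; `Lk c c'` means `en c' = en c`), hence injective
(`LinearMap.injective_iff_surjective_of_finrank_eq_finrank`).
`q_c4`: `cp_cx_sum` on `Xt` for `V x = WF (en x.1.1)` of rank `7 + 1`, `V₁ = K ∘ pj` with `B ∘ pj`, `V₂ = 1` with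
`t ↦ t • vel` (`rb_one`, `cp_cx_one`, `Polynomial.coeff_mul_X`); `cp_cx_map` (bundle map `1`) along `en ∘ fst ∘ fst` and
along `qB 1` (`Kq_q`), `Polynomial.coeff_map`, `pR_val`; `p2_WF` with `D.bil`, `en_uu`, `en_vv`.
`π_c6`: `cp_cx_sum` on `P1` for `Kq ∘ fst = Pc Kq + Ln`; more simply `V₂ = 1` on `ℝ` with `t ↦ t • z.2`
(`rb_pc`, `pc_fix`, `ln_self`); `cp_coeff_zero`, `CB.euE_val`, `euR_sq_sign`, `ori_pc`.
`gy_eps`: `gys_pc`.
`q_eP`: orient `P ∘ pj` on `Xt` (`rb_Pu`, `RB.exists_ori`, `sgnTriv_of_van`, `vX`); `euR_map_sign` along `qB 2` (`Pq_q`, bundle map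
`1`) and along `en ∘ fst ∘ fst` with the bundle map `PF (en c) ∘ B'` (`tanB'`, `BW'`, `cpl_apply`, `mem_Ws`), `gen1_Xt`, `eu_PF`,
`en_uu`, `en_vv`.
-/

noncomputable section

set_option linter.unusedSectionVars false

namespace Pool.Agent.Work.MP_8c604c_gt.OT

open Set Topology Pool.Agent.Work.MP_849ab0_ag.G T OS

variable {V : Type} [NormedAddCommGroup V] [InnerProductSpace ℝ V] [FiniteDimensional ℝ V]
  {𝕄 : Mf V} {p : ℤ}

theorem Geo_flip {A : Type} [AddCommGroup A] [Module ℂ A] {s : ℤ} (hs : s = 1 ∨ s = -1) {a b : A}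
    (e : a = (s : ℂ) • b) : b = (s : ℂ) • a := by
  rcases hs with rfl | rfl <;> simp [e]

theorem Geo_mul {s t : ℤ} (hs : s = 1 ∨ s = -1) (ht : t = 1 ∨ t = -1) : s * t = 1 ∨ s * t = -1 := by
  rcases hs with rfl | rfl <;> rcases ht with rfl | rfl <;> simp

theorem Geo_or {A : Type} [AddCommGroup A] [Module ℂ A] {a b : A} (h : a = b ∨ a = -b) :
    ∃ s : ℤ, (s = 1 ∨ s = -1) ∧ a = (s : ℂ) • b :=
  h.elim (fun e => ⟨1, Or.inl rfl, by simp [e]⟩) fun e => ⟨-1, Or.inr rfl, by simp [e]⟩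

/-- the bundle map from the trivial line bundle given by a section -/
theorem Geo_line {X A : Type} [TopologicalSpace X] [NormedAddCommGroup A] [NormedSpace ℝ A]
    {W : X → A →L[ℝ] A} {U : Set X} {v : X → A} (hv : ContinuousOn v U) (m : ∀ x ∈ U, W x (v x) = v x)
    (n : ∀ x ∈ U, v x ≠ 0) : BMap (fun _ => (1 : ℝ →L[ℝ] ℝ)) U W U id
      fun x => ContinuousLinearMap.smulRightL ℝ ℝ A 1 (v x) :=
  ⟨continuousOn_id, mapsTo_id _, (ContinuousLinearMap.smulRightL ℝ ℝ A 1).continuous.comp_continuousOn hv,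
    fun x hx t _ => show W x (t • v x) = t • v x by rw [map_smul, m x hx],
    fun x hx t _ e => (smul_eq_zero.1 (show t • v x = 0 from e)).resolve_right (n x hx)⟩

theorem TD0.eu_PF (D : TD0 𝕄 7) (Q : MT 𝕄) {o : V × V → V [⋀^Fin 8]→L[ℝ] ℝ} (ho : Ori D.PF 8 D.F o) :
    ∃ s : ℤ, (s = 1 ∨ s = -1) ∧
      euR D.PF 8 o D.F = (s : ℂ) • pull id D.F univ ((2 : ℂ) • Q.uu + Q.vv) := by
  have h1 : Ori (fun y : V × V => 𝕄.tp y.1) 16 D.F fun y => 𝕄.oT y.1 :=
    Q.ori_T.comp continuousOn_fst fun _ h => (D.F_MM h).1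
  obtain ⟨s, hs, e⟩ := euR_sum_sign (r₁ := 8) (r₂ := 8) D.rb_T1 h1 D.rb_WF (D.ori_F Q) D.rb_PF ho
    (B₁ := fun _ => 1) (B₂ := fun _ => 1)
    ⟨continuousOn_id, mapsTo_id _, continuousOn_const,
      fun y hy a h => (D.Ws_tan hy (D.WF_eq.1 h)).2, fun _ _ _ _ h => h⟩
    ⟨continuousOn_id, mapsTo_id _, continuousOn_const,
      fun y hy a h => ((D.PF_fix hy).1 h).1, fun _ _ _ _ h => h⟩
    (fun y hy a₁ a₂ k₁ k₂ k => by
      have k3 : a₁ + a₂ = 0 := k
      have k4 := congrArg (D.WF y) k3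
      rw [map_add, k₁, ((D.PF_fix hy).1 k₂).2, add_zero, map_zero] at k4
      exact ⟨k4, by rwa [k4, zero_add] at k3⟩)
    (by norm_num) (gen_one (D.isConnected_F Q.conn))
  have of : Ok Prod.fst D.F univ 𝕄.M univ := ok_top D.lc_F continuousOn_fst fun _ h => (D.F_MM h).1
  have ee : pull Prod.fst D.F univ 𝕄.eT =
      euR (fun y : V × V => 𝕄.tp y.1) (8 + 8) (fun y => 𝕄.oT y.1) D.F :=
    pull_euR 𝕄.rb Q.ori_T D.rb_T1 h1 (B := fun _ => 1) ⟨continuousOn_fst, fun _ h => (D.F_MM h).1,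
      continuousOn_const, fun _ _ _ h => h, fun _ _ _ _ h => h⟩ fun _ _ _ _ => rfl
  obtain ⟨t, ht, et⟩ := Geo_or (D.eT_eq Q)
  obtain ⟨u, hu, eu⟩ := Geo_or (D.euR_WF Q)
  obtain ⟨p, hp, ep⟩ := D.res_F_surj Q (isDeg_euR D.rb_PF ho)
  obtain ⟨α, β, rfl⟩ := Q.MM_deg8 hp
  have e1 : pull Prod.fst D.F univ (Q.y ^ 2) = pull id D.F univ (Q.uu ^ 2) := by
    rw [pull_pow of, pull_pow D.ok_F, Q.pull_uu D.ok_F]
    rfl
  rw [← ee, et, eu, ep, map_smul, map_smul, e1, smul_mul_assoc, ← pull_mul D.ok_F] at e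
  have e2 := Geo_flip hu (Geo_flip hs e).symm
  rw [smul_smul, smul_smul, smul_smul, ← map_smul, ← sub_eq_zero, ← map_sub] at e2
  have x : (Q.vv - Q.uu) * (α • Q.uu + β • Q.vv) - ((u : ℂ) * s * t * 3) • Q.uu ^ 2 =
      (-α - u * s * t * 3) • Q.uu ^ 2 + (α - β) • (Q.uu * Q.vv) + β • Q.vv ^ 2 := by
    simp only [sub_mul, mul_add, mul_smul_comm, sq, ← Q.uv_comm.eq]
    module
  rw [x] at e2
  obtain ⟨l, el⟩ := D.res_F_deg16 Q (by
    have a := Q.uv_deg 2 0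
    have b := Q.uv_deg 1 1
    have c := Q.uv_deg 0 2
    norm_num at a b c
    exact ((a.smul _).add (b.smul _)).add (c.smul _)) e2
  have z := Q.indep16 (r := -α - u * s * t * 3 - l) (s := α - β - l) (t := β - l) (by
    rw [Q.hh_eq, ← sub_eq_zero] at el
    rw [← el]
    module)
  refine ⟨-1 * (u * s * t), Geo_mul (Or.inr rfl) (Geo_mul (Geo_mul hu hs) ht), ?_⟩
  have hβ : β = -1 * (u * s * t) := by linear_combination (-1 / 3 : ℂ) * (z.1 + z.2.1) + 2 / 3 * z.2.2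
  have hα : α = -1 * (u * s * t) * 2 := by linear_combination z.2.1 - z.2.2 + 2 * hβ
  rw [ep, ← map_smul, smul_add, smul_smul]
  push_cast
  rw [← hα, ← hβ]

namespace TD

variable (D : TD 𝕄 40) (Q : MT 𝕄)

theorem Geo_Ws {x : LM V × CM 40} (hx : x ∈ D.S ×ˢ Sp 40) (u : V) : u ∈ D.Ws (D.en x.1) ↔
    ∃ (t : ℝ) (a : RN D.N), D.K x a = a ∧ u = t • D.vel x.1 + D.B x a :=
  (D.mem_Ws (D.en_mem hx.1)).trans ((exists_congr fun _ => and_congr_right fun _ =>
    and_congr_left' Prod.ext_iff).trans (D.BW x hx u))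

theorem Geo_lc : IsLocallyClosed D.Xt := D.isCompact_Xt.isClosed.isLocallyClosed

theorem Geo_cf : Continuous fun x : LA V 40 => D.en x.1.1 := D.continuous_en.comp (by fun_prop)

theorem Geo_mf : MapsTo (fun x : LA V 40 => D.en x.1.1) D.Xt D.F := fun _ h => D.en_mem h.1.1

theorem Geo_ok : Ok (fun x : LA V 40 => D.en x.1.1) D.Xt univ D.F univ :=
  ok_top D.Geo_lc D.Geo_cf.continuousOn D.Geo_mf

theorem Geo_res (b : H 𝕄.MM univ) :
    pull (fun x : LA V 40 => D.en x.1.1) D.Xt univ (pull id D.F univ b) =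
      D.pS (pull D.en D.S univ b) :=
  (pull_pull' (F := fun x : LA V 40 => D.en x.1.1) D.Geo_ok D.ok_F (fun _ _ => rfl) b).trans
    (pull_pull' D.ok_Xt (.of_mem D.ok_en.ext (fun _ h => D.F_MM (D.en_mem h)) fun _ _ _ => trivial)
      (fun _ _ => rfl) b).symm

theorem BW_dj {x : LM V × CM 40} (hx : x ∈ D.S ×ˢ Sp 40) {a : RN D.N} (ha : D.K x a = a) {t : ℝ}
    (e : D.B x a + t • D.vel x.1 = 0) : a = 0 ∧ t = 0 := by
  let φ : ℝ × LinearMap.range (D.K x : RN D.N →ₗ[ℝ] RN D.N) →ₗ[ℝ] V :=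
    (LinearMap.toSpanSingleton ℝ V (D.vel x.1)).coprod
      ((D.B x : RN D.N →ₗ[ℝ] V) ∘ₗ (LinearMap.range (D.K x : RN D.N →ₗ[ℝ] RN D.N)).subtype)
  have h1 : D.Ws (D.en x.1) ≤ LinearMap.range φ := fun u hu => by
    obtain ⟨s, b, hb, rfl⟩ := (D.Geo_Ws hx u).1 hu
    exact ⟨(s, ⟨b, b, hb⟩), rfl⟩
  have h2 := Submodule.finrank_mono h1
  have h3 := φ.finrank_range_add_finrank_ker
  rw [D.geob_rkW (D.en_mem hx.1)] at h2
  rw [Module.finrank_prod, D.rkK x hx, Module.finrank_self] at h3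
  have h4 : LinearMap.ker φ = ⊥ := Submodule.finrank_eq_zero.1 (by omega)
  have h5 := LinearMap.ker_eq_bot'.1 h4 (t, ⟨a, a, ha⟩) ((add_comm _ _).trans e)
  exact ⟨congrArg (fun z => z.2.1) h5, congrArg Prod.fst h5⟩

/-- the Chern polynomial of the complexification of `Kq` -/
def chK : Polynomial (EvR (D.GB 1)) := cp (cx D.Kq) 7 (D.GB 1)

/-- the Euler class of the tangent bundle along the fibres of the sphere bundle -/
def eps : H D.P1 univ := euR (Pc D.Kq) 6 (fun z => (D.o1 z.1).curryLeft z.2) D.P1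

theorem q_c4 : ∃ s : ℤ, (s = 1 ∨ s = -1) ∧
    D.pq 1 (D.chK.coeff 3 : H _ univ) = (12 * s : ℂ) • D.ut Q := by
  have hW := D.rb_WF.comp D.Geo_lc D.Geo_cf.continuousOn D.Geo_mf
  have h1 := cp_cx_sum hW D.rb_Ku (rb_one D.Geo_lc) (B₁ := fun x => D.B (pj x))
    ⟨continuousOn_id, mapsTo_id _, D.cB.comp continuous_pj.continuousOn fun _ => pj_mem,
      fun x hx a ha => D.WF_eq.2 ((D.Geo_Ws (pj_mem hx) _).2 ⟨0, a, ha, by rw [zero_smul, zero_add]⟩),
      fun x hx a ha e => (D.BW_dj (pj_mem hx) ha (t := 0) (by rw [zero_smul, add_zero, e])).1⟩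
    (Geo_line (v := fun x : LA V 40 => D.vel x.1.1)
      (D.cvel.comp (Continuous.continuousOn (by fun_prop)) fun _ h => h.1.1)
      (fun x hx => D.WF_eq.2 ((D.Geo_Ws (pj_mem hx) _).2
        ⟨1, 0, map_zero _, by rw [one_smul, map_zero, add_zero]; rfl⟩))
      fun x hx => D.vne _ hx.1.1)
    fun x hx a t ha _ e => D.BW_dj (pj_mem hx) ha e
  rw [cp_cx_one D.Geo_lc, ← cp_cx_map D.rb_WF hW (B := fun _ => 1) ⟨D.Geo_cf.continuousOn, D.Geo_mf,
      continuousOn_const, fun _ _ _ k => k, fun _ _ _ _ k => k⟩ D.Geo_ok,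
    ← cp_cx_map D.rb_Kq D.rb_Ku (B := fun _ => 1) ⟨continuous_qB.continuousOn, (D.ok_qG 1).maps,
      continuousOn_const, fun _ h _ k => (Kq_q h).symm ▸ k, fun _ _ _ _ k => k⟩ (D.ok_qG 1)] at h1
  have h2 := congrArg (fun p => ((Polynomial.coeff p (3 + 1) : EvR D.Xt) : H D.Xt univ)) h1
  simp only [Polynomial.coeff_mul_X, Polynomial.coeff_map, pR_val] at h2
  obtain ⟨s, hs, e⟩ := D.toTD0.p2_WF Q D.bil
  refine ⟨s, hs, h2.symm.trans ((congrArg _ e).trans ?_)⟩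
  rw [map_smul, D.Geo_res, map_add, D.en_uu, D.en_vv, map_add, ← two_smul ℂ, smul_smul, ut]
  congr 1
  ring

include Q in
theorem isDeg_eps : IsDeg 6 D.eps := by
  exact isDeg_euR (rb_pc (r := 6) D.rb_Kq) (ori_pc (r := 6) D.rb_Kq (D.ori_K Q (by norm_num)))

include Q in
theorem π_c6 : ∃ s : ℤ, (s = 1 ∨ s = -1) ∧
    D.pπ (D.chK.coeff 1 : H _ univ) = (s : ℂ) • D.eps ^ 2 := by
  have hc := rb_pc (r := 6) D.rb_Kq
  have hK := St2_up D.rb_Kq D.rb_Kq
  have h1 := cp_cx_sum (r₁ := 6) (r₂ := 1) hK hc (rb_one D.lc_P1) (B₁ := fun _ => 1)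
    ⟨continuousOn_id, mapsTo_id _, continuousOn_const,
      fun z hz a ha => ((pc_fix (r := 6) D.rb_Kq hz).1 ha).1, fun _ _ _ _ k => k⟩
    (Geo_line (v := Prod.snd) continuousOn_snd (fun _ hz => hz.1.2) fun _ hz => hz.2)
    fun z hz a t ha _ e => by
      have k : a + t • z.2 = 0 := e
      have k1 := congrArg (Ln z) k
      rw [map_add, ((pc_fix (r := 6) D.rb_Kq hz).1 ha).2, zero_add, map_smul, ln_self hz.2,
        map_zero] at k1
      exact ⟨by rwa [k1, add_zero] at k, (smul_eq_zero.1 k1).resolve_right hz.2⟩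
  rw [cp_cx_one (St2_lc D.rb_Kq), ← cp_cx_map D.rb_Kq hK (B := fun _ => 1) ⟨continuousOn_fst,
    fun _ k => k.1.1, continuousOn_const, fun _ _ _ k => k, fun _ _ _ _ k => k⟩ D.ok_π] at h1
  have h2 := congrArg (fun p => (Polynomial.coeff p (0 + 1)).1) h1
  rw [Polynomial.coeff_mul_X, Polynomial.coeff_map, cp_coeff_zero hc.cb_cx, hc.cb_cx.euE_val] at h2
  obtain ⟨s, hs, e⟩ := euR_sq_sign hc (ori_pc (r := 6) D.rb_Kq (D.ori_K Q (by norm_num)))
  exact ⟨s, hs, h2.trans e⟩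

theorem gy_eps (hm : 1 ≤ 40) : ∃ s : ℤ, (s = 1 ∨ s = -1) ∧ D.gy Q hm D.eps = (2 * s : ℂ) • 1 := by
  exact gys_pc D.rb_Kq (D.ori_K Q hm) (D.gen1_GB Q)

theorem rb_Pu : RB (fun x : LA V 40 => D.P (pj x)) 8 D.Xt := by
  exact ⟨D.Geo_lc, D.cP.comp continuous_pj.continuousOn fun _ => pj_mem,
    fun _ h => D.idP _ (pj_mem h), fun _ h => D.rkP _ (pj_mem h)⟩

theorem q_eP : ∃ s : ℤ, (s = 1 ∨ s = -1) ∧ D.pq 2 D.eP = (3 * s : ℂ) • D.ut Q := by
  obtain ⟨o, ho⟩ := D.rb_Pu.exists_ori (sgnTriv_of_van D.isCompact_Xt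
    (D.vX Q (by norm_num) (by norm_num) (by norm_num)))
  obtain ⟨o', ho'⟩ := D.rb_PF.exists_ori (D.sgnTriv_F Q)
  obtain ⟨s₁, h₁, e₁⟩ := euR_map_sign D.rb_Pq (D.ori_P Q (by norm_num)) D.rb_Pu ho (B := fun _ => 1)
    ⟨continuous_qB.continuousOn, (D.ok_qG 2).maps, continuousOn_const,
      fun _ h _ k => (Pq_q h).symm ▸ k, fun _ _ _ _ k => k⟩ (by norm_num) (D.gen1_Xt Q)
  obtain ⟨s₂, h₂, e₂⟩ := euR_map_sign D.rb_PF ho' D.rb_Pu ho (f := fun x : LA V 40 => D.en x.1.1)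
    (B := fun x => (D.PF (D.en x.1.1)).comp (D.B' (pj x)))
    ⟨D.Geo_cf.continuousOn, D.Geo_mf, (D.rb_PF.cont.comp D.Geo_cf.continuousOn D.Geo_mf).clm_comp
      (D.cB'.comp continuous_pj.continuousOn fun _ => pj_mem),
      fun x hx a _ => D.rb_PF.idem _ (D.Geo_mf hx) _, fun x hx a ha e => by
        have k : 𝕄.tp (x.1.1 1) (D.B' (pj x) a) = D.B' (pj x) a := (D.tanB' _ (pj_mem hx) a ha).2
        change 𝕄.tp (x.1.1 1) (D.B' (pj x) a) -
          D.WF (D.en x.1.1) (𝕄.tp (x.1.1 1) (D.B' (pj x) a)) = 0 at e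
        rw [k] at e
        obtain ⟨c, hc, k1, r, -, k2⟩ := (D.mem_Ws (D.Geo_mf hx)).1 (D.WF_eq.1 (sub_eq_zero.1 e).symm)
        exact D.BW' _ (pj_mem hx) a ha c hc (Prod.ext_iff.1 k1) r k2⟩ (by norm_num) (D.gen1_Xt Q)
  obtain ⟨s₃, h₃, e₃⟩ := D.toTD0.eu_PF Q ho'
  refine ⟨s₁ * s₂ * s₃, Geo_mul (Geo_mul h₁ h₂) h₃, e₁.trans ?_⟩
  rw [Geo_flip h₂ e₂, e₃, map_smul, D.Geo_res, map_add, map_smul, D.en_uu, D.en_vv, map_add, map_smul,
    ut]
  push_cast
  module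

end TD

end Pool.Agent.Work.MP_8c604c_gt.OT
end
end
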