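import Pool.Agent.Work.MP_8c604c_gt.OR.R2
import Pool.Agent.Work.MP_8c604c_gt.OT.Jd
import Pool.Agent.Work.MP_8c604c_gt.OZ.Geo
import Pool.Agent.Work.MP_8c604c_gt.OZ.Alg

-- merged part: Pool.Agent.Work.MP_8c604c_gt.OT.R
section
/-!
The two results of the loop space topology (owner helper12).
-/

noncomputable section

namespace Pool.Agent.Work.MP_8c604c_gt.OT

open Set Topology Pool.Agent.Work.MP_849ab0_ag.G T

variable {V : Type} [NormedAddCommGroup V] [InnerProductSpace ℝ V] [FiniteDimensional ℝ V]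
  {𝕄 : Mf V} {m : ℕ}

namespace TD

variable (D : TD 𝕄 m) (Q : MT 𝕄) (hm : 1 ≤ m)

/-- the first class of degree 22 -/
def B1 : H (D.GB 1) univ := eB (D.GB 1) ^ 10 * D.gy Q hm (D.yp Q)

/-- the second class of degree 22 -/
def B2 : H (D.GB 1) univ := eB (D.GB 1) ^ 6 * D.gy Q hm (D.yp Q ^ 2)

theorem R1 (_h : 20 ≤ m) : D.gy Q hm (D.yp Q) = eB (D.GB 1) ∨ D.gy Q hm (D.yp Q) = -eB (D.GB 1) :=
  D.R1' Q hm

theorem R_jc {p q : V} (hpq : (p, q) ∈ D.Nb \ Dg V) :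
    D.JC Q (D.z0 Q) (D.dl2 Q p q) (D.dl3 Q) (D.dl4 Q) :=
  ⟨D.isDeg_z0 Q, D.Jb Q, D.Jc Q hpq, fun _ => D.Jd Q⟩

theorem R2 (h : 20 ≤ m) (li : ∀ s t : ℂ, s • D.B1 Q hm + t • D.B2 Q hm = 0 → s = 0 ∧ t = 0) :
    ∃ (z : H D.Xt univ) (l₁ l₂ ν : ℂ), IsDeg 23 z ∧ (ν = 0 ∨ ν = 4 ∨ ν = -4) ∧
      Gen 31 (D.uS Q * pull (fun c : LM V => ((c, (1 : ℝ)), (1 : CM m))) D.S univ z) ∧
      tB 1 (D.GB 1) univ z = l₁ • D.B1 Q hm + l₂ • D.B2 Q hm ∧
      ν • (eu D.EC 7 (D.GB 2) * D.eP) =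
        ((4 - 1 / 2 ^ 10) * l₁) • pull kpB (D.GB 2) univ (D.B1 Q hm) +
          ((4 - 1 / 2 ^ 6) * l₂) • pull kpB (D.GB 2) univ (D.B2 Q hm) := by
  obtain ⟨p, hp⟩ := Q.conn.1
  obtain ⟨c, hc, -⟩ := D.exists_S hp
  have k : ((D.j0 c).1, (D.j0 c).2) ∈ D.Nb \ Dg V := D.j0_mem hc
  exact R2' hm h (D.R_jc Q k) ⟨D.isDeg_dl2 Q k.1.1.1 k.1.1.2, D.LD3 Q one_mem_Sp k⟩
    ⟨D.isDeg_dl3 Q, fun _ _ i e => D.LD2 Q (by simp) i e⟩
    ⟨D.isDeg_dl4 Q, fun _ _ i e => D.LD4 Q (by simp) i e⟩ li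

end TD

end Pool.Agent.Work.MP_8c604c_gt.OT
end
end

-- merged part: Pool.Agent.Work.MP_8c604c_gt.OZ.Ring
section
/-!
The cohomology ring of `GB 1` and of the sphere bundle `P1` (owner helper4).
-/

noncomputable section

set_option linter.unusedSectionVars false

namespace Pool.Agent.Work.MP_8c604c_gt.OT

open Set Topology Pool.Agent.Work.MP_849ab0_ag.G T OS

variable {V : Type} [NormedAddCommGroup V] [InnerProductSpace ℝ V] [FiniteDimensional ℝ V]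
  {𝕄 : Mf V} {p q : ℤ}

section Ev

variable {X : Type} [TopologicalSpace X] {U : Set X}

/-- homogeneous even classes -/
def De (p : ℤ) (a : EvR U) : Prop := IsDeg p (a : H U univ)

theorem De.mul {a b : EvR U} (ha : De p a) (hb : De q b) : De (p + q) (a * b) := IsDeg.mulH ha hb

theorem De.pow {a : EvR U} (ha : De p a) (k : ℕ) : De (k * p) (a ^ k) := IsDeg.powH ha k

theorem De.add {a b : EvR U} (ha : De p a) (hb : De p b) : De p (a + b) := IsDeg.add ha hb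

theorem De.sub {a b : EvR U} (ha : De p a) (hb : De p b) : De p (a - b) := IsDeg.sub ha hb

theorem De.smul {a : EvR U} (ha : De p a) (c : ℂ) : De p (c • a) := IsDeg.smul ha c

theorem int_mul (n : ℤ) (a : EvR U) : (n : EvR U) * a = (n : ℂ) • a := by
  rw [Algebra.smul_def, map_intCast]

theorem De.int {a : EvR U} (ha : De p a) (n : ℤ) : De p ((n : EvR U) * a) := int_mul n a ▸ ha.smul _

theorem De.nat {a : EvR U} (ha : De p a) (n : ℕ) [n.AtLeastTwo] : De p (ofNat(n) * a) := by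
  have := ha.int n
  rwa [Int.cast_natCast] at this

theorem De.cast {a : EvR U} (ha : De p a) (e : p = q) : De q a := e ▸ ha

theorem cancel_nat {R : Type} [CommRing R] [Algebra ℂ R] (n : ℕ) [n.AtLeastTwo] {a : R}
    (e : ofNat(n) * a = 0) : a = 0 := by
  have : (n : ℂ) • a = 0 := by rwa [Algebra.smul_def, map_natCast]
  exact (smul_eq_zero.1 this).resolve_left (Nat.cast_ne_zero.2 (NeZero.ne n))

theorem sq_sign {R : Type} [CommRing R] {s : ℤ} (h : s = 1 ∨ s = -1) : (s : R) ^ 2 = 1 := by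
  rcases h with rfl | rfl <;> simp

end Ev

namespace TD

variable (D : TD 𝕄 40) (Q : MT 𝕄)

theorem h40 : 1 ≤ 40 := by norm_num

/-- the Euler class -/
def eE (k : ℕ) : EvR (D.GB k) := ⟨eB _, (D.cdG k).evn_ee⟩

/-- the pull-back -/
def πE : EvR (D.GB 1) →+* EvR D.P1 := pR D.ok_π

/-- the class `yp` -/
def yE : EvR D.P1 := ⟨D.yp Q, IsDeg.evn (D.isDeg_yp Q) (by decide)⟩

theorem gy_deg {c : H D.P1 univ} (hc : IsDeg (p + 6) c) : IsDeg p (D.gy Q h40 c) :=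
  (D.gd1 Q h40).gys_deg hc (by ring)

theorem evn_gy {c : H D.P1 univ} (hc : Evn c) : Evn (D.gy Q h40 c) := by
  refine hc.ind (Q := fun c => Evn (D.gy Q h40 c)) (by simpa using evn_zero)
    (fun a b k k' => by simpa using k.add k') fun n a k => ?_
  exact IsDeg.evn (D.gy_deg Q (p := 2 * (n - 3)) (by convert k using 1; ring)) ⟨n - 3, by ring⟩

/-- the integral over the fibres -/
def gE : EvR D.P1 →+ EvR (D.GB 1) where
  toFun c := ⟨D.gy Q h40 c, D.evn_gy Q c.2⟩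
  map_zero' := Subtype.ext (map_zero _)
  map_add' _ _ := Subtype.ext (map_add _ _ _)

theorem de_e (k : ℕ) : De 2 (D.eE k) := (D.cdG k).isDeg_ee

theorem de_y : De 8 (D.yE Q) := D.isDeg_yp Q

variable {D Q}

theorem de_π {a : EvR (D.GB 1)} (h : De p a) : De p (D.πE a) := IsDeg.pull h _ _ _

theorem de_g {c : EvR D.P1} (h : De (p + 6) c) : De p (D.gE Q c) := D.gy_deg Q h

theorem g_mul (a : EvR (D.GB 1)) (c : EvR D.P1) : D.gE Q (D.πE a * c) = a * D.gE Q c :=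
  Subtype.ext ((D.gd1 Q h40).gys_mul_evn a.2 c.1)

theorem g_π (a : EvR (D.GB 1)) : D.gE Q (D.πE a) = 0 := Subtype.ext ((D.gd1 Q h40).gys_pull a)

variable {t : EvR D.P1}

theorem g_split (gt : D.gE Q t = 1) (a b : EvR (D.GB 1)) : D.gE Q (D.πE a * t + D.πE b) = a := by
  rw [map_add, g_mul, g_π, gt, mul_one, add_zero]

theorem π_inj (gt : D.gE Q t = 1) {a : EvR (D.GB 1)} (e : D.πE a = 0) : a = 0 := by
  obtain ⟨b, k⟩ := ((D.gd1 Q h40).pull_eq_zero a).1 (congrArg Subtype.val e)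
  have := (D.gd1 Q h40).gys_mul_e t.1
  rw [show (D.gd1 Q h40).gys t.1 = 1 from congrArg Subtype.val gt, one_mul] at this
  exact Subtype.ext (by rw [k, this, mul_zero]; rfl)

theorem split (dt : De 6 t) (gt : D.gE Q t = 1) {c : EvR D.P1} (hc : De (p + 6) c) (hp : Even p) :
    ∃ b, De (p + 6) b ∧ c = D.πE (D.gE Q c) * t + D.πE b := by
  have e : D.gE Q (c - D.πE (D.gE Q c) * t) = 0 := by rw [map_sub, g_mul, gt, mul_one, sub_self]
  obtain ⟨a, k⟩ := ((D.gd1 Q h40).gys_eq_zero _).1 (congrArg Subtype.val e)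
  have d : De (p + 6) (c - D.πE (D.gE Q c) * t) := hc.sub ((de_π (de_g hc)).mul dt)
  refine ⟨⟨_, IsDeg.evn (isDeg_prj (p + 6) a) (hp.add (by decide))⟩, isDeg_prj _ _, ?_⟩
  refine sub_eq_iff_eq_add'.1 (Subtype.ext ?_)
  exact (isDeg_iff.1 d).symm.trans ((congrArg (prj {p + 6}) k).trans (pull_prj _ a).symm)

theorem eE_inj (Q : MT 𝕄) {k : ℕ} {a : EvR (D.GB k)} (h : De p a) (hp : Even p) (hp' : p ≤ 20)
    (e : D.eE k * a = 0) : a = 0 :=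
  Subtype.ext (D.e_inj Q h hp hp' (congrArg Subtype.val e))

variable (D Q)

/-- the relations -/
structure RG (s j α β : ℤ) (t : EvR D.P1) (z x b : EvR (D.GB 1)) : Prop where
  hs : s = 1 ∨ s = -1
  dt : De 6 t
  gt : D.gE Q t = 1
  dz : De 8 z
  zz : IsZ (z : H (D.GB 1) univ)
  qz : D.pq 1 z = D.ut Q
  y_eq : D.yE Q = D.πE (s * D.eE 1) * t + D.πE z
  x_eq : x = 2 * z + j * D.eE 1 ^ 4
  db : De 12 b
  tt : t ^ 2 = D.πE (s * j * D.eE 1 ^ 3) * t + D.πE b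
  bb : 4 * D.eE 1 ^ 2 * b = -3 * x ^ 2 - j ^ 2 * D.eE 1 ^ 8
  yy : D.yE Q ^ 2 = D.πE x * D.yE Q - D.πE x ^ 2
  x3 : x ^ 3 = 0
  xx : 3 * x ^ 2 = α * D.eE 1 ^ 8 + β * x * D.eE 1 ^ 4
  ev : Even β

theorem exists_RG : ∃ s j α β t z x b, D.RG Q s j α β t z x b := by
  obtain ⟨t₀, zt, dt₀, gt₀⟩ := thZ_exists_gys (q := 0) (D.thZ_K Q h40) (D.gd1 Q h40)
    (D.van_odd Q (by decide) (by norm_num)) isZ_oneH isDeg_oneH
  obtain ⟨t, rfl⟩ : ∃ t : EvR D.P1, t.1 = t₀ := ⟨⟨t₀, IsDeg.evn dt₀ (by decide)⟩, rfl⟩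
  have dt : De 6 t := dt₀
  have gt : D.gE Q t = 1 := Subtype.ext gt₀
  obtain ⟨s, hs, gy⟩ : ∃ s : ℤ, (s = 1 ∨ s = -1) ∧ D.gE Q (D.yE Q) = s * D.eE 1 := by
    rcases D.R1 Q h40 (by norm_num) with e | e
    · exact ⟨1, .inl rfl, by rw [Int.cast_one, one_mul]; exact Subtype.ext e⟩
    · exact ⟨-1, .inr rfl, by rw [Int.cast_neg, Int.cast_one, neg_one_mul]; exact Subtype.ext e⟩
  have de := D.de_e 1
  have ze : IsZ (D.eE 1 : H (D.GB 1) univ) := (D.cdG 1).isZ_ee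
  have e0 : D.gE Q (D.yE Q - D.πE (s * D.eE 1) * t) = 0 := by
    rw [map_sub, g_mul, gt, mul_one, gy, sub_self]
  obtain ⟨z₀, zz, dz₀, ez⟩ := thZ_desc (q := 8) (D.thZ_K Q h40) (D.gd1 Q h40) (D.tf_two Q)
    (c := (D.yE Q - D.πE (s * D.eE 1) * t : EvR D.P1).1)
    ((D.isZ_yp Q).sub (IsZ.mul (IsZ.pul (by rw [int_mul]; exact ze.smul s) _ _ _) zt))
    ((D.de_y Q).sub ((de_π (de.int s)).mul dt)) (congrArg Subtype.val e0)
  obtain ⟨z, rfl⟩ : ∃ z : EvR (D.GB 1), z.1 = z₀ := ⟨⟨z₀, IsDeg.evn dz₀ (by decide)⟩, rfl⟩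
  have dz : De 8 z := dz₀
  have ey : D.yE Q = D.πE (s * D.eE 1) * t + D.πE z := sub_eq_iff_eq_add'.1 (Subtype.ext ez.symm)
  have qz : D.pq 1 z = D.ut Q := by
    refine sub_eq_zero.1 (D.πu_inj Q ((IsDeg.pull dz _ _ _).sub (D.gen_ut Q).deg) ?_)
    have k : D.pq 1 ((s : EvR _) * D.eE 1 : EvR _) = 0 := by
      rw [int_mul]
      exact (map_smul _ _ _).trans (by rw [show D.pq 1 (D.eE 1) = 0 from (D.cdG 1).q_ee, smul_zero])
    rw [map_sub, ← D.q_π, ← D.q_yp Q, show D.pπ z = _ from ez]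
    change pull _ _ _ (D.yp Q - D.pπ ((s : EvR _) * D.eE 1 : EvR _) * t.1) - _ = 0
    rw [map_sub, pull_mul D.cdP.ok_q', D.q_π, k, map_zero, zero_mul, sub_zero, sub_self]
  obtain ⟨b, db, et⟩ := split dt gt (p := 6) (c := t ^ 2) (dt.pow 2) (by decide)
  obtain ⟨j', ej⟩ := D.int_even Q (k := 1) (i := 3) le_rfl (a := D.gE Q (t ^ 2))
    (thZ_isZ_gys (D.thZ_K Q h40) _ (zt.pow 2)) (de_g (p := 6) (dt.pow 2))
  have ej' : D.gE Q (t ^ 2) = j' * D.eE 1 ^ 3 := by rw [int_mul]; exact Subtype.ext ej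
  have s2 : (s : EvR (D.GB 1)) ^ 2 = 1 := sq_sign hs
  have s2' : (s : EvR D.P1) ^ 2 = 1 := sq_sign hs
  rw [ej'] at et
  obtain ⟨A, B, e3⟩ := D.three_z Q zz dz qz
  have e3' : 3 * z ^ 2 = (A * D.eE 1 ^ 4 + B * z) * D.eE 1 ^ 4 := by
    rw [int_mul, int_mul, show (3 : EvR (D.GB 1)) = ((3 : ℤ) : EvR _) by simp, int_mul]
    rw [Int.cast_ofNat]
    exact Subtype.ext e3
  set e := D.eE 1
  obtain ⟨x, ex⟩ : ∃ x, x = 2 * z + (s * j' : ℤ) * e ^ 4 := ⟨_, rfl⟩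
  have dx : De 8 x := ex ▸ (dz.nat 2).add ((de.pow 4).int _)
  obtain ⟨n, en⟩ : ∃ n, n = x * z - z ^ 2 - e ^ 2 * b := ⟨_, rfl⟩
  have dn : De 16 n := en ▸ ((dx.mul dz).sub (dz.pow 2)).sub ((de.pow 2).mul db)
  have y2 : D.yE Q ^ 2 = D.πE x * D.yE Q - D.πE n := by
    rw [en, ex, ey]
    simp only [map_add, map_sub, map_mul, map_pow, map_intCast, map_ofNat, Int.cast_mul] at et ⊢
    linear_combination D.πE e ^ 2 * et + (D.πE e ^ 2 * t ^ 2 - j' * D.πE e ^ 5 * t) * s2'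
  have y3 : D.yE Q ^ 3 = 0 := Subtype.ext (D.yp_pow Q)
  have k : D.πE (s * e * (x ^ 2 - n)) * t + D.πE ((x ^ 2 - n) * z - x * n) = 0 := by
    simp only [map_sub, map_mul, map_pow, map_intCast] at ey ⊢
    linear_combination y3 - (D.yE Q + D.πE x) * y2 - (D.πE x ^ 2 - D.πE n) * ey
  have k1 := g_split gt (s * e * (x ^ 2 - n)) ((x ^ 2 - n) * z - x * n)
  rw [k, map_zero] at k1
  have k2 : x ^ 2 - n = 0 := eE_inj Q ((dx.pow 2).sub dn) (by decide) (by norm_num)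
    (by linear_combination -s * k1 - e * (x ^ 2 - n) * s2)
  rw [k2] at k
  have k3 : x * n = 0 := by
    have := π_inj gt (a := 0 * z - x * n) (by simpa using k)
    linear_combination -this
  refine ⟨s, s * j', 4 * A - 3 * (s * j') ^ 2 - 2 * (s * j') * B, 2 * B + 6 * (s * j'), t, z, x, b, hs, dt,
    gt, dz, zz, qz, ey, ex, db, ?_, ?_, ?_, ?_, ?_, ⟨B + 3 * (s * j'), by ring⟩⟩
  · rw [et]
    congr 3
    push_cast
    linear_combination -j' * e ^ 3 * s2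
  · linear_combination 4 * k2 + 4 * en - (x - 2 * z + ((s * j' : ℤ) : EvR (D.GB 1)) * e ^ 4) * ex
  · rw [y2, ← map_pow, sub_eq_zero.1 k2]
  · linear_combination x * k2 + k3
  · rw [ex]
    push_cast
    linear_combination 4 * e3'

end TD

end Pool.Agent.Work.MP_8c604c_gt.OT
end
end

-- merged part: Pool.Agent.Work.MP_8c604c_gt.OZ.Fin
section
/-!
The bound for the degree (owner helper4).
-/

noncomputable section

set_option linter.unusedSectionVars false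

namespace Pool.Agent.Work.MP_8c604c_gt.OT

open Set Topology Pool.Agent.Work.MP_849ab0_ag.G T OS

variable {V : Type} [NormedAddCommGroup V] [InnerProductSpace ℝ V] [FiniteDimensional ℝ V]
  {𝕄 : Mf V}

theorem fin_alg {R : Type} [CommRing R] [Algebra ℂ R] {f x p c : R} {A ν l₁ l₂ : ℂ}
    {α β n s s' C : ℤ} (xx : 3 * x ^ 2 = α * (2 * f) ^ 8 + β * x * (2 * f) ^ 4)
    (hc : c = A • f ^ 7 + C * x * f ^ 3) (hp : 2 * p = 3 * s' * x + 2 * n * f ^ 4)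
    (e : ν • (c * p) = ((4 - 1 / 2 ^ 10) * l₁) • ((2 * f) ^ 10 * (s * (2 * f))) +
      ((4 - 1 / 2 ^ 6) * l₂) • ((2 * f) ^ 6 * (s * x * (2 * f)))) :
    (ν * (A * n + 128 * s' * C * α) - s * (8190 * l₁)) • f ^ 11 +
      (ν * (3 / 2 * s' * A + C * n + 8 * s' * C * β) - s * (510 * l₂)) • (x * f ^ 7) = 0 := by
  subst hc
  linear_combination (norm := algebra) e - (ν / 2) • (A • f ^ 7 + C * x * f ^ 3) * hp -
    (ν / 2) • (s' * C * f ^ 3 : R) * xx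

namespace TD

variable {D : TD 𝕄 40} {Q : MT 𝕄} {s j α β : ℤ} {t : EvR D.P1} {z x b : EvR (D.GB 1)}

variable (D Q) in
/-- the top class -/
def GE : EvR (D.GB 1) := ⟨D.Gam Q, IsDeg.evn (D.gen_Gam Q).deg (by decide)⟩

variable (D) in
/-- the pull-back to `GB 2` -/
def κE : EvR (D.GB 1) →+* EvR (D.GB 2) := pR D.ok_kap

theorem κ_e : D.κE (D.eE 1) = 2 * D.eE 2 :=
  Subtype.ext (D.kap_e.trans (by rw [two_mul, two_smul]; rfl))

theorem q_e4 (k : ℕ) (n : ℤ) : D.pq k ((n : EvR _) * D.eE k ^ 4 : EvR _) = 0 := by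
  rw [int_mul]
  refine (map_smul _ _ _).trans ?_
  change _ • pull _ _ _ (eB _ ^ 4) = _
  rw [pull_pow (D.ok_qG k), show pull (qB k) D.Xt univ (eB (D.GB k)) = 0 from (D.cdG k).q_ee]
  simp

namespace RG

variable (h : D.RG Q s j α β t z x b)
include h

theorem dx : De 8 x := h.x_eq ▸ (h.dz.nat 2).add (((D.de_e 1).pow 4).int _)

theorem zx : IsZ (x : H (D.GB 1) univ) := by
  rw [h.x_eq, two_mul, int_mul]
  exact (h.zz.add h.zz).add (((D.cdG 1).isZ_ee.pow 4).smul j)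

theorem qx : D.pq 1 x = (2 : ℂ) • D.ut Q := by
  rw [h.x_eq, two_mul, two_smul, ← h.qz]
  exact (map_add _ _ _).trans ((congrArg₂ _ (map_add _ _ _) (q_e4 1 j)).trans (add_zero _))

theorem gy1 : D.gE Q (D.yE Q) = s * D.eE 1 := by rw [h.y_eq, g_split h.gt]

theorem gy2 : D.gE Q (D.yE Q ^ 2) = s * x * D.eE 1 := by
  rw [h.yy, map_sub, g_mul, ← map_pow, g_π, h.gy1]
  ring

theorem gam : ∃ ε : ℤ, (ε = 1 ∨ ε = -1) ∧ 2 * D.GE Q = -(ε * α) * (x ^ 2 * D.eE 1 ^ 7) := by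
  obtain ⟨w₀, ε, hε, dw, e1, e2⟩ := D.exists_w Q
  obtain ⟨w, rfl⟩ : ∃ w : EvR D.P1, w.1 = w₀ := ⟨⟨w₀, IsDeg.evn dw (by decide)⟩, rfl⟩
  have e1' : w * D.πE (D.eE 1) = ((3 * ε : ℤ) : EvR D.P1) * D.yE Q ^ 2 := by
    rw [int_mul, Int.cast_mul, Int.cast_ofNat]
    exact Subtype.ext e1
  have e2' : D.πE (D.GE Q) = D.yE Q ^ 2 * w := Subtype.ext e2
  have de := D.de_e 1
  have dw' : De 14 w := dw
  have ey := h.y_eq
  have ex := congrArg D.πE h.x_eq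
  have yy := h.yy
  have x3 := congrArg D.πE h.x3
  have xx := congrArg D.πE h.xx
  have k : 2 * w - ε * (6 * (D.πE (s * x) * t) - D.πE (D.eE 1 ^ 3 * (α * D.eE 1 ^ 4 + β * x)) -
      3 * D.πE (j * (x * D.eE 1 ^ 3))) = 0 := by
    refine Subtype.ext (D.eP_inj Q ((dw'.nat 2).sub (De.int (De.sub (De.sub
      (((de_π (h.dx.int s)).mul h.dt).nat 6) (de_π ((de.pow 3).mul (((de.pow 4).int α).add
        (h.dx.int β))))) ((de_π ((h.dx.mul (de.pow 3)).int j)).nat 3)) ε))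
      (congrArg Subtype.val (a₁ := D.πE (D.eE 1) * _) (a₂ := 0) ?_))
    simp only [map_add, map_mul, map_pow, map_intCast, map_ofNat, Int.cast_mul,
      Int.cast_ofNat] at e1' ey ex xx ⊢
    linear_combination 2 * e1' + 6 * ε * yy + 6 * ε * D.πE x * ey - 3 * ε * D.πE x * ex -
      ε * xx
  refine ⟨ε, hε, sub_eq_zero.1 (π_inj h.gt ?_)⟩
  simp only [map_add, map_sub, map_neg, map_mul, map_pow, map_intCast, map_ofNat,
    map_zero] at ey ex xx x3 k ⊢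
  generalize D.πE (D.eE 1) = e at *
  generalize D.πE x = x' at *
  generalize D.yE Q = y at *
  linear_combination 2 * e2' + y ^ 2 * k + ε * ((6 * s * t * x' - 3 * j * e ^ 3 * x' +
    e ^ 3 * (α * e ^ 4 + β * x')) * yy + (-6 * s * t + 3 * j * e ^ 3 - β * e ^ 3) * x3 +
    (2 * s * t * y - j * e ^ 3 * y) * xx - 2 * e ^ 3 * (α * e ^ 4 + β * x') * y * ey +
    e ^ 3 * (α * e ^ 4 + β * x') * y * ex)

theorem c6 : ∃ σ : ℤ, (σ = 1 ∨ σ = -1) ∧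
    D.chK.coeff 1 = σ * (D.eE 1 ^ 2 * (α * D.eE 1 ^ 4 + β * x)) := by
  obtain ⟨σ, hσ, e1⟩ := D.π_c6 Q
  obtain ⟨r, hr, e2⟩ := D.gy_eps Q h40
  obtain ⟨u, eu⟩ : ∃ u : EvR D.P1, u.1 = D.eps := ⟨⟨_, IsDeg.evn (D.isDeg_eps Q) (by decide)⟩, rfl⟩
  have du : De (0 + 6) u := by rw [De, eu]; exact D.isDeg_eps Q
  rw [← eu] at e1 e2
  have e1' : D.πE (D.chK.coeff 1) = σ * u ^ 2 := by
    rw [int_mul]
    exact Subtype.ext e1
  have e2' : D.gE Q u = 2 * r := by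
    rw [← mul_one (2 * r : EvR _), ← Int.cast_ofNat, ← Int.cast_mul, int_mul, Int.cast_mul,
      Int.cast_ofNat]
    exact Subtype.ext e2
  obtain ⟨k, dk, ek⟩ := split h.dt h.gt du (by decide)
  have r2 : (r : EvR (D.GB 1)) ^ 2 = 1 := sq_sign hr
  have r2' : (r : EvR D.P1) ^ 2 = 1 := sq_sign hr
  have s2 : (s : EvR (D.GB 1)) ^ 2 = 1 := sq_sign h.hs
  have σ2 : (σ : EvR (D.GB 1)) ^ 2 = 1 := sq_sign hσ
  have tt := h.tt
  have e3 : D.πE (σ * (4 * (s * j * D.eE 1 ^ 3 + r * k))) * t +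
      D.πE (σ * (4 * b + k ^ 2) - D.chK.coeff 1) = 0 := by
    rw [e2'] at ek
    simp only [map_add, map_sub, map_mul, map_pow, map_intCast, map_ofNat] at ek tt ⊢
    rw [e1', ek]
    linear_combination -4 * σ * tt - 4 * σ * t ^ 2 * r2'
  have e4 := g_split h.gt (σ * (4 * (s * j * D.eE 1 ^ 3 + r * k))) (σ * (4 * b + k ^ 2) - D.chK.coeff 1)
  rw [e3, map_zero] at e4
  rw [← e4, map_zero, zero_mul, zero_add] at e3
  have e5 := π_inj h.gt e3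
  have e6 : s * j * D.eE 1 ^ 3 + r * k = 0 :=
    cancel_nat 4 (by linear_combination -σ * e4 - 4 * (s * j * D.eE 1 ^ 3 + r * k) * σ2)
  have de := D.de_e 1
  have dc : De 12 (D.chK.coeff 1) := D.rb_Kq.cb_cx.cp_deg 1
  have d := dc.add (((de.pow 2).mul (((de.pow 4).int α).add (h.dx.int β))).int σ)
  refine ⟨-σ, by omega, ?_⟩
  have := eE_inj Q d (by decide) (by norm_num) (eE_inj Q (de.mul d) (by decide) (by norm_num) ?_)
  · push_cast
    linear_combination this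
  · linear_combination -D.eE 1 ^ 2 * e5 + σ * h.bb - σ * h.xx + σ * D.eE 1 ^ 2 * (-k ^ 2 * r2 +
      (r * k - s * j * D.eE 1 ^ 3) * e6 + j ^ 2 * D.eE 1 ^ 6 * s2)

theorem c4 : ∃ (σ : ℤ) (μ : ℂ), (σ = 1 ∨ σ = -1) ∧
    D.chK.coeff 3 = μ • D.eE 1 ^ 4 + 6 * σ * x := by
  obtain ⟨σ, hσ, e⟩ := D.q_c4 Q
  have dc : De 8 (D.chK.coeff 3) := D.rb_Kq.cb_cx.cp_deg 3
  obtain ⟨μ, e'⟩ := D.ker8 Q (dc.sub (h.dx.int (6 * σ))) (by
    rw [int_mul]
    change D.pq 1 (_ - _ • _) = 0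
    rw [map_sub, map_smul, e, h.qx, smul_smul, sub_eq_zero]
    congr 1
    push_cast
    ring)
  refine ⟨σ, μ, hσ, sub_eq_iff_eq_add.1 ?_⟩
  rw [← Int.cast_ofNat, ← Int.cast_mul]
  exact Subtype.ext e'

theorem c7 : ∃ (A : ℂ) (s₁ s₂ : ℤ), (s₁ = 1 ∨ s₁ = -1) ∧ (s₂ = 1 ∨ s₂ = -1) ∧
    euE D.EC 7 (D.GB 2) =
      A • D.eE 2 ^ 7 + ((6 * s₁ + 4 * s₂ * β : ℤ) : EvR _) * D.κE x * D.eE 2 ^ 3 := by
  obtain ⟨s₂, h₂, e6⟩ := h.c6
  obtain ⟨s₁, μ, h₁, e4⟩ := h.c4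
  have dc : De (2 * (2 : ℕ)) (D.chK.coeff 5) := D.rb_Kq.cb_cx.cp_deg 5
  obtain ⟨a, e2⟩ := D.deg_even Q (by norm_num) dc
  have e2' : D.chK.coeff 5 = a • D.eE 1 ^ 2 := Subtype.ext e2
  have o : ∀ i, Odd (7 + i) → D.chK.coeff i = 0 := fun i => cp_cx_odd D.rb_Kq
  have e7 : D.chK.coeff 7 = 1 := cp_coeff_top D.rb_Kq.cb_cx
  have ev := cp_eval D.rb_Kq.cb_cx D.cb_LB D.ok_kap
  have ef : euE LB 1 (D.GB 2) = D.eE 2 := Subtype.ext D.cb_LB.euE_val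
  refine ⟨1 + 4 * a + 16 * μ + 64 * s₂ * α, s₁, s₂, h₁, h₂, ev.trans ?_⟩
  rw [Polynomial.eval₂_eq_sum_range' _ (Nat.lt_succ_of_le D.rb_Kq.cb_cx.cp_natDegree), ef]
  change ∑ i ∈ Finset.range 8, D.κE (D.chK.coeff i) * _ = _
  have sm : ∀ (c : ℂ) (y : EvR (D.GB 1)), D.κE (c • y) = c • D.κE y := pR_smul _
  simp only [Finset.sum_range_succ, Finset.sum_range_zero, o 0 (by decide), o 2 (by decide),
    o 4 (by decide), o 6 (by decide), e7, e2', e4, e6, map_zero, map_one, map_add, map_mul, map_pow, sm,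
    map_intCast, map_ofNat, κ_e]
  push_cast
  algebra

theorem eP : ∃ (p : EvR (D.GB 2)) (σ n : ℤ), (σ = 1 ∨ σ = -1) ∧ p.1 = D.eP ∧
    2 * p = 3 * σ * D.κE x + 2 * n * D.eE 2 ^ 4 := by
  obtain ⟨σ, hσ, e⟩ := D.q_eP Q
  have dp : IsDeg 8 D.eP := isDeg_euR D.rb_Pq (D.ori_P Q h40)
  obtain ⟨p, ep⟩ : ∃ p : EvR (D.GB 2), p.1 = D.eP := ⟨⟨_, IsDeg.evn dp (by decide)⟩, rfl⟩
  have qz : D.pq 2 (D.κE z) = D.ut Q := D.kap_q h.qz
  obtain ⟨n, en⟩ := D.ker8Z Q (k := 2) (a := D.eP - ((3 * σ : ℤ) : ℂ) • D.κE z)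
    ((isZ_euR D.rb_Pq (D.ori_P Q h40) (by norm_num)).sub ((h.zz.pul _ _ _).smul _))
    (dp.sub (IsDeg.smul (IsDeg.pull h.dz _ _ _) _)) (by
      rw [map_sub, map_smul, e, qz, sub_eq_zero]
      norm_cast)
  have en' : p - ((3 * σ : ℤ) : EvR (D.GB 2)) * D.κE z = n * D.eE 2 ^ 4 := by
    rw [int_mul, int_mul]
    rw [← ep] at en
    exact Subtype.ext en
  have ex := congrArg D.κE h.x_eq
  simp only [map_add, map_mul, map_pow, map_intCast, map_ofNat, κ_e] at ex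
  refine ⟨p, σ, n - 24 * σ * j, hσ, ep, ?_⟩
  push_cast at en' ⊢
  linear_combination 2 * en' - 3 * σ * ex

theorem num {a : EvR (D.GB 1)} (za : IsZ (a : H (D.GB 1) univ)) (da : De 30 a) :
    ∃ n : ℤ, a = (n : ℂ) • D.GE Q :=
  ((D.gen_Gam Q).int _ za da).imp fun _ e => Subtype.ext e

omit h in
theorem inj {a c : ℂ} (e : a • D.GE Q = c • D.GE Q) : a = c :=
  (D.gen_Gam Q).smul_inj (congrArg Subtype.val e)

theorem bound {N : ℤ} (eN : D.eE 1 ^ 15 = (N : ℂ) • D.GE Q) : |N| ≤ 78 := by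
  have de := D.de_e 1
  have ze : IsZ (D.eE 1 : H (D.GB 1) univ) := (D.cdG 1).isZ_ee
  obtain ⟨T, eT⟩ := h.num (a := x * D.eE 1 ^ 11) (h.zx.mul (ze.pow 11)) (h.dx.mul (de.pow 11))
  obtain ⟨R, eR⟩ := h.num (a := x ^ 2 * D.eE 1 ^ 7) ((h.zx.pow 2).mul (ze.pow 7))
    ((h.dx.pow 2).mul (de.pow 7))
  obtain ⟨ε, hε, eG⟩ := h.gam
  have b1 : D.B1 Q h40 = (D.eE 1 ^ 10 * (s * D.eE 1) : EvR (D.GB 1)) := by rw [← h.gy1]; rfl
  have b2 : D.B2 Q h40 = (D.eE 1 ^ 6 * (s * x * D.eE 1) : EvR (D.GB 1)) := by rw [← h.gy2]; rfl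
  have s0 : (s : ℂ) ≠ 0 := by rcases h.hs with rfl | rfl <;> simp
  have s2 : (s : ℂ) ^ 2 = 1 := sq_sign h.hs
  obtain ⟨c, l₁, l₂, ν, dc, hν, g, e1, e2⟩ := D.R2 Q h40 (by norm_num) fun a a' k => by
    rw [b1, b2] at k
    have k' : a • (D.eE 1 ^ 10 * (s * D.eE 1)) + a' • (D.eE 1 ^ 6 * (s * x * D.eE 1)) = 0 :=
      Subtype.ext k
    have := D.indep Q h.dx h.qx (s := a * s) (t := a' * s) (congrArg Subtype.val
      (a₁ := (a * s) • D.eE 1 ^ 11 + (a' * s) • (x * D.eE 1 ^ 7)) (a₂ := 0)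
        (by linear_combination (norm := algebra) k'))
    exact ⟨(mul_eq_zero.1 this.1).resolve_right s0, (mul_eq_zero.1 this.2).resolve_right s0⟩
  obtain ⟨A, s₁, s₂, h₁, h₂, e7⟩ := h.c7
  obtain ⟨p, σ, n, hσ, ep, e8⟩ := h.eP
  have xx := congrArg D.κE h.xx
  simp only [map_add, map_mul, map_pow, map_intCast, map_ofNat, κ_e] at xx
  rw [b1, b2, ← ep, ← D.cb_EC.euE_val] at e2
  have e2' : ν • (euE D.EC 7 (D.GB 2) * p) =
      ((4 - 1 / 2 ^ 10) * l₁) • D.κE (D.eE 1 ^ 10 * (s * D.eE 1)) +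
        ((4 - 1 / 2 ^ 6) * l₂) • D.κE (D.eE 1 ^ 6 * (s * x * D.eE 1)) := Subtype.ext e2
  simp only [map_mul, map_pow, map_intCast, κ_e] at e2'
  have qx : D.pq 2 (D.κE x) = (2 : ℂ) • D.ut Q := by
    have := D.kap_q (b := (2 : ℂ) • D.uS Q) (h.qx.trans (map_smul _ _ _).symm)
    rwa [map_smul] at this
  obtain ⟨f1, f2⟩ := D.indep Q (IsDeg.pull h.dx _ _ _) qx (congrArg Subtype.val (fin_alg xx e7 e8 e2'))
  obtain ⟨w, ew⟩ : ∃ w : EvR (D.GB 1), w.1 = tB 1 (D.GB 1) univ c :=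
    ⟨⟨_, IsDeg.evn ((D.cdG 1).isDeg_tr (p := 22) (sd_univ _ _ _) dc) (by decide)⟩, rfl⟩
  rw [b1, b2, ← ew] at e1
  have e1' : w = l₁ • (D.eE 1 ^ 10 * (s * D.eE 1)) + l₂ • (D.eE 1 ^ 6 * (s * x * D.eE 1)) :=
    Subtype.ext e1
  have w1 : D.eE 1 * w = 0 := Subtype.ext (by
    have := (D.cdG 1).ee_tr (sd_univ _ _ _) c
    rw [← show w.1 = tr _ _ _ _ c from ew] at this
    exact this)
  obtain ⟨δ, hδ, w2⟩ : ∃ δ : ℤ, (δ = 1 ∨ δ = -1) ∧ z * w = δ * D.GE Q := by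
    have := D.z_tr Q h.dz h.qz dc g
    rw [← ew] at this
    rcases this with k | k
    · exact ⟨1, .inl rfl, by rw [Int.cast_one, one_mul]; exact Subtype.ext k⟩
    · exact ⟨-1, .inr rfl, by rw [Int.cast_neg, Int.cast_one, neg_one_mul]; exact Subtype.ext k⟩
  have n1 : ((ε * α : ℤ) * R : ℂ) = -2 := inj (D := D) (Q := Q) (by
    push_cast
    linear_combination (norm := algebra) eG - (ε * α : EvR (D.GB 1)) * eR)
  have n2 : (3 * R : ℂ) = α * N + β * T := inj (D := D) (Q := Q) (by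
    linear_combination (norm := algebra) D.eE 1 ^ 7 * h.xx - 3 * eR + (α : EvR (D.GB 1)) * eN +
      (β : EvR (D.GB 1)) * eT)
  have n3 : (α * T + β * R : ℂ) = 0 := inj (D := D) (Q := Q) (by
    linear_combination (norm := algebra) 3 * D.eE 1 ^ 3 * h.x3 - x * D.eE 1 ^ 3 * h.xx -
      (α : EvR (D.GB 1)) * eT - (β : EvR (D.GB 1)) * eR)
  have n4 : s * (l₁ * N + l₂ * T) = 0 := inj (D := D) (Q := Q) (by
    linear_combination (norm := algebra) D.eE 1 ^ 3 * w1 - D.eE 1 ^ 4 * e1' - (s * l₁) • eN -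
      (s * l₂) • eT)
  have n5 : s * (l₁ * T + l₂ * R) = 2 * δ := inj (D := D) (Q := Q) (by
    linear_combination (norm := algebra) 2 * w2 + j * D.eE 1 ^ 3 * w1 + w * h.x_eq - x * e1' -
      (s * l₁) • eT - (s * l₂) • eR)
  refine OZ.alg_last (R := R) (T := T) (c := n) (A := A) (ν := ν) (l₁ := l₁) (l₂ := l₂) h.ev ?_
    (by exact_mod_cast n2) (by exact_mod_cast n3) ((mul_eq_zero.1 n4).resolve_left s0) ?_ h.hs hσ h₁
    h₂ hν (by push_cast at f1; linear_combination f1) (by push_cast at f2; linear_combination f2)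
  · have : ε * α * R = -2 := by exact_mod_cast n1
    rcases hε with rfl | rfl
    · exact .inr (by linarith)
    · exact .inl (by linarith)
  · rcases h.hs with rfl | rfl <;> rcases hδ with rfl | rfl <;> push_cast at n5
    · exact .inl (by linear_combination n5)
    · exact .inr (by linear_combination n5)
    · exact .inr (by linear_combination -n5)
    · exact .inl (by linear_combination -n5)

end RG

variable (D Q) in
theorem deg_le {N : ℤ} {σ : H ({0}ᶜ : Set (Fin 16 → ℂ)) univ}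
    (hσ : dlt univ {0} σ = orient (Fin 16)) (e : pull D.Φ D.S univ σ = (N : ℂ) • D.sS Q) :
    |N| ≤ 78 := by
  obtain ⟨s, j, α, β, t, z, x, b, h⟩ := D.exists_RG Q
  have k := D.tr_Φ hσ
  rw [e, map_smul, map_smul] at k
  rw [← abs_neg]
  refine h.bound (Subtype.ext ?_)
  rw [Int.cast_neg, neg_smul]
  exact neg_eq_iff_eq_neg.1 k.symm

end TD

end Pool.Agent.Work.MP_8c604c_gt.OT
end
end
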